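import Mathlib

/-!
Definitions for MP_26f5cf_pr: block-beta random polytopes and their face numbers.
-/

set_option autoImplicit false

namespace Pool.Agent.Lib.MP_26f5cf_pr

open MeasureTheory Set

/-- The ambient space `ℝ^{d_1} × ... × ℝ^{d_m}` (each factor with its Euclidean norm). -/
abbrev Space {m : ℕ} (d : Fin m → ℕ) : Type := (i : Fin m) → EuclideanSpace ℝ (Fin (d i))

/-- The normalising constant `c_{b,k}`: the inverse of the integral of `(1 - |y|^2)^b` over the
Euclidean unit ball of `ℝ^k`. -/
noncomputable def betaConst (k : ℕ) (b : ℝ) : ℝ :=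
  (∫ y in Metric.closedBall (0 : EuclideanSpace ℝ (Fin k)) 1, (1 - ‖y‖ ^ 2) ^ b)⁻¹

/-- The block-beta density, supported on the product `Z` of the Euclidean unit balls. -/
noncomputable def blockBetaDensity {m : ℕ} (d : Fin m → ℕ) (β : Fin m → ℝ) : Space d → ℝ :=
  Set.indicator {x | ∀ i, ‖x i‖ ≤ 1}
    (fun x => ∏ i, betaConst (d i) (β i) * (1 - ‖x i‖ ^ 2) ^ β i)

/-- The block-beta distribution on `Z`. -/
noncomputable def blockBeta {m : ℕ} (d : Fin m → ℕ) (β : Fin m → ℝ) : Measure (Space d) :=
  volume.withDensity (fun x => ENNReal.ofReal (blockBetaDensity d β x))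

/-- The set of `j`-dimensional faces of a polytope `P`: the nonempty exposed subsets whose
affine span has dimension `j`. -/
def faces {V : Type*} [NormedAddCommGroup V] [NormedSpace ℝ V] (P : Set V) (j : ℕ) :
    Set (Set V) :=
  {F | F.Nonempty ∧ IsExposed ℝ P F ∧ Module.finrank ℝ (vectorSpan ℝ F) = j}

/-- The number `f_j(P)` of `j`-dimensional faces of `P`. -/
noncomputable def faceCount {V : Type*} [NormedAddCommGroup V] [NormedSpace ℝ V] (P : Set V)
    (j : ℕ) : ENNReal :=
  ((faces P j).encard : ENNReal)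

/-- `𝔼 f_j(P_n)`, where `P_n` is the convex hull of `n` independent points with the block-beta
distribution. -/
noncomputable def expectedFaces {m : ℕ} (d : Fin m → ℕ) (β : Fin m → ℝ) (n j : ℕ) : ENNReal :=
  ∫⁻ X : Fin n → Space d, faceCount (convexHull ℝ (Set.range X)) j
    ∂(Measure.pi fun _ => blockBeta d β)

end Pool.Agent.Lib.MP_26f5cf_pr
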