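import Mathlib
import Pool.Agent.Lib.MP_26f5cf_pr.Defs

/-!
One block: measure estimates for the beta distribution on a Euclidean ball.
-/

set_option autoImplicit false
set_option linter.unusedSectionVars false

namespace Pool.Agent.Lib.MP_26f5cf_pr

open Set MeasureTheory Metric Module

/-- density of the beta distribution of one block -/
noncomputable def betaDens (k : ℕ) (b : ℝ) : EuclideanSpace ℝ (Fin k) → ℝ :=
  Set.indicator (closedBall 0 1) (fun y => betaConst k b * (1 - ‖y‖ ^ 2) ^ b)

/-- the beta distribution of one block -/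
noncomputable def betaBlock (k : ℕ) (b : ℝ) : Measure (EuclideanSpace ℝ (Fin k)) :=
  volume.withDensity (fun y => ENNReal.ofReal (betaDens k b y))

section Beta

variable {k : ℕ} {b : ℝ}

theorem continuous_core (hb : 0 ≤ b) :
    Continuous (fun y : EuclideanSpace ℝ (Fin k) => (1 - ‖y‖ ^ 2) ^ b) :=
  (continuous_const.sub (continuous_norm.pow 2)).rpow_const (fun _ => Or.inr hb)

theorem integral_core_pos (hb : 0 ≤ b) :
    0 < ∫ y in closedBall (0 : EuclideanSpace ℝ (Fin k)) 1, (1 - ‖y‖ ^ 2) ^ b := by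
  have hint : IntegrableOn (fun y : EuclideanSpace ℝ (Fin k) => (1 - ‖y‖ ^ 2) ^ b)
      (closedBall 0 1) volume :=
    (continuous_core hb).continuousOn.integrableOn_compact (isCompact_closedBall _ _)
  have hnn : ∀ y ∈ closedBall (0 : EuclideanSpace ℝ (Fin k)) 1, 0 ≤ (1 - ‖y‖ ^ 2) ^ b := by
    intro y hy
    apply Real.rpow_nonneg
    have : ‖y‖ ≤ 1 := by simpa using hy
    nlinarith [norm_nonneg y]
  have hsub : closedBall (0 : EuclideanSpace ℝ (Fin k)) (1 / 2) ⊆ closedBall 0 1 :=
    closedBall_subset_closedBall (by norm_num)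
  calc 0 < ∫ _y in closedBall (0 : EuclideanSpace ℝ (Fin k)) (1 / 2), ((3 : ℝ) / 4) ^ b := by
        rw [setIntegral_const, smul_eq_mul]
        apply mul_pos
        · rw [measureReal_def, ENNReal.toReal_pos_iff]
          exact ⟨measure_closedBall_pos _ _ (by norm_num), measure_closedBall_lt_top⟩
        · positivity
    _ ≤ ∫ y in closedBall (0 : EuclideanSpace ℝ (Fin k)) (1 / 2), (1 - ‖y‖ ^ 2) ^ b := by
        apply setIntegral_mono_on
        · exact integrableOn_const (by exact measure_closedBall_lt_top.ne)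
        · exact hint.mono_set hsub
        · exact measurableSet_closedBall
        · intro y hy
          have hy' : ‖y‖ ≤ 1 / 2 := by simpa using hy
          apply Real.rpow_le_rpow (by norm_num) _ hb
          nlinarith [norm_nonneg y]
    _ ≤ _ := by
        apply setIntegral_mono_set hint
        · filter_upwards [ae_restrict_mem measurableSet_closedBall] with y hy
          exact hnn y hy
        · exact hsub.eventuallyLE

theorem betaConst_pos (hb : 0 ≤ b) : 0 < betaConst k b := inv_pos.2 (integral_core_pos hb)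

theorem measurable_betaDens (hb : 0 ≤ b) : Measurable (betaDens k b) :=
  ((continuous_const.mul (continuous_core hb)).measurable).indicator measurableSet_closedBall

theorem betaDens_nonneg (hb : 0 ≤ b) (y : EuclideanSpace ℝ (Fin k)) : 0 ≤ betaDens k b y := by
  unfold betaDens
  apply Set.indicator_nonneg
  intro y hy
  have : ‖y‖ ≤ 1 := by simpa using hy
  exact mul_nonneg (betaConst_pos hb).le (Real.rpow_nonneg (by nlinarith [norm_nonneg y]) _)

theorem isProbabilityMeasure_betaBlock (hb : 0 ≤ b) : IsProbabilityMeasure (betaBlock k b) := by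
  constructor
  unfold betaBlock
  rw [withDensity_apply _ MeasurableSet.univ, Measure.restrict_univ]
  have hint : Integrable (betaDens k b) volume := by
    unfold betaDens
    rw [integrable_indicator_iff measurableSet_closedBall]
    exact (continuous_const.mul (continuous_core hb)).continuousOn.integrableOn_compact
      (isCompact_closedBall _ _)
  rw [← ofReal_integral_eq_lintegral_ofReal hint
    (Filter.Eventually.of_forall (betaDens_nonneg hb))]
  unfold betaDens
  rw [integral_indicator measurableSet_closedBall, integral_const_mul]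
  unfold betaConst
  rw [inv_mul_cancel₀ (integral_core_pos hb).ne', ENNReal.ofReal_one]

theorem betaBlock_absolutelyContinuous : betaBlock k b ≪ volume :=
  withDensity_absolutelyContinuous _ _

theorem betaBlock_compl_ball : betaBlock k b {y | ‖y‖ ≤ 1}ᶜ = 0 := by
  have hm : MeasurableSet {y : EuclideanSpace ℝ (Fin k) | ‖y‖ ≤ 1} :=
    (isClosed_le continuous_norm continuous_const).measurableSet
  unfold betaBlock
  rw [withDensity_apply _ hm.compl]
  apply (setLIntegral_congr_fun hm.compl _).trans lintegral_zero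
  intro y hy
  have : y ∉ closedBall (0 : EuclideanSpace ℝ (Fin k)) 1 := by simpa using hy
  simp [betaDens, this]

theorem betaBlock_real_le (hb : 0 ≤ b) {A : Set (EuclideanSpace ℝ (Fin k))}
    (hA : MeasurableSet A) {ε : ℝ} (h : ∀ y ∈ A, ‖y‖ ≤ 1 → 1 - ‖y‖ ^ 2 ≤ ε) :
    (betaBlock k b).real A ≤ betaConst k b * ε ^ b * volume.real (A ∩ closedBall 0 1) := by
  have := isProbabilityMeasure_betaBlock (k := k) hb
  rcases (A ∩ closedBall 0 1).eq_empty_or_nonempty with hemp | ⟨y0, hy0A, hy0⟩
  · rw [hemp]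
    have h0 : (betaBlock k b) A = 0 := by
      apply measure_mono_null _ (betaBlock_compl_ball (k := k))
      intro y hy hy'
      have : y ∈ A ∩ closedBall 0 1 := ⟨hy, by simpa using hy'⟩
      rw [hemp] at this
      exact this
    simp [measureReal_def, h0]
  have hε : 0 ≤ ε := by
    have h1 : ‖y0‖ ≤ 1 := by simpa using hy0
    have := h y0 hy0A h1
    nlinarith [norm_nonneg y0]
  have hfin : volume (A ∩ closedBall (0 : EuclideanSpace ℝ (Fin k)) 1) ≠ ⊤ :=
    ((measure_mono inter_subset_right).trans_lt measure_closedBall_lt_top).ne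
  have key : (betaBlock k b) A ≤
      ENNReal.ofReal (betaConst k b * ε ^ b) * volume (A ∩ closedBall 0 1) := by
    unfold betaBlock
    rw [withDensity_apply _ hA]
    calc ∫⁻ y in A, ENNReal.ofReal (betaDens k b y)
        ≤ ∫⁻ y in A, Set.indicator (closedBall 0 1)
            (fun _ => ENNReal.ofReal (betaConst k b * ε ^ b)) y := by
          apply setLIntegral_mono' hA
          intro y hy
          by_cases hyb : y ∈ closedBall (0 : EuclideanSpace ℝ (Fin k)) 1
          · have h1 : ‖y‖ ≤ 1 := by simpa using hyb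
            simp only [betaDens, Set.indicator_of_mem hyb]
            apply ENNReal.ofReal_le_ofReal
            apply mul_le_mul_of_nonneg_left _ (betaConst_pos hb).le
            apply Real.rpow_le_rpow _ (h y hy h1) hb
            nlinarith [norm_nonneg y]
          · simp [betaDens, Set.indicator_of_notMem hyb]
      _ = ENNReal.ofReal (betaConst k b * ε ^ b) * volume (A ∩ closedBall 0 1) := by
          rw [lintegral_indicator measurableSet_closedBall, lintegral_const,
            Measure.restrict_restrict measurableSet_closedBall, Measure.restrict_apply_univ,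
            Set.inter_comm]
  have h2 := ENNReal.toReal_mono (ENNReal.mul_ne_top ENNReal.ofReal_ne_top hfin) key
  rw [ENNReal.toReal_mul, ENNReal.toReal_ofReal
    (mul_nonneg (betaConst_pos hb).le (Real.rpow_nonneg hε _))] at h2
  exact h2

theorem le_betaBlock_real (hb : 0 ≤ b) {A : Set (EuclideanSpace ℝ (Fin k))}
    (hA : MeasurableSet A) {ε : ℝ} (hε : 0 ≤ ε) (h1 : ∀ y ∈ A, ‖y‖ ≤ 1)
    (h : ∀ y ∈ A, ε ≤ 1 - ‖y‖ ^ 2) :
    betaConst k b * ε ^ b * volume.real A ≤ (betaBlock k b).real A := by
  have := isProbabilityMeasure_betaBlock (k := k) hb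
  have key : ENNReal.ofReal (betaConst k b * ε ^ b) * volume A ≤ (betaBlock k b) A := by
    unfold betaBlock
    rw [withDensity_apply _ hA]
    calc ENNReal.ofReal (betaConst k b * ε ^ b) * volume A
        = ∫⁻ _y in A, ENNReal.ofReal (betaConst k b * ε ^ b) := by
          rw [setLIntegral_const]
      _ ≤ ∫⁻ y in A, ENNReal.ofReal (betaDens k b y) := by
          apply setLIntegral_mono' hA
          intro y hy
          have hyb : y ∈ closedBall (0 : EuclideanSpace ℝ (Fin k)) 1 := by simpa using h1 y hy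
          simp only [betaDens, Set.indicator_of_mem hyb]
          apply ENNReal.ofReal_le_ofReal
          apply mul_le_mul_of_nonneg_left _ (betaConst_pos hb).le
          exact Real.rpow_le_rpow hε (h y hy) hb
  have h2 := ENNReal.toReal_mono (measure_ne_top _ _) key
  rw [ENNReal.toReal_mul, ENNReal.toReal_ofReal
    (mul_nonneg (betaConst_pos hb).le (Real.rpow_nonneg hε _))] at h2
  exact h2

/-- Depth: the set of points at distance at most `t` from the sphere has mass `≤ C t^{b+1}`. -/
theorem depth_upper (hb : 0 ≤ b) (hk : 1 ≤ k) : ∃ C : ℝ, 0 < C ∧ ∀ t : ℝ, 0 < t →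
    (betaBlock k b).real {y | 1 - ‖y‖ ≤ t} ≤ C * t ^ (b + 1) := by
  have : NeZero k := ⟨by omega⟩
  set V : ℝ := volume.real (closedBall (0 : EuclideanSpace ℝ (Fin k)) 1) with hV
  have hVpos : 0 < V := by
    rw [hV, measureReal_def, ENNReal.toReal_pos_iff]
    exact ⟨measure_closedBall_pos _ _ (by norm_num), measure_closedBall_lt_top⟩
  refine ⟨betaConst k b * 2 ^ b * (k * V), by have := betaConst_pos (k := k) hb; positivity, ?_⟩
  intro t ht
  have hm : MeasurableSet {y : EuclideanSpace ℝ (Fin k) | 1 - ‖y‖ ≤ t} :=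
    (isClosed_le (continuous_const.sub continuous_norm) continuous_const).measurableSet
  have h1 := betaBlock_real_le (k := k) (b := b) hb hm (ε := 2 * t) (by
    intro y hy hy1
    have h2 : 1 - ‖y‖ ≤ t := hy
    nlinarith [norm_nonneg y])
  have hvol : volume.real ({y : EuclideanSpace ℝ (Fin k) | 1 - ‖y‖ ≤ t} ∩ closedBall 0 1)
      ≤ k * t * V := by
    rcases le_or_gt 1 t with h | h
    · calc volume.real ({y : EuclideanSpace ℝ (Fin k) | 1 - ‖y‖ ≤ t} ∩ closedBall 0 1)
          ≤ V := measureReal_mono inter_subset_right measure_closedBall_lt_top.ne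
        _ ≤ k * t * V := by
          have hk' : (1 : ℝ) ≤ k := by exact_mod_cast hk
          nlinarith [mul_le_mul hk' h zero_le_one (by positivity)]
    · have hsub : {y : EuclideanSpace ℝ (Fin k) | 1 - ‖y‖ ≤ t} ∩ closedBall 0 1 ⊆
          closedBall 0 1 \ ball 0 (1 - t) := by
        rintro y ⟨hy, hy1⟩
        refine ⟨hy1, fun h => ?_⟩
        have h2 : 1 - ‖y‖ ≤ t := hy
        have h3 : ‖y‖ < 1 - t := by simpa using h
        linarith
      have hball : volume.real (ball (0 : EuclideanSpace ℝ (Fin k)) (1 - t)) = (1 - t) ^ k * V := by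
        rw [measureReal_def, Measure.addHaar_ball volume _ (by linarith : (0 : ℝ) ≤ 1 - t),
          ENNReal.toReal_mul, ENNReal.toReal_ofReal (by
            apply pow_nonneg; linarith), ← Measure.addHaar_unitClosedBall_eq_addHaar_unitBall]
        simp [hV, measureReal_def]
      calc volume.real ({y : EuclideanSpace ℝ (Fin k) | 1 - ‖y‖ ≤ t} ∩ closedBall 0 1)
          ≤ volume.real (closedBall (0 : EuclideanSpace ℝ (Fin k)) 1 \ ball 0 (1 - t)) :=
            measureReal_mono hsub
              ((measure_mono sdiff_subset).trans_lt measure_closedBall_lt_top).ne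
        _ = V - (1 - t) ^ k * V := by
            rw [measureReal_sdiff (ball_subset_closedBall.trans
              (closedBall_subset_closedBall (by linarith))) measurableSet_ball
              measure_closedBall_lt_top.ne, hball]
        _ ≤ k * t * V := by
            have hbern := one_add_mul_le_pow (show (-2 : ℝ) ≤ -t by linarith) k
            have h5 : 1 - (1 - t) ^ k ≤ k * t := by
              have : (1 + -t) ^ k = (1 - t) ^ k := by ring
              rw [this] at hbern
              linarith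
            nlinarith
  calc (betaBlock k b).real {y | 1 - ‖y‖ ≤ t}
      ≤ betaConst k b * (2 * t) ^ b * (k * t * V) := by
        refine h1.trans (mul_le_mul_of_nonneg_left hvol ?_)
        have := betaConst_pos (k := k) hb
        positivity
    _ = betaConst k b * 2 ^ b * (k * V) * t ^ (b + 1) := by
        rw [Real.mul_rpow (by norm_num) ht.le, Real.rpow_add_one ht.ne']
        ring

/-- Shells have mass `≥ c t^{b+1}`. -/
theorem shell_lower (hb : 0 ≤ b) (hk : 1 ≤ k) : ∃ c : ℝ, 0 < c ∧ ∀ t : ℝ, 0 < t → t ≤ 1 →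
    c * t ^ (b + 1) ≤ (betaBlock k b).real {y | t / 2 < 1 - ‖y‖ ∧ 1 - ‖y‖ ≤ t} := by
  have : NeZero k := ⟨by omega⟩
  set V : ℝ := volume.real (closedBall (0 : EuclideanSpace ℝ (Fin k)) 1) with hV
  have hVpos : 0 < V := by
    rw [hV, measureReal_def, ENNReal.toReal_pos_iff]
    exact ⟨measure_closedBall_pos _ _ (by norm_num), measure_closedBall_lt_top⟩
  have hcpos := betaConst_pos (k := k) hb
  refine ⟨betaConst k b * (1 / 2) ^ b * ((1 / 2) * (1 / 2) ^ (k - 1) * V), by positivity, ?_⟩
  intro t ht ht1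
  have hset : {y : EuclideanSpace ℝ (Fin k) | t / 2 < 1 - ‖y‖ ∧ 1 - ‖y‖ ≤ t} =
      ball 0 (1 - t / 2) \ ball 0 (1 - t) := by
    ext y
    simp only [Set.mem_ofPred_eq, Set.mem_sdiff, mem_ball_zero_iff, not_lt]
    constructor
    · rintro ⟨h1, h2⟩
      exact ⟨by linarith, by linarith⟩
    · rintro ⟨h1, h2⟩
      exact ⟨by linarith, by linarith⟩
  have hball : ∀ r : ℝ, 0 ≤ r →
      volume.real (ball (0 : EuclideanSpace ℝ (Fin k)) r) = r ^ k * V := by
    intro r hr
    rw [measureReal_def, Measure.addHaar_ball volume _ hr,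
      ENNReal.toReal_mul, ENNReal.toReal_ofReal (by positivity),
      ← Measure.addHaar_unitClosedBall_eq_addHaar_unitBall]
    simp [hV, measureReal_def]
  have hm : MeasurableSet {y : EuclideanSpace ℝ (Fin k) | t / 2 < 1 - ‖y‖ ∧ 1 - ‖y‖ ≤ t} := by
    rw [hset]
    exact measurableSet_ball.diff measurableSet_ball
  have h1 := le_betaBlock_real (k := k) (b := b) hb hm (ε := t / 2) (by positivity)
    (fun y hy => by
      obtain ⟨h1, h2⟩ := hy
      linarith)
    (fun y hy => by
      obtain ⟨h1, h2⟩ := hy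
      nlinarith [norm_nonneg y])
  have hvol : (t / 2) * (1 / 2) ^ (k - 1) * V ≤
      volume.real {y : EuclideanSpace ℝ (Fin k) | t / 2 < 1 - ‖y‖ ∧ 1 - ‖y‖ ≤ t} := by
    rw [hset, measureReal_sdiff (ball_subset_ball (by linarith)) measurableSet_ball
      measure_ball_lt_top.ne, hball _ (by linarith), hball _ (by linarith), ← sub_mul]
    apply mul_le_mul_of_nonneg_right _ hVpos.le
    obtain ⟨n, rfl⟩ : ∃ n, k = n + 1 := ⟨k - 1, by omega⟩
    simp only [Nat.add_sub_cancel]
    have h2 : (1 - t) ^ (n + 1) ≤ (1 - t) * (1 - t / 2) ^ n := by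
      rw [pow_succ']
      apply mul_le_mul_of_nonneg_left _ (by linarith)
      exact pow_le_pow_left₀ (by linarith) (by linarith) n
    have h3 : (1 / 2 : ℝ) ^ n ≤ (1 - t / 2) ^ n := pow_le_pow_left₀ (by norm_num) (by linarith) n
    calc t / 2 * (1 / 2) ^ n ≤ t / 2 * (1 - t / 2) ^ n :=
          mul_le_mul_of_nonneg_left h3 (by positivity)
      _ = (1 - t / 2) ^ (n + 1) - (1 - t) * (1 - t / 2) ^ n := by ring
      _ ≤ _ := by linarith
  calc betaConst k b * (1 / 2) ^ b * ((1 / 2) * (1 / 2) ^ (k - 1) * V) * t ^ (b + 1)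
      = betaConst k b * (t / 2) ^ b * ((t / 2) * (1 / 2) ^ (k - 1) * V) := by
        rw [div_eq_mul_one_div t 2, Real.mul_rpow ht.le (by norm_num), Real.rpow_add_one ht.ne']
        ring
    _ ≤ betaConst k b * (t / 2) ^ b *
        volume.real {y : EuclideanSpace ℝ (Fin k) | t / 2 < 1 - ‖y‖ ∧ 1 - ‖y‖ ≤ t} :=
        mul_le_mul_of_nonneg_left hvol (by positivity)
    _ ≤ _ := h1

/-- An orthonormal basis starting with a given unit vector. -/
theorem exists_basis {n : ℕ} (u : EuclideanSpace ℝ (Fin (n + 1))) (hu : ‖u‖ = 1) :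
    ∃ B : OrthonormalBasis (Fin (n + 1)) ℝ (EuclideanSpace ℝ (Fin (n + 1))), B 0 = u := by
  have hcard : finrank ℝ (EuclideanSpace ℝ (Fin (n + 1))) = Fintype.card (Fin (n + 1)) := by simp
  have hon : Orthonormal ℝ (({0} : Set (Fin (n + 1))).domRestrict (fun _ => u)) := by
    rw [orthonormal_iff_ite]
    rintro ⟨i, hi⟩ ⟨j, hj⟩
    have hi' : i = 0 := hi
    have hj' : j = 0 := hj
    subst hi' hj'
    simp [Set.domRestrict, hu]
  obtain ⟨B, hB⟩ := hon.exists_orthonormalBasis_extension_of_card_eq hcard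
  exact ⟨B, hB 0 rfl⟩

theorem volume_box {n : ℕ} (B : OrthonormalBasis (Fin n) ℝ (EuclideanSpace ℝ (Fin n)))
    (lo hi : Fin n → ℝ) (h : ∀ i, lo i ≤ hi i) :
    volume.real {y : EuclideanSpace ℝ (Fin n) | ∀ i, B.repr y i ∈ Icc (lo i) (hi i)} =
      ∏ i, (hi i - lo i) := by
  have h1 : {y : EuclideanSpace ℝ (Fin n) | ∀ i, B.repr y i ∈ Icc (lo i) (hi i)} =
      B.repr ⁻¹' ((@WithLp.ofLp 2 (Fin n → ℝ)) ⁻¹' (Icc lo hi)) := by
    ext y
    simp only [Set.mem_ofPred_eq, Set.mem_preimage, Set.mem_Icc, Pi.le_def]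
    exact forall_and
  rw [measureReal_def, h1, B.measurePreserving_repr.measure_preimage,
    (PiLp.volume_preserving_ofLp (Fin n)).measure_preimage, Real.volume_Icc_pi,
    ENNReal.toReal_prod]
  · apply Finset.prod_congr rfl
    intro i _
    rw [ENNReal.toReal_ofReal (by linarith [h i])]
  · exact measurableSet_Icc.nullMeasurableSet
  · exact ((PiLp.volume_preserving_ofLp (Fin n)).measurable measurableSet_Icc).nullMeasurableSet

/-- Caps have mass `≤ C t^γ`. -/
theorem cap_upper (hb : 0 ≤ b) (hk : 1 ≤ k) : ∃ C : ℝ, 0 < C ∧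
    ∀ (u : EuclideanSpace ℝ (Fin k)), ‖u‖ = 1 → ∀ t : ℝ, 0 < t →
    (betaBlock k b).real {y | 1 - inner ℝ u y ≤ t} ≤ C * t ^ (b + ((k : ℝ) + 1) / 2) := by
  obtain ⟨n, rfl⟩ : ∃ n, k = n + 1 := ⟨k - 1, by omega⟩
  have hcpos := betaConst_pos (k := n + 1) hb
  refine ⟨betaConst (n + 1) b * 2 ^ b * (2 * Real.sqrt 2) ^ n, by positivity, ?_⟩
  intro u hu t ht
  obtain ⟨B, hB⟩ := exists_basis u hu
  have hm : MeasurableSet {y : EuclideanSpace ℝ (Fin (n + 1)) | 1 - inner ℝ u y ≤ t} :=
    (isClosed_le (by fun_prop) continuous_const).measurableSet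
  have hrepr0 : ∀ y, B.repr y 0 = inner ℝ u y := fun y => by
    rw [B.repr_apply_apply, hB]
  have hnorm : ∀ y : EuclideanSpace ℝ (Fin (n + 1)),
      ‖y‖ ^ 2 = (inner ℝ u y) ^ 2 + ∑ i : Fin n, (B.repr y i.succ) ^ 2 := by
    intro y
    rw [← B.repr.norm_map y, EuclideanSpace.norm_sq_eq, Fin.sum_univ_succ, hrepr0]
    simp
  have h1 := betaBlock_real_le (k := n + 1) (b := b) hb hm (ε := 2 * t) (by
    intro y hy hy1
    have h2 : 1 - inner ℝ u y ≤ t := hy
    have h3 : inner ℝ u y ≤ ‖y‖ := by
      have := real_inner_le_norm u y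
      rwa [hu, one_mul] at this
    nlinarith [norm_nonneg y])
  have hvol : volume.real ({y : EuclideanSpace ℝ (Fin (n + 1)) | 1 - inner ℝ u y ≤ t} ∩
      closedBall 0 1) ≤ t * (2 * Real.sqrt (2 * t)) ^ n := by
    set lo : Fin (n + 1) → ℝ := Fin.cons (1 - t) (fun _ => -Real.sqrt (2 * t)) with hlo
    set hi : Fin (n + 1) → ℝ := Fin.cons 1 (fun _ => Real.sqrt (2 * t)) with hhi
    have hlohi : ∀ i, lo i ≤ hi i := by
      intro i
      refine Fin.cases ?_ (fun i => ?_) i
      · simp [hlo, hhi, ht.le]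
      · simp only [hlo, hhi, Fin.cons_succ]
        have := Real.sqrt_nonneg (2 * t)
        linarith
    have hbox := volume_box B lo hi hlohi
    have hfin : volume {y : EuclideanSpace ℝ (Fin (n + 1)) | ∀ i, B.repr y i ∈ Icc (lo i) (hi i)}
        ≠ ⊤ := by
      have h1 : {y : EuclideanSpace ℝ (Fin (n + 1)) | ∀ i, B.repr y i ∈ Icc (lo i) (hi i)} =
          B.repr ⁻¹' ((@WithLp.ofLp 2 (Fin (n + 1) → ℝ)) ⁻¹' (Icc lo hi)) := by
        ext y
        simp only [Set.mem_ofPred_eq, Set.mem_preimage, Set.mem_Icc, Pi.le_def]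
        exact forall_and
      rw [h1, B.measurePreserving_repr.measure_preimage
        ((PiLp.volume_preserving_ofLp (Fin (n + 1))).measurable measurableSet_Icc).nullMeasurableSet,
        (PiLp.volume_preserving_ofLp (Fin (n + 1))).measure_preimage
          measurableSet_Icc.nullMeasurableSet]
      exact measure_Icc_lt_top.ne
    calc volume.real ({y : EuclideanSpace ℝ (Fin (n + 1)) | 1 - inner ℝ u y ≤ t} ∩ closedBall 0 1)
        ≤ volume.real {y : EuclideanSpace ℝ (Fin (n + 1)) | ∀ i, B.repr y i ∈ Icc (lo i) (hi i)} := by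
          apply measureReal_mono _ hfin
          rintro y ⟨hy, hy1⟩ i
          have h2 : 1 - inner ℝ u y ≤ t := hy
          have h3 : ‖y‖ ≤ 1 := by simpa using hy1
          have h4 : inner ℝ u y ≤ ‖y‖ := by
            have := real_inner_le_norm u y
            rwa [hu, one_mul] at this
          have h5 : -‖y‖ ≤ inner ℝ u y := by
            have := abs_real_inner_le_norm u y
            rw [hu, one_mul] at this
            exact (abs_le.1 this).1
          refine Fin.cases ?_ (fun i => ?_) i
          · rw [hrepr0]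
            simp only [hlo, hhi, Fin.cons_zero, Set.mem_Icc]
            exact ⟨by linarith, by linarith⟩
          · simp only [hlo, hhi, Fin.cons_succ, Set.mem_Icc]
            rw [← abs_le]
            apply Real.abs_le_sqrt
            have h6 : (B.repr y i.succ) ^ 2 ≤ ∑ i : Fin n, (B.repr y i.succ) ^ 2 :=
              Finset.single_le_sum (f := fun i : Fin n => (B.repr y i.succ) ^ 2)
                (fun i _ => sq_nonneg _) (Finset.mem_univ i)
            have h7 := hnorm y
            have h8 : ‖y‖ ^ 2 ≤ 1 := by nlinarith [norm_nonneg y]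
            nlinarith
      _ = ∏ i, (hi i - lo i) := hbox
      _ = t * (2 * Real.sqrt (2 * t)) ^ n := by
          rw [Fin.prod_univ_succ]
          simp only [hlo, hhi, Fin.cons_zero, Fin.cons_succ, Finset.prod_const, Finset.card_univ,
            Fintype.card_fin]
          ring
  calc (betaBlock (n + 1) b).real {y | 1 - inner ℝ u y ≤ t}
      ≤ betaConst (n + 1) b * (2 * t) ^ b * (t * (2 * Real.sqrt (2 * t)) ^ n) := by
        refine h1.trans (mul_le_mul_of_nonneg_left hvol ?_)
        positivity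
    _ = betaConst (n + 1) b * 2 ^ b * (2 * Real.sqrt 2) ^ n *
        t ^ (b + (((n + 1 : ℕ) : ℝ) + 1) / 2) := by
        have e1 : t ^ (b + (((n + 1 : ℕ) : ℝ) + 1) / 2) = t ^ b * (t * Real.sqrt t ^ n) := by
          rw [Real.sqrt_eq_rpow, ← Real.rpow_natCast (t ^ (1 / 2 : ℝ)) n, ← Real.rpow_mul ht.le]
          nth_rewrite 3 [← Real.rpow_one t]
          rw [← Real.rpow_add ht, ← Real.rpow_add ht]
          congr 1
          push_cast
          ring
        rw [e1, Real.mul_rpow (by norm_num) ht.le, Real.sqrt_mul (by norm_num) t]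
        ring

/-- Caps have mass `≥ c t^γ`. -/
theorem cap_lower (hb : 0 ≤ b) (hk : 1 ≤ k) : ∃ c : ℝ, 0 < c ∧
    ∀ (u : EuclideanSpace ℝ (Fin k)), ‖u‖ = 1 → ∀ t : ℝ, 0 < t → t ≤ 2 →
    c * t ^ (b + ((k : ℝ) + 1) / 2) ≤ (betaBlock k b).real {y | 1 - inner ℝ u y ≤ t} := by
  obtain ⟨n, rfl⟩ : ∃ n, k = n + 1 := ⟨k - 1, by omega⟩
  have hprob := isProbabilityMeasure_betaBlock (k := n + 1) hb
  have hcpos := betaConst_pos (k := n + 1) hb
  -- the case `t ≤ 1`
  have main : ∀ (u : EuclideanSpace ℝ (Fin (n + 1))), ‖u‖ = 1 → ∀ t : ℝ, 0 < t → t ≤ 1 →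
      betaConst (n + 1) b * (1 / 2) ^ b * ((1 / 2) * (1 / Real.sqrt (n + 1)) ^ n) *
        t ^ (b + (((n + 1 : ℕ) : ℝ) + 1) / 2) ≤
      (betaBlock (n + 1) b).real {y | 1 - inner ℝ u y ≤ t} := by
    intro u hu t ht ht1
    obtain ⟨B, hB⟩ := exists_basis u hu
    have hrepr0 : ∀ y, B.repr y 0 = inner ℝ u y := fun y => by
      rw [B.repr_apply_apply, hB]
    have hnorm : ∀ y : EuclideanSpace ℝ (Fin (n + 1)),
        ‖y‖ ^ 2 = (inner ℝ u y) ^ 2 + ∑ i : Fin n, (B.repr y i.succ) ^ 2 := by
      intro y
      rw [← B.repr.norm_map y, EuclideanSpace.norm_sq_eq, Fin.sum_univ_succ, hrepr0]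
      simp
    set r : ℝ := Real.sqrt t / (2 * Real.sqrt (n + 1)) with hr
    have hn1 : (0 : ℝ) < Real.sqrt (n + 1) := Real.sqrt_pos.2 (by positivity)
    have hr0 : 0 ≤ r := by positivity
    have hrsq : r ^ 2 * (n + 1) = t / 4 := by
      rw [hr, div_pow, mul_pow, Real.sq_sqrt ht.le, Real.sq_sqrt (by positivity)]
      field_simp
      norm_num
    set lo : Fin (n + 1) → ℝ := Fin.cons (1 - t) (fun _ => -r) with hlo
    set hi : Fin (n + 1) → ℝ := Fin.cons (1 - t / 2) (fun _ => r) with hhi
    have hlohi : ∀ i, lo i ≤ hi i := by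
      intro i
      refine Fin.cases ?_ (fun i => ?_) i
      · simp only [hlo, hhi, Fin.cons_zero]; linarith
      · simp only [hlo, hhi, Fin.cons_succ]; linarith
    have hbox := volume_box B lo hi hlohi
    set S : Set (EuclideanSpace ℝ (Fin (n + 1))) := {y | ∀ i, B.repr y i ∈ Icc (lo i) (hi i)} with hS
    have hSm : MeasurableSet S := by
      have h1 : S = B.repr ⁻¹' ((@WithLp.ofLp 2 (Fin (n + 1) → ℝ)) ⁻¹' (Icc lo hi)) := by
        ext y
        simp only [hS, Set.mem_ofPred_eq, Set.mem_preimage, Set.mem_Icc, Pi.le_def]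
        exact forall_and
      rw [h1]
      exact B.measurePreserving_repr.measurable
        ((PiLp.volume_preserving_ofLp (Fin (n + 1))).measurable measurableSet_Icc)
    have hSprop : ∀ y ∈ S, 1 - t ≤ inner ℝ u y ∧ ‖y‖ ^ 2 ≤ 1 - t / 2 := by
      intro y hy
      have h0 := hy 0
      rw [hrepr0] at h0
      simp only [hlo, hhi, Fin.cons_zero, Set.mem_Icc] at h0
      refine ⟨h0.1, ?_⟩
      have hsum : ∑ i : Fin n, (B.repr y i.succ) ^ 2 ≤ n * r ^ 2 := by
        calc ∑ i : Fin n, (B.repr y i.succ) ^ 2 ≤ ∑ _i : Fin n, r ^ 2 := by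
              apply Finset.sum_le_sum
              intro i _
              have h1 := hy i.succ
              simp only [hlo, hhi, Fin.cons_succ, Set.mem_Icc] at h1
              nlinarith
          _ = n * r ^ 2 := by simp
      rw [hnorm y]
      nlinarith [sq_nonneg r]
    have h1 := le_betaBlock_real (k := n + 1) (b := b) hb hSm (ε := t / 2) (by positivity)
      (fun y hy => by
        have := (hSprop y hy).2
        nlinarith [norm_nonneg y])
      (fun y hy => by
        have := (hSprop y hy).2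
        linarith)
    rw [hbox] at h1
    have hprod : ∏ i, (hi i - lo i) = (t / 2) * (2 * r) ^ n := by
      rw [Fin.prod_univ_succ]
      simp only [hlo, hhi, Fin.cons_zero, Fin.cons_succ, Finset.prod_const, Finset.card_univ,
        Fintype.card_fin]
      ring
    rw [hprod] at h1
    calc betaConst (n + 1) b * (1 / 2) ^ b * ((1 / 2) * (1 / Real.sqrt (n + 1)) ^ n) *
        t ^ (b + (((n + 1 : ℕ) : ℝ) + 1) / 2)
        = betaConst (n + 1) b * (t / 2) ^ b * ((t / 2) * (2 * r) ^ n) := by
          have e1 : t ^ (b + (((n + 1 : ℕ) : ℝ) + 1) / 2) = t ^ b * (t * Real.sqrt t ^ n) := by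
            rw [Real.sqrt_eq_rpow, ← Real.rpow_natCast (t ^ (1 / 2 : ℝ)) n, ← Real.rpow_mul ht.le]
            nth_rewrite 3 [← Real.rpow_one t]
            rw [← Real.rpow_add ht, ← Real.rpow_add ht]
            congr 1
            push_cast
            ring
          have e2 : 2 * r = Real.sqrt t * (1 / Real.sqrt (n + 1)) := by
            rw [hr]; field_simp
          rw [e1, e2, mul_pow, div_eq_mul_one_div t 2, Real.mul_rpow ht.le (by norm_num)]
          ring
      _ ≤ (betaBlock (n + 1) b).real S := h1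
      _ ≤ _ := by
          apply measureReal_mono _ (measure_ne_top _ _)
          intro y hy
          have := (hSprop y hy).1
          show 1 - inner ℝ u y ≤ t
          linarith
  set c0 : ℝ := betaConst (n + 1) b * (1 / 2) ^ b * ((1 / 2) * (1 / Real.sqrt (n + 1)) ^ n) with hc0
  have hn1 : (0 : ℝ) < Real.sqrt (n + 1) := Real.sqrt_pos.2 (by positivity)
  have hc0pos : 0 < c0 := by positivity
  set γ : ℝ := b + (((n + 1 : ℕ) : ℝ) + 1) / 2 with hγ
  have hγpos : 0 < γ := by positivity
  refine ⟨c0 * (1 / 2) ^ γ, by positivity, ?_⟩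
  intro u hu t ht ht2
  rcases le_or_gt t 1 with h | h
  · calc c0 * (1 / 2) ^ γ * t ^ γ ≤ c0 * 1 * t ^ γ := by
          apply mul_le_mul_of_nonneg_right _ (by positivity)
          apply mul_le_mul_of_nonneg_left _ hc0pos.le
          exact Real.rpow_le_one (by norm_num) (by norm_num) hγpos.le
      _ = c0 * t ^ γ := by ring
      _ ≤ _ := main u hu t ht h
  · calc c0 * (1 / 2) ^ γ * t ^ γ = c0 * (t / 2) ^ γ := by
          rw [div_eq_mul_one_div t 2, Real.mul_rpow ht.le (by norm_num)]
          ring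
      _ ≤ c0 * 1 := by
          apply mul_le_mul_of_nonneg_left _ hc0pos.le
          exact Real.rpow_le_one (by positivity) (by linarith) hγpos.le
      _ = c0 * (1 : ℝ) ^ γ := by rw [Real.one_rpow]
      _ ≤ (betaBlock (n + 1) b).real {y | 1 - inner ℝ u y ≤ 1} := main u hu 1 one_pos le_rfl
      _ ≤ _ := by
          apply measureReal_mono _ (measure_ne_top _ _)
          intro y hy
          have : 1 - inner ℝ u y ≤ 1 := hy
          show 1 - inner ℝ u y ≤ t
          linarith

end Beta

end Pool.Agent.Lib.MP_26f5cf_pr
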