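import Mathlib
import Pool.Agent.Lib.MP_26f5cf_pr.Beta

/-!
The block-beta distribution is the product of the one-block distributions; estimates for
product sets.
-/

set_option autoImplicit false
set_option linter.unusedSectionVars false

namespace Pool.Agent.Lib.MP_26f5cf_pr

open Set MeasureTheory Metric Module
open scoped ENNReal

set_option backward.isDefEq.respectTransparency false in
theorem lintegral_pi_prod {n : ℕ} {E : Fin n → Type} [mE : ∀ i, MeasurableSpace (E i)]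
    (μ : ∀ i, Measure (E i)) [∀ i, SigmaFinite (μ i)] (f : ∀ i, E i → ℝ≥0∞)
    (hf : ∀ i, Measurable (f i)) :
    ∫⁻ x, ∏ i, f i (x i) ∂(Measure.pi μ) = ∏ i, ∫⁻ x, f i x ∂(μ i) := by
  induction n with
  | zero => simp
  | succ n ih =>
    calc ∫⁻ x, ∏ i, f i (x i) ∂(Measure.pi μ)
        = ∫⁻ x : E 0 × ((i : Fin n) → E (Fin.succ i)),
            f 0 x.1 * ∏ i : Fin n, f (Fin.succ i) (x.2 i)
            ∂((μ 0).prod (Measure.pi (fun i ↦ μ i.succ))) := by
          have h := (measurePreserving_piFinSuccAbove μ 0)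
          rw [← h.symm.lintegral_comp_emb (MeasurableEquiv.measurableEmbedding _)]
          simp_rw [MeasurableEquiv.piFinSuccAbove_symm_apply, Fin.insertNthEquiv,
            Fin.prod_univ_succ, Fin.insertNth_zero, Equiv.coe_fn_mk, Fin.cons_succ,
            Fin.zero_succAbove, cast_eq, Fin.cons_zero]
      _ = (∫⁻ x, f 0 x ∂μ 0)
            * ∏ i : Fin n, ∫⁻ (x : E (Fin.succ i)), f (Fin.succ i) x ∂(μ i.succ) := by
          rw [← ih (fun i => μ i.succ) (fun i => f i.succ) (fun i => hf i.succ),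
            ← lintegral_prod_mul (hf 0).aemeasurable]
          exact (Finset.measurable_prod _ fun i _ =>
            (hf i.succ).comp (measurable_pi_apply i)).aemeasurable
      _ = ∏ i, ∫⁻ x, f i x ∂(μ i) := by rw [Fin.prod_univ_succ]

variable {m : ℕ} {d : Fin m → ℕ} {β : Fin m → ℝ}

theorem blockBeta_eq_pi (hβ : ∀ i, 0 ≤ β i) :
    blockBeta d β = Measure.pi (fun i => betaBlock (d i) (β i)) := by
  have hprob : ∀ i, IsProbabilityMeasure (betaBlock (d i) (β i)) := fun i =>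
    isProbabilityMeasure_betaBlock (hβ i)
  symm
  apply Measure.pi_eq
  intro s hs
  unfold blockBeta
  rw [withDensity_apply _ (MeasurableSet.univ_pi hs)]
  have hdens : ∀ x : Space d, ENNReal.ofReal (blockBetaDensity d β x) =
      ∏ i, ENNReal.ofReal (betaDens (d i) (β i) (x i)) := by
    intro x
    rw [← ENNReal.ofReal_prod_of_nonneg (fun i _ => betaDens_nonneg (hβ i) (x i))]
    congr 1
    unfold blockBetaDensity betaDens
    by_cases hx : ∀ i, ‖x i‖ ≤ 1
    · rw [Set.indicator_of_mem (by exact hx)]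
      apply Finset.prod_congr rfl
      intro i _
      rw [Set.indicator_of_mem (by simpa using hx i)]
    · rw [Set.indicator_of_notMem (by exact hx)]
      push Not at hx
      obtain ⟨i, hi⟩ := hx
      symm
      apply Finset.prod_eq_zero (Finset.mem_univ i)
      rw [Set.indicator_of_notMem]
      simpa using hi
  rw [← lintegral_indicator (MeasurableSet.univ_pi hs)]
  have hfun : (Set.pi univ s).indicator (fun x : Space d => ENNReal.ofReal (blockBetaDensity d β x))
      = fun x => ∏ i, (s i).indicator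
        (fun y => ENNReal.ofReal (betaDens (d i) (β i) y)) (x i) := by
    ext x
    by_cases hx : x ∈ Set.pi univ s
    · rw [Set.indicator_of_mem hx, hdens]
      apply Finset.prod_congr rfl
      intro i _
      rw [Set.indicator_of_mem (hx i (Set.mem_univ i))]
    · rw [Set.indicator_of_notMem hx]
      simp only [Set.mem_pi, Set.mem_univ, forall_true_left, not_forall] at hx
      obtain ⟨i, hi⟩ := hx
      symm
      apply Finset.prod_eq_zero (Finset.mem_univ i)
      rw [Set.indicator_of_notMem hi]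
  rw [hfun, volume_pi, lintegral_pi_prod]
  · apply Finset.prod_congr rfl
    intro i _
    rw [lintegral_indicator (hs i)]
    unfold betaBlock
    rw [withDensity_apply _ (hs i)]
  · intro i
    exact (measurable_betaDens (hβ i)).ennreal_ofReal.indicator (hs i)

theorem isProbabilityMeasure_blockBeta (hβ : ∀ i, 0 ≤ β i) :
    IsProbabilityMeasure (blockBeta d β) := by
  rw [blockBeta_eq_pi hβ]
  have hprob : ∀ i, IsProbabilityMeasure (betaBlock (d i) (β i)) := fun i =>
    isProbabilityMeasure_betaBlock (hβ i)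
  infer_instance

theorem blockBeta_absolutelyContinuous : blockBeta d β ≪ volume :=
  withDensity_absolutelyContinuous _ _

theorem blockBeta_real_pi (hβ : ∀ i, 0 ≤ β i) (A : ∀ i, Set (EuclideanSpace ℝ (Fin (d i)))) :
    (blockBeta d β).real {x | ∀ i, x i ∈ A i} = ∏ i, (betaBlock (d i) (β i)).real (A i) := by
  have hprob : ∀ i, IsProbabilityMeasure (betaBlock (d i) (β i)) := fun i =>
    isProbabilityMeasure_betaBlock (hβ i)
  have h : {x : Space d | ∀ i, x i ∈ A i} = Set.pi univ A := by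
    ext x; simp
  rw [measureReal_def, h, blockBeta_eq_pi hβ, Measure.pi_pi, ENNReal.toReal_prod]
  rfl

/-- The exponents `γ_i`. -/
noncomputable def gam (d : Fin m → ℕ) (β : Fin m → ℝ) (i : Fin m) : ℝ :=
  β i + ((d i : ℝ) + 1) / 2

/-- The function `Φ(t) = ∏ t_i^{γ_i}`. -/
noncomputable def Phi (d : Fin m → ℕ) (β : Fin m → ℝ) (t : Fin m → ℝ) : ℝ :=
  ∏ i, (t i) ^ gam d β i

/-- The function `Ψ(t) = ∏ t_i^{β_i + 1}`. -/
noncomputable def Psi (β : Fin m → ℝ) (t : Fin m → ℝ) : ℝ :=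
  ∏ i, (t i) ^ (β i + 1)

theorem Phi_pos {t : Fin m → ℝ} (ht : ∀ i, 0 < t i) : 0 < Phi d β t :=
  Finset.prod_pos fun i _ => Real.rpow_pos_of_pos (ht i) _

theorem Psi_pos {t : Fin m → ℝ} (ht : ∀ i, 0 < t i) : 0 < Psi β t :=
  Finset.prod_pos fun i _ => Real.rpow_pos_of_pos (ht i) _

theorem gam_pos (hβ : ∀ i, 0 ≤ β i) (i : Fin m) : 0 < gam d β i := by
  unfold gam
  have := hβ i
  positivity

theorem prod_cap_upper (hβ : ∀ i, 0 ≤ β i) (hd : ∀ i, 1 ≤ d i) : ∃ C : ℝ, 0 < C ∧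
    ∀ u : Space d, (∀ i, ‖u i‖ = 1) → ∀ t : Fin m → ℝ, (∀ i, 0 < t i) →
    (blockBeta d β).real {y | ∀ i, 1 - inner ℝ (u i) (y i) ≤ t i} ≤ C * Phi d β t := by
  choose C hC hCb using fun i => cap_upper (k := d i) (b := β i) (hβ i) (hd i)
  refine ⟨∏ i, C i, Finset.prod_pos fun i _ => hC i, ?_⟩
  intro u hu t ht
  have h := blockBeta_real_pi (d := d) hβ (fun i => {y | 1 - inner ℝ (u i) y ≤ t i})
  simp only [Set.mem_ofPred_eq] at h
  rw [h, Phi, ← Finset.prod_mul_distrib]
  exact Finset.prod_le_prod (fun i _ => measureReal_nonneg) fun i _ => hCb i (u i) (hu i) (t i) (ht i)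

theorem prod_cap_lower (hβ : ∀ i, 0 ≤ β i) (hd : ∀ i, 1 ≤ d i) : ∃ c : ℝ, 0 < c ∧
    ∀ u : Space d, (∀ i, ‖u i‖ = 1) → ∀ t : Fin m → ℝ, (∀ i, 0 < t i) → (∀ i, t i ≤ 2) →
    c * Phi d β t ≤ (blockBeta d β).real {y | ∀ i, 1 - inner ℝ (u i) (y i) ≤ t i} := by
  choose c hc hcb using fun i => cap_lower (k := d i) (b := β i) (hβ i) (hd i)
  refine ⟨∏ i, c i, Finset.prod_pos fun i _ => hc i, ?_⟩
  intro u hu t ht ht2
  have h := blockBeta_real_pi (d := d) hβ (fun i => {y | 1 - inner ℝ (u i) y ≤ t i})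
  simp only [Set.mem_ofPred_eq] at h
  rw [h, Phi, ← Finset.prod_mul_distrib]
  exact Finset.prod_le_prod (fun i _ => mul_nonneg (hc i).le (Real.rpow_nonneg (ht i).le _))
    fun i _ => hcb i (u i) (hu i) (t i) (ht i) (ht2 i)

theorem prod_depth_upper (hβ : ∀ i, 0 ≤ β i) (hd : ∀ i, 1 ≤ d i) : ∃ C : ℝ, 0 < C ∧
    ∀ t : Fin m → ℝ, (∀ i, 0 < t i) →
    (blockBeta d β).real {y | ∀ i, 1 - ‖y i‖ ≤ t i} ≤ C * Psi β t := by
  choose C hC hCb using fun i => depth_upper (k := d i) (b := β i) (hβ i) (hd i)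
  refine ⟨∏ i, C i, Finset.prod_pos fun i _ => hC i, ?_⟩
  intro t ht
  have h := blockBeta_real_pi (d := d) hβ (fun i => {y | 1 - ‖y‖ ≤ t i})
  simp only [Set.mem_ofPred_eq] at h
  rw [h, Psi, ← Finset.prod_mul_distrib]
  exact Finset.prod_le_prod (fun i _ => measureReal_nonneg) fun i _ => hCb i (t i) (ht i)

theorem prod_shell_lower (hβ : ∀ i, 0 ≤ β i) (hd : ∀ i, 1 ≤ d i) : ∃ c : ℝ, 0 < c ∧
    ∀ t : Fin m → ℝ, (∀ i, 0 < t i) → (∀ i, t i ≤ 1) →
    c * Psi β t ≤ (blockBeta d β).real {y | ∀ i, t i / 2 < 1 - ‖y i‖ ∧ 1 - ‖y i‖ ≤ t i} := by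
  choose c hc hcb using fun i => shell_lower (k := d i) (b := β i) (hβ i) (hd i)
  refine ⟨∏ i, c i, Finset.prod_pos fun i _ => hc i, ?_⟩
  intro t ht ht1
  have h := blockBeta_real_pi (d := d) hβ (fun i => {y | t i / 2 < 1 - ‖y‖ ∧ 1 - ‖y‖ ≤ t i})
  simp only [Set.mem_ofPred_eq] at h
  rw [h, Psi, ← Finset.prod_mul_distrib]
  exact Finset.prod_le_prod (fun i _ => mul_nonneg (hc i).le (Real.rpow_nonneg (ht i).le _))
    fun i _ => hcb i (t i) (ht i) (ht1 i)

/-- Almost every point lies in the open product of balls and has nonzero components. -/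
theorem ae_good (hd : ∀ i, 1 ≤ d i) :
    ∀ᵐ x ∂(blockBeta d β), ∀ i, ‖x i‖ < 1 ∧ x i ≠ 0 := by
  rw [ae_all_iff]
  intro i
  have hne : NeZero (d i) := ⟨by have := hd i; omega⟩
  have h0 : ∀ᵐ x : Space d, ‖x i‖ ≠ 1 ∧ x i ≠ 0 := by
    have h1 : ∀ᵐ y : EuclideanSpace ℝ (Fin (d i)), ‖y‖ ≠ 1 ∧ y ≠ 0 := by
      have h2 : ∀ᵐ y : EuclideanSpace ℝ (Fin (d i)), ‖y‖ ≠ 1 := by
        rw [ae_iff]
        have : {y : EuclideanSpace ℝ (Fin (d i)) | ¬ ‖y‖ ≠ 1} = sphere 0 1 := by
          ext y; simp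
        rw [this]
        exact Measure.addHaar_sphere _ _ _
      have h3 : ∀ᵐ y : EuclideanSpace ℝ (Fin (d i)), y ≠ 0 := by
        rw [ae_iff]
        have : {y : EuclideanSpace ℝ (Fin (d i)) | ¬ y ≠ 0} = {0} := by
          ext y; simp
        rw [this]
        exact measure_singleton _
      filter_upwards [h2, h3] with y hy2 hy3 using ⟨hy2, hy3⟩
    have := (Measure.quasiMeasurePreserving_eval
      (μ := fun i : Fin m => (volume : Measure (EuclideanSpace ℝ (Fin (d i))))) i).ae h1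
    simpa [volume_pi] using this
  have h1 : ∀ᵐ x ∂(blockBeta d β), ‖x i‖ ≤ 1 := by
    rw [ae_iff]
    unfold blockBeta
    have hm : MeasurableSet {x : Space d | ¬ ‖x i‖ ≤ 1} :=
      (measurableSet_le (measurable_pi_apply i).norm measurable_const).compl
    rw [withDensity_apply _ hm]
    apply (setLIntegral_congr_fun hm _).trans lintegral_zero
    intro x hx
    have hx' : ¬ ‖x i‖ ≤ 1 := hx
    have : x ∉ {x : Space d | ∀ i, ‖x i‖ ≤ 1} := fun h => hx' (h i)
    simp [blockBetaDensity, Set.indicator_of_notMem this]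
  filter_upwards [blockBeta_absolutelyContinuous.ae_le h0, h1] with x hx0 hx1
  exact ⟨lt_of_le_of_ne hx1 hx0.1, hx0.2⟩

end Pool.Agent.Lib.MP_26f5cf_pr
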