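import Mathlib
import Pool.Agent.Lib.MP_26f5cf_pr.Prod

/-!
Half-spaces versus product caps, and dyadic rounding.
-/

set_option autoImplicit false
set_option linter.unusedSectionVars false

namespace Pool.Agent.Lib.MP_26f5cf_pr

open Set MeasureTheory Metric Module

/-- Moving the centre of a cap. -/
theorem cap_move {E : Type*} [NormedAddCommGroup E] [InnerProductSpace ℝ E] {u x y : E} {t : ℝ}
    (hu : ‖u‖ = 1) (hx : ‖x‖ ≤ 1) (hy : ‖y‖ ≤ 1) (hx0 : x ≠ 0) (ht : t ≤ 2)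
    (h1 : 1 - inner ℝ u x ≤ t) (h2 : 1 - inner ℝ u y ≤ t) :
    1 - inner ℝ (‖x‖⁻¹ • x) y ≤ 11 * t := by
  set v : E := ‖x‖⁻¹ • x with hv
  have hxpos : 0 < ‖x‖ := norm_pos_iff.2 hx0
  have hvn : ‖v‖ = 1 := by
    rw [hv, norm_smul, norm_inv, norm_norm, inv_mul_cancel₀ hxpos.ne']
  have hux : inner ℝ u x ≤ ‖x‖ := by
    have := real_inner_le_norm u x
    rwa [hu, one_mul] at this
  have huy : inner ℝ u y ≤ ‖y‖ := by
    have := real_inner_le_norm u y
    rwa [hu, one_mul] at this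
  have ht0 : 0 ≤ t := by linarith
  have hvx : ‖v - x‖ ≤ t := by
    have : v - x = (‖x‖⁻¹ - 1) • x := by rw [hv, sub_smul, one_smul]
    rw [this, norm_smul, Real.norm_eq_abs, abs_of_nonneg (by
      rw [sub_nonneg]; exact (one_le_inv₀ hxpos).2 hx)]
    have : (‖x‖⁻¹ - 1) * ‖x‖ = 1 - ‖x‖ := by
      rw [sub_mul, inv_mul_cancel₀ hxpos.ne', one_mul]
    rw [this]
    linarith
  have hxu : ‖x - u‖ ≤ Real.sqrt (2 * t) := by
    apply Real.le_sqrt_of_sq_le
    rw [norm_sub_sq_real, hu, real_inner_comm]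
    nlinarith [norm_nonneg x]
  have hyu : ‖u - y‖ ≤ Real.sqrt (2 * t) := by
    apply Real.le_sqrt_of_sq_le
    rw [norm_sub_sq_real, hu]
    nlinarith [norm_nonneg y]
  have hvy : ‖v - y‖ ≤ t + 2 * Real.sqrt (2 * t) := by
    calc ‖v - y‖ = ‖(v - x) + (x - u) + (u - y)‖ := by congr 1; abel
      _ ≤ ‖v - x‖ + ‖x - u‖ + ‖u - y‖ := norm_add₃_le
      _ ≤ _ := by linarith
  have hsq : ‖v - y‖ ^ 2 = 1 - 2 * inner ℝ v y + ‖y‖ ^ 2 := by
    rw [norm_sub_sq_real, hvn]; ring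
  have hs : Real.sqrt (2 * t) ^ 2 = 2 * t := Real.sq_sqrt (by linarith)
  have hsn := Real.sqrt_nonneg (2 * t)
  have hb : ‖v - y‖ ^ 2 ≤ (t + 2 * Real.sqrt (2 * t)) ^ 2 :=
    pow_le_pow_left₀ (norm_nonneg _) hvy 2
  have hb2 : (t + 2 * Real.sqrt (2 * t)) ^ 2 ≤ 2 * t ^ 2 + 16 * t := by
    nlinarith [sq_nonneg (t - 2 * Real.sqrt (2 * t))]
  have hy2 : 1 - ‖y‖ ^ 2 ≤ 2 * t := by nlinarith [norm_nonneg y]
  nlinarith

/-- Dyadic rounding. -/
theorem exists_dyadic {t : ℝ} (ht : 0 < t) (ht2 : t ≤ 2) :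
    ∃ n : ℕ, t ≤ 2 * (1 / 2) ^ n ∧ 2 * (1 / 2) ^ n ≤ 2 * t := by
  obtain ⟨n, h1, h2⟩ := exists_nat_pow_near (x := 2 / t) (y := (2 : ℝ))
    (by rw [le_div_iff₀ ht]; linarith) (by norm_num)
  refine ⟨n, ?_, ?_⟩
  · rw [one_div, inv_pow, ← div_eq_mul_inv, le_div_iff₀ (by positivity)]
    rw [le_div_iff₀ ht] at h1
    linarith
  · rw [one_div, inv_pow, ← div_eq_mul_inv, div_le_iff₀ (by positivity)]
    rw [div_lt_iff₀ ht, pow_succ] at h2
    nlinarith

variable {m : ℕ} {d : Fin m → ℕ}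

/-- A half-space whose boundary meets the open product of balls is sandwiched between
product caps. -/
theorem halfspace_caps (hd : ∀ i, 1 ≤ d i) {l : Space d →L[ℝ] ℝ} (hl : l ≠ 0) {M : ℝ}
    {x0 : Space d} (hx0 : ∀ i, ‖x0 i‖ < 1) (hM : l x0 = M) :
    ∃ (u : Space d) (t : Fin m → ℝ), (∀ i, ‖u i‖ = 1) ∧ (∀ i, 0 < t i) ∧ (∀ i, t i ≤ 2) ∧
      (∀ y : Space d, (∀ i, ‖y i‖ ≤ 1) → M ≤ l y → ∀ i, 1 - inner ℝ (u i) (y i) ≤ t i) ∧
      (∀ y : Space d, (∀ i, ‖y i‖ ≤ 1) → (∀ i, 1 - inner ℝ (u i) (y i) ≤ t i / m) → M ≤ l y) := by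
  classical
  -- Riesz representatives of the components
  have hrep : ∃ a : Space d, ∀ y : Space d, l y = ∑ i, inner ℝ (a i) (y i) := by
    refine ⟨fun i => (InnerProductSpace.toDual ℝ (EuclideanSpace ℝ (Fin (d i)))).symm
      (l.comp (ContinuousLinearMap.single ℝ (fun i => EuclideanSpace ℝ (Fin (d i))) i)), ?_⟩
    intro y
    have hy : y = ∑ i, Pi.single i (y i) := (Finset.univ_sum_single y).symm
    conv_lhs => rw [hy]
    rw [map_sum]
    apply Finset.sum_congr rfl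
    intro i _
    rw [InnerProductSpace.toDual_symm_apply]
    rfl
  obtain ⟨a, ha⟩ := hrep
  have hunit : ∀ i, ∃ u : EuclideanSpace ℝ (Fin (d i)), ‖u‖ = 1 ∧ ‖a i‖ • u = a i := by
    intro i
    by_cases h0 : a i = 0
    · have hi := hd i
      refine ⟨EuclideanSpace.single ⟨0, by omega⟩ 1, by simp, by simp [h0]⟩
    · have hpos : 0 < ‖a i‖ := norm_pos_iff.2 h0
      refine ⟨‖a i‖⁻¹ • a i, ?_, ?_⟩
      · rw [norm_smul, norm_inv, norm_norm, inv_mul_cancel₀ hpos.ne']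
      · rw [smul_smul, mul_inv_cancel₀ hpos.ne', one_smul]
  choose u hu hua using hunit
  have hin : ∀ (y : Space d) i, inner ℝ (a i) (y i) = ‖a i‖ * inner ℝ (u i) (y i) := by
    intro y i
    conv_lhs => rw [← hua i]
    rw [real_inner_smul_left]
  have hsum : ∀ y : Space d, ∑ i, ‖a i‖ * (1 - inner ℝ (u i) (y i)) = ∑ i, ‖a i‖ - l y := by
    intro y
    rw [ha y, ← Finset.sum_sub_distrib]
    apply Finset.sum_congr rfl
    intro i _
    rw [hin y i]; ring
  have hnn : ∀ (y : Space d), (∀ i, ‖y i‖ ≤ 1) → ∀ i, 0 ≤ 1 - inner ℝ (u i) (y i) := by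
    intro y hy i
    have := real_inner_le_norm (u i) (y i)
    rw [hu i, one_mul] at this
    linarith [hy i]
  set D0 : ℝ := ∑ i, ‖a i‖ - M with hD0
  have hexa : ∃ i, a i ≠ 0 := by
    by_contra hcon
    push Not at hcon
    apply hl
    ext y
    rw [ha y]
    simp [hcon]
  have hD0pos : 0 < D0 := by
    obtain ⟨i, hi⟩ := hexa
    rw [hD0, ← hM, ← hsum x0]
    apply Finset.sum_pos'
    · intro j _
      exact mul_nonneg (norm_nonneg _) (hnn x0 (fun i => (hx0 i).le) j)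
    · refine ⟨i, Finset.mem_univ i, mul_pos (norm_pos_iff.2 hi) ?_⟩
      have := real_inner_le_norm (u i) (x0 i)
      rw [hu i, one_mul] at this
      linarith [hx0 i]
  refine ⟨u, fun i => if a i = 0 then 2 else min 2 (D0 / ‖a i‖), hu, ?_, ?_, ?_, ?_⟩
  · intro i
    dsimp only
    split_ifs with h0
    · norm_num
    · exact lt_min (by norm_num) (div_pos hD0pos (norm_pos_iff.2 h0))
  · intro i
    dsimp only
    split_ifs with h0
    · exact le_rfl
    · exact min_le_left _ _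
  · intro y hy hMy i
    have h2 : 1 - inner ℝ (u i) (y i) ≤ 2 := by
      have := abs_real_inner_le_norm (u i) (y i)
      rw [hu i, one_mul] at this
      have := (abs_le.1 this).1
      linarith [hy i]
    dsimp only
    split_ifs with h0
    · exact h2
    · refine le_min h2 ?_
      rw [le_div_iff₀ (norm_pos_iff.2 h0)]
      have h3 : ‖a i‖ * (1 - inner ℝ (u i) (y i)) ≤ ∑ i, ‖a i‖ * (1 - inner ℝ (u i) (y i)) :=
        Finset.single_le_sum (f := fun i => ‖a i‖ * (1 - inner ℝ (u i) (y i)))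
          (fun j _ => mul_nonneg (norm_nonneg _) (hnn y hy j)) (Finset.mem_univ i)
      rw [hsum y] at h3
      linarith
  · intro y hy hcap
    have h4 : ∑ i, ‖a i‖ * (1 - inner ℝ (u i) (y i)) ≤ ∑ _i : Fin m, D0 / m := by
      apply Finset.sum_le_sum
      intro i _
      have h5 := hcap i
      by_cases h0 : a i = 0
      · rw [h0]
        simp only [norm_zero, zero_mul]
        positivity
      · simp only [h0, if_false] at h5
        have hpos := norm_pos_iff.2 h0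
        calc ‖a i‖ * (1 - inner ℝ (u i) (y i)) ≤ ‖a i‖ * (min 2 (D0 / ‖a i‖) / m) :=
              mul_le_mul_of_nonneg_left h5 hpos.le
          _ ≤ ‖a i‖ * ((D0 / ‖a i‖) / m) := by
              apply mul_le_mul_of_nonneg_left _ hpos.le
              exact div_le_div_of_nonneg_right (min_le_right _ _) (Nat.cast_nonneg m)
          _ = D0 / m := by field_simp
    rw [hsum y, Finset.sum_const, Finset.card_univ, Fintype.card_fin, nsmul_eq_mul] at h4
    have hm : (m : ℝ) ≠ 0 := by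
      obtain ⟨i, _⟩ := hexa
      have : 0 < m := Fin.pos i
      positivity
    rw [mul_div_cancel₀ _ hm] at h4
    linarith

end Pool.Agent.Lib.MP_26f5cf_pr
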