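import Mathlib
import Pool.Agent.Lib.MP_26f5cf_pr.Defs

/-!
Deterministic combinatorics of faces of the convex hull of points in general position.
-/

set_option autoImplicit false
set_option linter.unusedSectionVars false

namespace Pool.Agent.Lib.MP_26f5cf_pr

open Set Module

section Faces

variable {V : Type*} [NormedAddCommGroup V] [NormedSpace ℝ V] [FiniteDimensional ℝ V]
variable {ι : Type*} [Fintype ι]

/-- General position: any `dim + 1` of the points are affinely independent. -/
def GenPos (X : ι → V) : Prop :=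
  ∀ s : Finset ι, s.card = finrank ℝ V + 1 → AffineIndependent ℝ (fun i : s => X i)

/-- `I` is the set of indices where some functional is maximal. -/
def FaceIdx (X : ι → V) (I : Finset ι) : Prop :=
  I.Nonempty ∧ ∃ (l : V →L[ℝ] ℝ) (c : ℝ), (∀ i ∈ I, l (X i) = c) ∧ ∀ i, i ∉ I → l (X i) < c

theorem GenPos.affineIndependent {X : ι → V} (hX : GenPos X)
    (hcard : finrank ℝ V + 1 ≤ Fintype.card ι) {s : Finset ι} (hs : s.card ≤ finrank ℝ V + 1) :
    AffineIndependent ℝ (fun i : s => X i) := by
  obtain ⟨t, hst, ht⟩ := Finset.exists_superset_card_eq hs hcard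
  have h := hX t ht
  exact h.comp_embedding ⟨fun i : s => (⟨i.1, hst i.2⟩ : t), fun a b hab =>
    Subtype.ext (congrArg (fun z : t => (z : ι)) hab)⟩

theorem GenPos.card_le {X : ι → V} (hX : GenPos X) {l : V →L[ℝ] ℝ} (hl : l ≠ 0) {c : ℝ}
    {s : Finset ι} (hs : ∀ i ∈ s, l (X i) = c) : s.card ≤ finrank ℝ V := by
  by_contra hcon
  push Not at hcon
  obtain ⟨t, hts, ht⟩ := Finset.exists_subset_card_eq (s := s) (n := finrank ℝ V + 1) hcon
  have h := hX t ht
  have htop := h.vectorSpan_eq_top_of_card_eq_finrank_add_one (by simpa using ht)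
  have hle : vectorSpan ℝ (Set.range fun i : t => X i) ≤ LinearMap.ker (l : V →ₗ[ℝ] ℝ) := by
    rw [vectorSpan_def, Submodule.span_le]
    rintro v ⟨x, ⟨i, rfl⟩, y, ⟨j, rfl⟩, rfl⟩
    simp [hs i (hts i.2), hs j (hts j.2)]
  rw [htop, top_le_iff] at hle
  apply hl
  ext v
  have : v ∈ LinearMap.ker (l : V →ₗ[ℝ] ℝ) := by rw [hle]; trivial
  simpa using this

theorem mem_convexHull_range_iff (X : ι → V) (x : V) :
    x ∈ convexHull ℝ (Set.range X) ↔
      ∃ w : ι → ℝ, (∀ i, 0 ≤ w i) ∧ ∑ i, w i = 1 ∧ ∑ i, w i • X i = x := by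
  classical
  constructor
  · intro hx
    rw [convexHull_range_eq_exists_affineCombination] at hx
    obtain ⟨s, w, hw0, hw1, hx⟩ := hx
    refine ⟨fun i => if i ∈ s then w i else 0, fun i => ?_, ?_, ?_⟩
    · by_cases hi : i ∈ s
      · simpa [hi] using hw0 i hi
      · simp [hi]
    · simpa [Finset.sum_ite_mem] using hw1
    · rw [Finset.affineCombination_eq_linear_combination s X w hw1] at hx
      simpa [ite_smul, Finset.sum_ite_mem] using hx
  · rintro ⟨w, hw0, hw1, rfl⟩
    exact (convex_convexHull ℝ _).sum_mem (fun i _ => hw0 i) hw1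
      (fun i _ => subset_convexHull ℝ _ (Set.mem_range_self i))

/-- The face cut out by a functional attaining its maximum exactly on `I`. -/
theorem exposed_eq (X : ι → V) {I : Finset ι} {l : V →L[ℝ] ℝ} {c : ℝ} (hI : I.Nonempty)
    (h1 : ∀ i ∈ I, l (X i) = c) (h2 : ∀ i, i ∉ I → l (X i) < c) :
    convexHull ℝ (X '' (I : Set ι)) =
      {x ∈ convexHull ℝ (Set.range X) | ∀ y ∈ convexHull ℝ (Set.range X), l y ≤ l x} := by
  classical
  have hle : ∀ i, l (X i) ≤ c := fun i => by
    by_cases hi : i ∈ I
    · exact (h1 i hi).le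
    · exact (h2 i hi).le
  have hP : ∀ y ∈ convexHull ℝ (Set.range X), l y ≤ c := by
    intro y hy
    obtain ⟨w, hw0, hw1, rfl⟩ := (mem_convexHull_range_iff X y).1 hy
    rw [map_sum]
    calc ∑ i, l (w i • X i) = ∑ i, w i * l (X i) := by simp
      _ ≤ ∑ i, w i * c := Finset.sum_le_sum fun i _ => mul_le_mul_of_nonneg_left (hle i) (hw0 i)
      _ = c := by rw [← Finset.sum_mul, hw1, one_mul]
  have hconst : ∀ x ∈ convexHull ℝ (X '' (I : Set ι)), l x = c := by
    intro x hx
    have hconv : Convex ℝ {x | l x = c} := by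
      intro a ha b hb s t hs ht hst
      simp only [Set.mem_ofPred_eq] at *
      simp [ha, hb, ← add_mul, hst]
    exact convexHull_min (by rintro _ ⟨i, hi, rfl⟩; exact h1 i hi) hconv hx
  apply Set.Subset.antisymm
  · intro x hx
    refine ⟨convexHull_mono (Set.image_subset_range _ _) hx, fun y hy => ?_⟩
    rw [hconst x hx]
    exact hP y hy
  · rintro x ⟨hx, hmax⟩
    obtain ⟨i0, hi0⟩ := hI
    have hlx : l x = c := by
      apply le_antisymm (hP x hx)
      rw [← h1 i0 hi0]
      exact hmax _ (subset_convexHull ℝ _ (Set.mem_range_self i0))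
    obtain ⟨w, hw0, hw1, rfl⟩ := (mem_convexHull_range_iff X x).1 hx
    have hzero : ∀ i, i ∉ I → w i = 0 := by
      have hsum : ∑ i, w i * (c - l (X i)) = 0 := by
        have : l (∑ i, w i • X i) = ∑ i, w i * l (X i) := by simp [map_sum]
        rw [this] at hlx
        simp_rw [mul_sub, Finset.sum_sub_distrib]
        rw [hlx, ← Finset.sum_mul, hw1, one_mul, sub_self]
      have hnn : ∀ i ∈ Finset.univ, 0 ≤ w i * (c - l (X i)) := fun i _ =>
        mul_nonneg (hw0 i) (by linarith [hle i])
      intro i hi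
      have := (Finset.sum_eq_zero_iff_of_nonneg hnn).1 hsum i (Finset.mem_univ i)
      rcases mul_eq_zero.1 this with h | h
      · exact h
      · exact absurd h (by have := h2 i hi; linarith)
    have hsumI : ∑ i, w i • X i = ∑ i ∈ I, w i • X i := by
      symm
      apply Finset.sum_subset (Finset.subset_univ I)
      intro i _ hi
      simp [hzero i hi]
    have hw1' : ∑ i ∈ I, w i = 1 := by
      rw [← hw1]
      apply Finset.sum_subset (Finset.subset_univ I)
      intro i _ hi
      exact hzero i hi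
    rw [hsumI]
    exact (convex_convexHull ℝ _).sum_mem (fun i _ => hw0 i) hw1'
      (fun i hi => subset_convexHull ℝ _ (Set.mem_image_of_mem X hi))

/-- The index set cut out by a functional. -/
theorem exposed_eq_filter (X : ι → V) (l : V →L[ℝ] ℝ) {x0 : V}
    (hx0 : x0 ∈ convexHull ℝ (Set.range X)) (hmax : ∀ y ∈ convexHull ℝ (Set.range X), l y ≤ l x0) :
    ∃ I : Finset ι, I.Nonempty ∧ (∀ i ∈ I, l (X i) = l x0) ∧ ∀ i, i ∉ I → l (X i) < l x0 := by
  classical
  refine ⟨Finset.univ.filter (fun i => l (X i) = l x0), ?_, ?_, ?_⟩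
  · by_contra hcon
    rw [Finset.not_nonempty_iff_eq_empty, Finset.filter_eq_empty_iff] at hcon
    have hlt : ∀ i, l (X i) < l x0 := fun i =>
      lt_of_le_of_ne (hmax _ (subset_convexHull ℝ _ (Set.mem_range_self i)))
        (hcon (Finset.mem_univ i))
    obtain ⟨w, hw0, hw1, hw⟩ := (mem_convexHull_range_iff X x0).1 hx0
    have : l x0 < l x0 := by
      nth_rewrite 1 [← hw]
      rw [map_sum]
      have h1 : ∑ i, l (w i • X i) < ∑ i, w i * l x0 := by
        have hex : ∃ i, 0 < w i := by
          by_contra h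
          push Not at h
          have : ∑ i, w i = 0 := Finset.sum_eq_zero fun i _ => le_antisymm (h i) (hw0 i)
          rw [hw1] at this
          exact one_ne_zero this
        obtain ⟨i, hi⟩ := hex
        apply Finset.sum_lt_sum
        · intro j _
          simpa using mul_le_mul_of_nonneg_left (hlt j).le (hw0 j)
        · exact ⟨i, Finset.mem_univ i, by simpa using mul_lt_mul_of_pos_left (hlt i) hi⟩
      rwa [← Finset.sum_mul, hw1, one_mul] at h1
    exact lt_irrefl _ this
  · intro i hi
    simpa using hi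
  · intro i hi
    have hne : l (X i) ≠ l x0 := by simpa using hi
    exact lt_of_le_of_ne (hmax _ (subset_convexHull ℝ _ (Set.mem_range_self i))) hne

theorem vectorSpan_convexHull_image (X : ι → V) (I : Finset ι) :
    vectorSpan ℝ (convexHull ℝ (X '' (I : Set ι))) = vectorSpan ℝ (Set.range fun i : I => X i) := by
  rw [← direction_affineSpan, affineSpan_convexHull, direction_affineSpan]
  congr 1
  ext x
  simp

theorem GenPos.finrank_face {X : ι → V} (hX : GenPos X)
    (hcard : finrank ℝ V + 1 ≤ Fintype.card ι) {I : Finset ι} (hne : I.Nonempty)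
    (hI : I.card ≤ finrank ℝ V + 1) :
    finrank ℝ (vectorSpan ℝ (convexHull ℝ (X '' (I : Set ι)))) + 1 = I.card := by
  rw [vectorSpan_convexHull_image]
  have h := hX.affineIndependent hcard hI
  have : Nonempty I := hne.to_subtype
  simpa using h.finrank_vectorSpan_add_one

theorem GenPos.vectorSpan_range {X : ι → V} (hX : GenPos X)
    (hcard : finrank ℝ V + 1 ≤ Fintype.card ι) : vectorSpan ℝ (Set.range X) = ⊤ := by
  obtain ⟨t, _, ht⟩ := Finset.exists_superset_card_eq (s := (∅ : Finset ι))
    (n := finrank ℝ V + 1) (by simp) hcard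
  have h := (hX t ht).vectorSpan_eq_top_of_card_eq_finrank_add_one (by simpa using ht)
  rw [eq_top_iff, ← h]
  apply vectorSpan_mono
  rintro _ ⟨i, rfl⟩
  exact Set.mem_range_self _

/-- Faces of dimension `j < dim` correspond to index sets of size `j + 1`. -/
theorem GenPos.faces_eq {X : ι → V} (hX : GenPos X)
    (hcard : finrank ℝ V + 1 ≤ Fintype.card ι) {j : ℕ} (hj : j < finrank ℝ V) :
    faces (convexHull ℝ (Set.range X)) j =
      (fun I : Finset ι => convexHull ℝ (X '' (I : Set ι))) ''
        {I | FaceIdx X I ∧ I.card = j + 1} := by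
  ext F
  constructor
  · rintro ⟨hne, hexp, hdim⟩
    obtain ⟨l, hl⟩ := hexp hne
    obtain ⟨x0, hx0⟩ := hne
    have hx0' := hx0
    rw [hl] at hx0'
    obtain ⟨I, hIne, h1, h2⟩ := exposed_eq_filter X l hx0'.1 hx0'.2
    have hF : F = convexHull ℝ (X '' (I : Set ι)) := by
      rw [hl, exposed_eq X hIne h1 h2]
    have hl0 : l ≠ 0 := by
      intro h0
      have : F = convexHull ℝ (Set.range X) := by
        rw [hl, h0]
        ext x
        simp
      rw [this, ← direction_affineSpan, affineSpan_convexHull, direction_affineSpan,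
        hX.vectorSpan_range hcard, finrank_top] at hdim
      omega
    have hIcard := hX.card_le hl0 h1
    have h3 := hX.finrank_face hcard hIne (by omega)
    rw [← hF, hdim] at h3
    exact ⟨I, ⟨⟨hIne, l, _, h1, h2⟩, h3.symm⟩, hF.symm⟩
  · rintro ⟨I, ⟨⟨hIne, l, c, h1, h2⟩, hIc⟩, rfl⟩
    have heq := exposed_eq X hIne h1 h2
    refine ⟨?_, ?_, ?_⟩
    · exact (hIne.to_set.image X).convexHull
    · intro _
      exact ⟨l, heq⟩
    · have h3 := hX.finrank_face hcard hIne (by omega)
      dsimp only
      omega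

theorem faceIdx_injOn (X : ι → V) :
    Set.InjOn (fun I : Finset ι => convexHull ℝ (X '' (I : Set ι))) {I | FaceIdx X I} := by
  have key : ∀ I : Finset ι, FaceIdx X I → ∀ i, X i ∈ convexHull ℝ (X '' (I : Set ι)) → i ∈ I := by
    rintro I ⟨hIne, l, c, h1, h2⟩ i hi
    by_contra hcon
    have hconst : ∀ x ∈ convexHull ℝ (X '' (I : Set ι)), l x = c := by
      intro x hx
      have hconv : Convex ℝ {x | l x = c} := by
        intro a ha b hb s t hs ht hst
        simp only [Set.mem_ofPred_eq] at *
        simp [ha, hb, ← add_mul, hst]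
      exact convexHull_min (by rintro _ ⟨i, hi, rfl⟩; exact h1 i hi) hconv hx
    have := hconst _ hi
    have := h2 i hcon
    linarith
  intro I hI J hJ hIJ
  dsimp only at hIJ
  ext i
  constructor
  · intro hi
    exact key J hJ i (hIJ ▸ subset_convexHull ℝ _ (Set.mem_image_of_mem X hi))
  · intro hi
    exact key I hI i (hIJ ▸ subset_convexHull ℝ _ (Set.mem_image_of_mem X hi))

open Classical in
/-- The finite set of index sets of faces with `k` vertices. -/
noncomputable def idxSet (X : ι → V) (k : ℕ) : Finset (Finset ι) :=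
  Finset.univ.filter (fun I => FaceIdx X I ∧ I.card = k)

theorem GenPos.faceCount_eq {X : ι → V} (hX : GenPos X)
    (hcard : finrank ℝ V + 1 ≤ Fintype.card ι) {j : ℕ} (hj : j < finrank ℝ V) :
    faceCount (convexHull ℝ (Set.range X)) j = (idxSet X (j + 1)).card := by
  classical
  unfold faceCount
  rw [hX.faces_eq hcard hj, Set.InjOn.encard_image]
  · have : {I : Finset ι | FaceIdx X I ∧ I.card = j + 1} = (idxSet X (j + 1) : Set (Finset ι)) := by
      ext I
      simp [idxSet]
    rw [this, Set.encard_coe_eq_coe_finsetCard]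
    simp
  · exact (faceIdx_injOn X).mono (fun I hI => hI.1)

/-- A face with fewer than `dim` vertices is contained in a strictly larger one. -/
theorem GenPos.exists_larger {X : ι → V} (hX : GenPos X)
    (hcard : finrank ℝ V + 1 ≤ Fintype.card ι) {I : Finset ι} (hI : FaceIdx X I)
    (hc : I.card < finrank ℝ V) :
    ∃ J : Finset ι, I ⊂ J ∧ FaceIdx X J ∧ J.card ≤ finrank ℝ V := by
  classical
  obtain ⟨⟨i0, hi0⟩, l, c, h1, h2⟩ := hI
  -- the span of the differences
  set U : Submodule ℝ V := vectorSpan ℝ (Set.range fun i : I => X i) with hU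
  have hUdim : finrank ℝ U + 1 ≤ I.card := by
    have : Nonempty I := ⟨⟨i0, hi0⟩⟩
    have h := hX.affineIndependent hcard (s := I) (by omega)
    have h9 := h.finrank_vectorSpan_add_one
    rw [← hU, Fintype.card_coe] at h9
    omega
  -- a functional vanishing on `U`, not proportional to `l`
  have hW : ∃ g : V →L[ℝ] ℝ, (∀ v ∈ U, g v = 0) ∧ ∀ t : ℝ, g ≠ t • l := by
    set K : Submodule ℝ V := LinearMap.ker (l : V →ₗ[ℝ] ℝ) with hK
    have hKdim : finrank ℝ V ≤ finrank ℝ K + 1 := by
      have h3 := LinearMap.finrank_range_add_finrank_ker (l : V →ₗ[ℝ] ℝ)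
      have h4 : finrank ℝ (LinearMap.range (l : V →ₗ[ℝ] ℝ)) ≤ 1 := by
        calc finrank ℝ (LinearMap.range (l : V →ₗ[ℝ] ℝ)) ≤ finrank ℝ ℝ :=
              Submodule.finrank_le _
          _ = 1 := by simp
      rw [← hK] at h3
      omega
    have hnot : ¬ K ≤ U := by
      intro hle
      have := Submodule.finrank_mono hle
      omega
    obtain ⟨v, hvK, hvU⟩ := Set.not_subset.1 hnot
    obtain ⟨g, hgv, hgU⟩ := Submodule.exists_le_ker_of_notMem hvU
    refine ⟨LinearMap.toContinuousLinearMap g, ?_, ?_⟩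
    · intro w hw
      simpa using hgU hw
    · intro t ht
      apply hgv
      have h5 : l v = 0 := by simpa [hK] using hvK
      have := congrArg (fun f : V →L[ℝ] ℝ => f v) ht
      simpa [h5] using this
  obtain ⟨g0, hg0U, hg0l⟩ := hW
  have hdiff : ∀ i ∈ I, X i - X i0 ∈ U := fun i hi =>
    vsub_mem_vectorSpan ℝ (Set.mem_range_self (⟨i, hi⟩ : I)) (Set.mem_range_self (⟨i0, hi0⟩ : I))
  -- choose the sign of `g` so that it is positive somewhere
  have hsign : ∃ g : V →L[ℝ] ℝ, (∀ i ∈ I, g (X i - X i0) = 0) ∧ (∀ t : ℝ, g ≠ t • l) ∧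
      ∃ j, 0 < g (X j - X i0) := by
    have hex : ∃ j, g0 (X j - X i0) ≠ 0 := by
      by_contra hcon
      push Not at hcon
      apply hg0l 0
      have hle : vectorSpan ℝ (Set.range X) ≤ LinearMap.ker (g0 : V →ₗ[ℝ] ℝ) := by
        rw [vectorSpan_eq_span_vsub_set_right ℝ (Set.mem_range_self i0), Submodule.span_le]
        rintro v ⟨x, ⟨i, rfl⟩, rfl⟩
        have := hcon i
        simpa using this
      rw [hX.vectorSpan_range hcard, top_le_iff] at hle
      ext v
      have : v ∈ LinearMap.ker (g0 : V →ₗ[ℝ] ℝ) := by rw [hle]; trivial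
      simpa using this
    obtain ⟨j, hj⟩ := hex
    rcases lt_or_gt_of_ne hj with hj | hj
    · refine ⟨-g0, fun i hi => by simp [hg0U _ (hdiff i hi)], fun t ht => hg0l (-t) ?_, j, by
        simpa using hj⟩
      have : g0 = -(t • l) := by rw [← ht, neg_neg]
      rw [this]
      ext v
      simp
    · exact ⟨g0, fun i hi => hg0U _ (hdiff i hi), hg0l, j, hj⟩
  obtain ⟨g, hgI, hgl, hgpos⟩ := hsign
  set S : Finset ι := Finset.univ.filter (fun j => 0 < g (X j - X i0)) with hS
  have hSne : S.Nonempty := by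
    obtain ⟨j, hj⟩ := hgpos
    exact ⟨j, Finset.mem_filter.2 ⟨Finset.mem_univ j, hj⟩⟩
  obtain ⟨k, hkS, hkmin⟩ := S.exists_min_image (fun j => (c - l (X j)) / g (X j - X i0)) hSne
  have hkpos : 0 < g (X k - X i0) := (Finset.mem_filter.1 hkS).2
  have hkI : k ∉ I := fun hk => by
    have := hgI k hk
    linarith
  set t : ℝ := (c - l (X k)) / g (X k - X i0) with ht
  have htpos : 0 < t := div_pos (by linarith [h2 k hkI]) hkpos
  have hlc : ∀ i, l (X i) ≤ c := fun i => by
    by_cases hi : i ∈ I
    · exact (h1 i hi).le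
    · exact (h2 i hi).le
  have hle : ∀ i, (l + t • g) (X i) ≤ c + t * g (X i0) := by
    intro i
    have : (l + t • g) (X i) = l (X i) + t * g (X i - X i0) + t * g (X i0) := by
      simp [map_sub]; ring
    rw [this]
    have : l (X i) + t * g (X i - X i0) ≤ c := by
      rcases le_or_gt (g (X i - X i0)) 0 with h | h
      · have := mul_nonpos_of_nonneg_of_nonpos htpos.le h
        linarith [hlc i]
      · have h6 := hkmin i (Finset.mem_filter.2 ⟨Finset.mem_univ i, h⟩)
        rw [le_div_iff₀ h] at h6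
        linarith
    linarith
  have heqI : ∀ i ∈ I, (l + t • g) (X i) = c + t * g (X i0) := by
    intro i hi
    have : (l + t • g) (X i) = l (X i) + t * g (X i - X i0) + t * g (X i0) := by
      simp [map_sub]; ring
    rw [this, hgI i hi, h1 i hi]
    ring
  have heqk : (l + t • g) (X k) = c + t * g (X i0) := by
    have : (l + t • g) (X k) = l (X k) + t * g (X k - X i0) + t * g (X i0) := by
      simp [map_sub]; ring
    rw [this, ht, div_mul_cancel₀ _ hkpos.ne']
    ring
  refine ⟨Finset.univ.filter (fun i => (l + t • g) (X i) = c + t * g (X i0)), ?_, ?_, ?_⟩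
  · rw [Finset.ssubset_iff_of_subset]
    · exact ⟨k, by simp only [Finset.mem_filter, Finset.mem_univ, true_and]; exact heqk, hkI⟩
    · intro i hi
      simp only [Finset.mem_filter, Finset.mem_univ, true_and]
      exact heqI i hi
  · refine ⟨⟨i0, ?_⟩, l + t • g, c + t * g (X i0), ?_, ?_⟩
    · simp only [Finset.mem_filter, Finset.mem_univ, true_and]
      exact heqI i0 hi0
    · intro i hi
      simpa only [Finset.mem_filter, Finset.mem_univ, true_and] using hi
    · intro i hi
      simp only [Finset.mem_filter, Finset.mem_univ, true_and] at hi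
      exact lt_of_le_of_ne (hle i) hi
  · have hne0 : l + t • g ≠ 0 := by
      intro h0
      apply hgl (-t⁻¹)
      ext v
      have h7 := congrArg (fun f : V →L[ℝ] ℝ => f v) h0
      have h8 : l v + t * g v = 0 := by simpa using h7
      have h9 : l v = - (t * g v) := by linarith
      have htne := htpos.ne'
      simp only [neg_smul, neg_apply, smul_apply, smul_eq_mul, h9]
      field_simp
    apply hX.card_le hne0 (c := c + t * g (X i0))
    intro i hi
    simpa only [Finset.mem_filter, Finset.mem_univ, true_and] using hi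

/-- Every proper face is contained in a facet. -/
theorem GenPos.exists_facet {X : ι → V} (hX : GenPos X)
    (hcard : finrank ℝ V + 1 ≤ Fintype.card ι) {I : Finset ι} (hI : FaceIdx X I)
    (hc : I.card ≤ finrank ℝ V) :
    ∃ J : Finset ι, I ⊆ J ∧ FaceIdx X J ∧ J.card = finrank ℝ V := by
  induction h : finrank ℝ V - I.card using Nat.strong_induction_on generalizing I with
  | _ n ih =>
    rcases hc.eq_or_lt with heq | hlt
    · exact ⟨I, Finset.Subset.refl _, hI, heq⟩
    · obtain ⟨J, hIJ, hJ, hJc⟩ := hX.exists_larger hcard hI hlt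
      have hcardlt := Finset.card_lt_card hIJ
      obtain ⟨K, hJK, hK, hKc⟩ := ih (finrank ℝ V - J.card) (by omega) hJ hJc rfl
      exact ⟨K, hIJ.subset.trans hJK, hK, hKc⟩

/-- Removing a vertex from a face gives a face. -/
theorem GenPos.faceIdx_erase [DecidableEq ι] {X : ι → V} (hX : GenPos X)
    (hcard : finrank ℝ V + 1 ≤ Fintype.card ι) {J : Finset ι} (hJ : FaceIdx X J)
    (hJc : J.card ≤ finrank ℝ V + 1) {k : ι} (hk : k ∈ J) (hne : (J.erase k).Nonempty) :
    FaceIdx X (J.erase k) := by
  classical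
  obtain ⟨_, l, c, h1, h2⟩ := hJ
  have hai := hX.affineIndependent hcard hJc
  obtain ⟨i0, hi0⟩ := hne
  have hi0J : i0 ∈ J := Finset.mem_of_mem_erase hi0
  have hi0k : i0 ≠ k := Finset.ne_of_mem_erase hi0
  -- `X k` is not in the affine span of the others
  have hnot : X k ∉ affineSpan ℝ (X '' (J.erase k : Set ι)) := by
    have h := hai.notMem_affineSpan_sdiff (⟨k, hk⟩ : J) Set.univ
    convert h using 3
    ext x
    constructor
    · rintro ⟨i, hi, rfl⟩
      have hi' : i ∈ J.erase k := hi
      exact ⟨⟨i, Finset.mem_of_mem_erase hi'⟩, ⟨trivial, fun h => Finset.ne_of_mem_erase hi'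
        (congrArg (fun z : J => (z : ι)) h)⟩, rfl⟩
    · rintro ⟨⟨i, hi⟩, ⟨_, hik⟩, rfl⟩
      refine ⟨i, ?_, rfl⟩
      exact Finset.mem_erase.2 ⟨fun h => hik (Subtype.ext h), hi⟩
  have hnot' : X k - X i0 ∉ vectorSpan ℝ (X '' (J.erase k : Set ι)) := by
    intro hmem
    apply hnot
    have h3 : X i0 ∈ affineSpan ℝ (X '' (J.erase k : Set ι)) :=
      subset_affineSpan ℝ _ (Set.mem_image_of_mem X hi0)
    have h4 := AffineSubspace.vadd_mem_of_mem_direction
      (s := affineSpan ℝ (X '' (J.erase k : Set ι))) (by rwa [direction_affineSpan]) h3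
    simpa using h4
  obtain ⟨g', hg'k, hg'U⟩ := Submodule.exists_le_ker_of_notMem hnot'
  -- normalise
  have hg : ∃ g : V →L[ℝ] ℝ, (∀ i ∈ J.erase k, g (X i - X i0) = 0) ∧ g (X k - X i0) < 0 := by
    have hz : ∀ i ∈ J.erase k, g' (X i - X i0) = 0 := by
      intro i hi
      have : X i - X i0 ∈ vectorSpan ℝ (X '' (J.erase k : Set ι)) :=
        vsub_mem_vectorSpan ℝ (Set.mem_image_of_mem X hi) (Set.mem_image_of_mem X hi0)
      simpa using hg'U this
    rcases lt_or_gt_of_ne hg'k with h | h
    · exact ⟨LinearMap.toContinuousLinearMap g', hz, h⟩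
    · refine ⟨-LinearMap.toContinuousLinearMap g', fun i hi => ?_, ?_⟩
      · have := hz i hi
        simp only [map_sub] at this
        simp [map_sub]
        linarith
      · simp only [neg_apply, LinearMap.coe_toContinuousLinearMap', neg_lt_zero]
        exact h
  obtain ⟨g, hgI, hgk⟩ := hg
  have hev : ∀ᶠ ε : ℝ in nhdsWithin 0 (Set.Ioi 0), ∀ i, i ∉ J → ε * g (X i - X i0) < c - l (X i) := by
    rw [Filter.eventually_all]
    intro i
    by_cases hi : i ∈ J
    · exact Filter.Eventually.of_forall fun _ h => absurd hi h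
    · have hlt := h2 i hi
      have hcont : Filter.Tendsto (fun ε : ℝ => ε * g (X i - X i0)) (nhdsWithin 0 (Set.Ioi 0))
          (nhds (0 * g (X i - X i0))) :=
        ((continuous_id.mul continuous_const).tendsto 0).mono_left nhdsWithin_le_nhds
      rw [zero_mul] at hcont
      filter_upwards [hcont.eventually (gt_mem_nhds (show (0 : ℝ) < c - l (X i) by linarith))]
        with ε hε _
      exact hε
  obtain ⟨ε, hε, hεpos⟩ := (hev.and self_mem_nhdsWithin).exists
  have hεpos' : 0 < ε := hεpos
  refine ⟨⟨i0, hi0⟩, l + ε • g, c + ε * g (X i0), ?_, ?_⟩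
  · intro i hi
    have h3 := hgI i hi
    have h4 := h1 i (Finset.mem_of_mem_erase hi)
    simp only [map_sub, sub_eq_zero] at h3
    simp [h4, h3]
  · intro i hi
    have h3 : (l + ε • g) (X i) = l (X i) + ε * g (X i - X i0) + ε * g (X i0) := by
      simp [map_sub]; ring
    rw [h3]
    by_cases hiJ : i ∈ J
    · have hik : i = k := by
        by_contra hik
        exact hi (Finset.mem_erase.2 ⟨hik, hiJ⟩)
      subst hik
      have := mul_neg_of_pos_of_neg hεpos' hgk
      linarith [h1 i hiJ]
    · have := hε i hiJ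
      linarith

/-- Nonempty subsets of a face are faces. -/
theorem GenPos.faceIdx_subset {X : ι → V} (hX : GenPos X)
    (hcard : finrank ℝ V + 1 ≤ Fintype.card ι) {J : Finset ι} (hJ : FaceIdx X J)
    (hJc : J.card ≤ finrank ℝ V + 1) {I : Finset ι} (hIJ : I ⊆ J) (hne : I.Nonempty) :
    FaceIdx X I := by
  classical
  induction h : J.card - I.card generalizing J with
  | zero =>
    have : I = J := Finset.eq_of_subset_of_card_le hIJ (by omega)
    rw [this]
    exact hJ
  | succ n ih =>
    have hlt : I.card < J.card := by omega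
    obtain ⟨k, hkJ, hkI⟩ := Finset.exists_mem_notMem_of_card_lt_card hlt
    have hsub : I ⊆ J.erase k := fun i hi => Finset.mem_erase.2 ⟨fun h => hkI (h ▸ hi), hIJ hi⟩
    have hce : (J.erase k).card = J.card - 1 := Finset.card_erase_of_mem hkJ
    exact ih (hX.faceIdx_erase hcard hJ hJc hkJ (hne.mono hsub)) (by omega) hsub (by omega)

/-- `f_0 ≤ (j + 1) f_j`. -/
theorem GenPos.card_vertices_le {X : ι → V} (hX : GenPos X)
    (hcard : finrank ℝ V + 1 ≤ Fintype.card ι) {j : ℕ} (hj : j < finrank ℝ V) :
    (idxSet X 1).card ≤ (j + 1) * (idxSet X (j + 1)).card := by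
  classical
  set S : Finset ι := Finset.univ.filter (fun i => FaceIdx X {i}) with hS
  have h1 : (idxSet X 1).card = S.card := by
    have : idxSet X 1 = S.map ⟨fun i => ({i} : Finset ι), Finset.singleton_injective⟩ := by
      ext I
      simp only [idxSet, Finset.mem_filter, Finset.mem_univ, true_and, Finset.mem_map, hS,
        Function.Embedding.coeFn_mk]
      constructor
      · rintro ⟨h, hc⟩
        obtain ⟨i, rfl⟩ := Finset.card_eq_one.1 hc
        exact ⟨i, h, rfl⟩
      · rintro ⟨i, h, rfl⟩
        exact ⟨h, Finset.card_singleton i⟩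
    rw [this, Finset.card_map]
  rw [h1]
  have hsub : S ⊆ (idxSet X (j + 1)).biUnion id := by
    intro i hi
    have hi' : FaceIdx X {i} := by simpa [hS] using hi
    obtain ⟨J, hiJ, hJ, hJc⟩ := hX.exists_facet hcard hi' (by simp; omega)
    obtain ⟨I, hiI, hIJ, hIc⟩ := Finset.exists_subsuperset_card_eq (n := j + 1) hiJ
      (by simp) (by omega)
    rw [Finset.mem_biUnion]
    refine ⟨I, ?_, ?_⟩
    · simp only [idxSet, Finset.mem_filter, Finset.mem_univ, true_and]
      exact ⟨hX.faceIdx_subset hcard hJ (by omega) hIJ ⟨i, hiI (by simp)⟩, hIc⟩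
    · exact hiI (by simp)
  calc S.card ≤ ((idxSet X (j + 1)).biUnion id).card := Finset.card_le_card hsub
    _ ≤ (idxSet X (j + 1)).card * (j + 1) := by
        apply Finset.card_biUnion_le_card_mul
        intro I hI
        simp only [idxSet, Finset.mem_filter, Finset.mem_univ, true_and] at hI
        exact hI.2.le
    _ = (j + 1) * (idxSet X (j + 1)).card := Nat.mul_comm _ _

/-- `f_j ≤ (d choose j+1) f_{d-1}`. -/
theorem GenPos.card_faces_le {X : ι → V} (hX : GenPos X)
    (hcard : finrank ℝ V + 1 ≤ Fintype.card ι) {j : ℕ} (hj : j < finrank ℝ V) :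
    (idxSet X (j + 1)).card ≤ (finrank ℝ V).choose (j + 1) * (idxSet X (finrank ℝ V)).card := by
  classical
  have hsub : idxSet X (j + 1) ⊆
      (idxSet X (finrank ℝ V)).biUnion (fun J => J.powersetCard (j + 1)) := by
    intro I hI
    simp only [idxSet, Finset.mem_filter, Finset.mem_univ, true_and] at hI
    obtain ⟨J, hIJ, hJ, hJc⟩ := hX.exists_facet hcard hI.1 (by omega)
    rw [Finset.mem_biUnion]
    refine ⟨J, ?_, ?_⟩
    · simp only [idxSet, Finset.mem_filter, Finset.mem_univ, true_and]
      exact ⟨hJ, hJc⟩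
    · rw [Finset.mem_powersetCard]
      exact ⟨hIJ, hI.2⟩
  calc (idxSet X (j + 1)).card
      ≤ ((idxSet X (finrank ℝ V)).biUnion (fun J => J.powersetCard (j + 1))).card :=
        Finset.card_le_card hsub
    _ ≤ (idxSet X (finrank ℝ V)).card * (finrank ℝ V).choose (j + 1) := by
        apply Finset.card_biUnion_le_card_mul
        intro J hJ
        simp only [idxSet, Finset.mem_filter, Finset.mem_univ, true_and] at hJ
        rw [Finset.card_powersetCard, hJ.2]
    _ = _ := Nat.mul_comm _ _

/-- There is at least one facet. -/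
theorem GenPos.facet_pos {X : ι → V} (hX : GenPos X)
    (hcard : finrank ℝ V + 1 ≤ Fintype.card ι) (hd : 0 < finrank ℝ V) :
    0 < (idxSet X (finrank ℝ V)).card := by
  classical
  have : Nontrivial V := Module.nontrivial_of_finrank_pos hd
  obtain ⟨v, hv⟩ := exists_ne (0 : V)
  obtain ⟨l, hl⟩ := SeparatingDual.exists_ne_zero (R := ℝ) hv
  have hne : (Finset.univ : Finset ι).Nonempty := by
    rw [← Finset.card_pos, Finset.card_univ]; omega
  obtain ⟨i0, _, hi0⟩ := Finset.exists_max_image Finset.univ (fun i => l (X i)) hne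
  have hface : FaceIdx X (Finset.univ.filter (fun i => l (X i) = l (X i0))) := by
    refine ⟨⟨i0, by simp⟩, l, l (X i0), fun i hi => by simpa using hi, fun i hi => ?_⟩
    have h1 : l (X i) ≠ l (X i0) := by simpa using hi
    exact lt_of_le_of_ne (hi0 i (Finset.mem_univ i)) h1
  have hl0 : l ≠ 0 := by
    rintro rfl
    simp at hl
  obtain ⟨J, _, hJ, hJc⟩ := hX.exists_facet hcard hface
    (hX.card_le hl0 (c := l (X i0)) (fun i hi => by simpa using hi))
  rw [Finset.card_pos]
  exact ⟨J, by simp only [idxSet, Finset.mem_filter, Finset.mem_univ, true_and]; exact ⟨hJ, hJc⟩⟩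

end Faces

end Pool.Agent.Lib.MP_26f5cf_pr
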