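import Mathlib
import Pool.Agent.Lib.MP_26f5cf_pr.Faces

/-!
Random points with a law absolutely continuous with respect to a Haar measure are almost surely
in general position.
-/

set_option autoImplicit false
set_option linter.unusedSectionVars false

namespace Pool.Agent.Lib.MP_26f5cf_pr

open Set MeasureTheory Module

section

variable {V : Type*} [MeasurableSpace V]

/-- Splitting the coordinates of an i.i.d. sequence into two blocks. -/
theorem mp_split {n a b : ℕ} (e : Fin a ⊕ Fin b ≃ Fin n) (μ : Measure V) [SigmaFinite μ] :
    MeasurePreserving (fun X : Fin n → V => ((fun i => X (e (Sum.inl i))), fun j => X (e (Sum.inr j))))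
      (Measure.pi fun _ => μ)
      ((Measure.pi fun _ : Fin a => μ).prod (Measure.pi fun _ : Fin b => μ)) := by
  have h1 := (measurePreserving_piCongrLeft (fun _ : Fin n => μ) e).symm
  have h2 := measurePreserving_sumPiEquivProdPi (fun _ : Fin a ⊕ Fin b => μ)
  exact h2.comp h1

end

section

variable {V : Type*} [NormedAddCommGroup V] [NormedSpace ℝ V] [FiniteDimensional ℝ V]
  [MeasurableSpace V] [BorelSpace V]

theorem ae_affineIndependent (ν μ : Measure V) [ν.IsAddHaarMeasure] [SigmaFinite μ]
    (hμ : μ ≪ ν) (k : ℕ) (hk : k ≤ finrank ℝ V + 1) :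
    ∀ᵐ x ∂(Measure.pi fun _ : Fin k => μ), AffineIndependent ℝ x := by
  induction k with
  | zero => exact Filter.Eventually.of_forall fun x => affineIndependent_of_subsingleton ℝ x
  | succ k ih =>
    have ih' := ih (by omega)
    have hopen : IsOpen {x : Fin (k + 1) → V | AffineIndependent ℝ x} :=
      isOpen_setOfPred_affineIndependent
    have hmeas : MeasurableSet {x : Fin (k + 1) → V | ¬ AffineIndependent ℝ x} :=
      hopen.measurableSet.compl
    rw [ae_iff]
    have hmp := measurePreserving_piFinSuccAbove (fun _ : Fin (k + 1) => μ) (Fin.last k)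
    set e := MeasurableEquiv.piFinSuccAbove (fun _ : Fin (k + 1) => V) (Fin.last k) with he
    rw [← hmp.symm.measure_preimage hmeas.nullMeasurableSet]
    have hmeas2 : MeasurableSet (e.symm ⁻¹' {x : Fin (k + 1) → V | ¬ AffineIndependent ℝ x}) :=
      e.symm.measurable hmeas
    rw [Measure.prod_apply_symm hmeas2]
    apply lintegral_eq_zero_of_ae_eq_zero
    filter_upwards [ih'] with x' hx'
    have hnt : affineSpan ℝ (Set.range x') ≠ ⊤ := by
      intro htop
      have hdir := congrArg AffineSubspace.direction htop
      rw [direction_affineSpan, AffineSubspace.direction_top] at hdir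
      rcases Nat.eq_zero_or_pos k with hk0 | hkpos
      · subst hk0
        have : Set.range x' = ∅ := by
          rw [Set.range_eq_empty_iff]; infer_instance
        rw [this, AffineSubspace.span_empty] at htop
        exact AffineSubspace.bot_ne_top ℝ V V htop
      · have : Nonempty (Fin k) := ⟨⟨0, hkpos⟩⟩
        have h3 := hx'.finrank_vectorSpan_add_one
        rw [hdir, finrank_top, Fintype.card_fin] at h3
        omega
    have hnull : μ (affineSpan ℝ (Set.range x') : Set V) = 0 :=
      hμ (Measure.addHaar_affineSubspace ν _ hnt)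
    apply measure_mono_null _ hnull
    intro y hy
    by_contra hcon
    apply hy
    show AffineIndependent ℝ (e.symm (y, x'))
    have hval_last : e.symm (y, x') (Fin.last k) = y := by
      simp [he, MeasurableEquiv.piFinSuccAbove_symm_apply, Fin.insertNthEquiv]
    have hval : ∀ j : Fin k, e.symm (y, x') ((Fin.last k).succAbove j) = x' j := by
      intro j
      simp [he, MeasurableEquiv.piFinSuccAbove_symm_apply, Fin.insertNthEquiv]
    apply AffineIndependent.affineIndependent_of_notMem_span (i := Fin.last k)
    · have h5 : AffineIndependent ℝ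
          ((fun z : {z // z ≠ Fin.last k} => e.symm (y, x') z) ∘ (finSuccAboveEquiv (Fin.last k))) := by
        convert hx' using 1
        ext j
        exact hval j
      exact (affineIndependent_equiv (finSuccAboveEquiv (Fin.last k))).1 h5
    · rw [hval_last]
      have hset : e.symm (y, x') '' {x | x ≠ Fin.last k} = Set.range x' := by
        ext z
        constructor
        · rintro ⟨j, hj, rfl⟩
          obtain ⟨i, rfl⟩ := Fin.exists_succAbove_eq hj
          exact ⟨i, (hval i).symm⟩
        · rintro ⟨i, rfl⟩
          exact ⟨(Fin.last k).succAbove i, Fin.succAbove_ne _ _, hval i⟩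
      rw [hset]
      exact hcon

theorem ae_genPos (ν μ : Measure V) [ν.IsAddHaarMeasure] [IsProbabilityMeasure μ]
    (hμ : μ ≪ ν) (n : ℕ) :
    ∀ᵐ X ∂(Measure.pi fun _ : Fin n => μ), GenPos X := by
  unfold GenPos
  rw [ae_all_iff]
  intro s
  rcases eq_or_ne s.card (finrank ℝ V + 1) with hs | hs
  · have hsc : s.card ≤ n := by simpa using s.card_le_univ
    have hcompl : (sᶜ).card = n - (finrank ℝ V + 1) := by
      rw [Finset.card_compl, Fintype.card_fin, hs]
    set e := finSumEquivOfFinset hs hcompl with he
    have hmp := mp_split e μ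
    have h1 := ae_affineIndependent ν μ hμ (finrank ℝ V + 1) le_rfl
    have h2 : ∀ᵐ p ∂((Measure.pi fun _ : Fin (finrank ℝ V + 1) => μ).prod
        (Measure.pi fun _ : Fin (n - (finrank ℝ V + 1)) => μ)), AffineIndependent ℝ p.1 :=
      Measure.quasiMeasurePreserving_fst.ae h1
    have h3 := hmp.quasiMeasurePreserving.ae h2
    filter_upwards [h3] with X hX _
    have h4 : (fun i => X (e (Sum.inl i))) =
        (fun i : s => X i) ∘ (s.orderIsoOfFin hs).toEquiv := by
      ext i
      rfl
    rw [h4] at hX
    exact (affineIndependent_equiv _).1 hX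
  · exact Filter.Eventually.of_forall fun X h => absurd h hs

end

end Pool.Agent.Lib.MP_26f5cf_pr
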