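import Mathlib
import Pool.Agent.Lib.MP_26f5cf_pr.GP
import Pool.Agent.Lib.MP_26f5cf_pr.Caps

/-!
The hyperplane through `dim` points, as a continuous function of the points.
-/

set_option autoImplicit false
set_option linter.unusedSectionVars false

namespace Pool.Agent.Lib.MP_26f5cf_pr

open Set MeasureTheory Module

section

variable {V : Type*} [NormedAddCommGroup V] [NormedSpace ℝ V] [FiniteDimensional ℝ V]
variable {K : ℕ}

/-- The frame of difference vectors with last slot empty. -/
def frame (x : Fin (K + 1) → V) : Fin (K + 1) → V :=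
  Fin.snoc (α := fun _ => V) (fun k : Fin K => x k.succ - x 0) 0

/-- The functional whose kernel is the direction of the hyperplane through the points `x`. -/
noncomputable def hypFun (b : Basis (Fin (K + 1)) ℝ V) (x : Fin (K + 1) → V) : V →ₗ[ℝ] ℝ :=
  (b.det.toMultilinearMap).toLinearMap (frame x) (Fin.last K)

theorem hypFun_apply (b : Basis (Fin (K + 1)) ℝ V) (x : Fin (K + 1) → V) (v : V) :
    hypFun b x v = b.det (Fin.snoc (α := fun _ => V) (fun k : Fin K => x k.succ - x 0) v) := by
  unfold hypFun frame
  rw [MultilinearMap.toLinearMap_apply, Fin.update_snoc_last]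
  rfl

theorem continuous_hypFun (b : Basis (Fin (K + 1)) ℝ V) :
    Continuous (fun p : (Fin (K + 1) → V) × V => hypFun b p.1 p.2) := by
  simp_rw [hypFun_apply, Basis.det_apply]
  apply Continuous.matrix_det
  apply continuous_matrix
  intro i j
  have hcoord : Continuous (fun v : V => b.repr v i) :=
    LinearMap.continuous_of_finiteDimensional (b.coord i)
  simp only [Basis.toMatrix_apply]
  apply hcoord.comp
  refine Fin.lastCases ?_ (fun j => ?_) j
  · simp only [Fin.snoc_last]
    exact continuous_snd
  · simp only [Fin.snoc_castSucc]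
    fun_prop

theorem hypFun_sub_eq_zero (b : Basis (Fin (K + 1)) ℝ V) (x : Fin (K + 1) → V) (k : Fin (K + 1)) :
    hypFun b x (x k - x 0) = 0 := by
  refine Fin.cases ?_ (fun j => ?_) k
  · simp
  · rw [hypFun_apply]
    apply AlternatingMap.map_eq_zero_of_eq _ _ (i := j.castSucc) (j := Fin.last K)
    · simp
    · exact (Fin.castSucc_lt_last j).ne

theorem linearIndependent_diffs {x : Fin (K + 1) → V} (hx : AffineIndependent ℝ x) :
    LinearIndependent ℝ (fun k : Fin K => x k.succ - x 0) := by
  rw [affineIndependent_iff_linearIndependent_vsub ℝ _ (0 : Fin (K + 1))] at hx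
  have := hx.comp (fun k : Fin K => (⟨k.succ, Fin.succ_ne_zero k⟩ : {x : Fin (K + 1) // x ≠ 0}))
    (fun a b hab => by
      have := congrArg (fun z : {x : Fin (K + 1) // x ≠ 0} => (z : Fin (K + 1))) hab
      exact Fin.succ_injective _ this)
  exact this

theorem hypFun_ne_zero (b : Basis (Fin (K + 1)) ℝ V) {x : Fin (K + 1) → V}
    (hx : AffineIndependent ℝ x) : hypFun b x ≠ 0 := by
  have hli := linearIndependent_diffs hx
  have hV : finrank ℝ V = K + 1 := by
    have := finrank_eq_card_basis b
    simpa using this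
  have hex : ∃ v : V, v ∉ Submodule.span ℝ (Set.range fun k : Fin K => x k.succ - x 0) := by
    by_contra hcon
    push Not at hcon
    have htop : Submodule.span ℝ (Set.range fun k : Fin K => x k.succ - x 0) = ⊤ := by
      rw [eq_top_iff]; intro v _; exact hcon v
    have h1 := finrank_span_eq_card hli
    rw [htop, finrank_top, hV, Fintype.card_fin] at h1
    omega
  obtain ⟨v, hv⟩ := hex
  intro h0
  have h1 : LinearIndependent ℝ
      (Fin.snoc (α := fun _ => V) (fun k : Fin K => x k.succ - x 0) v) := by
    rw [linearIndependent_fin_snoc]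
    exact ⟨hli, hv⟩
  have h2 := h1.span_eq_top_of_card_eq_finrank' (by simp [hV])
  have h3 := ((b.is_basis_iff_det).1 ⟨h1, h2⟩).ne_zero
  apply h3
  rw [← hypFun_apply, h0]
  simp

theorem hypFun_eq_smul (b : Basis (Fin (K + 1)) ℝ V) {x : Fin (K + 1) → V}
    (hx : AffineIndependent ℝ x) {l : V →L[ℝ] ℝ} (hl : l ≠ 0) {M : ℝ} (hM : ∀ k, l (x k) = M) :
    ∃ c : ℝ, c ≠ 0 ∧ ∀ v, hypFun b x v = c * l v := by
  have hV : finrank ℝ V = K + 1 := by
    have := finrank_eq_card_basis b
    simpa using this
  set U := Submodule.span ℝ (Set.range fun k : Fin K => x k.succ - x 0) with hU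
  have hUdim : finrank ℝ U = K := by
    have := finrank_span_eq_card (linearIndependent_diffs hx)
    simpa using this
  have hex : ∃ v0, l v0 ≠ 0 := by
    by_contra hcon
    push Not at hcon
    exact hl (ContinuousLinearMap.ext hcon)
  obtain ⟨v0, hv0⟩ := hex
  have hker : U = LinearMap.ker (l : V →ₗ[ℝ] ℝ) := by
    apply Submodule.eq_of_le_of_finrank_le
    · rw [hU, Submodule.span_le]
      rintro _ ⟨k, rfl⟩
      simp [hM]
    · rw [hUdim]
      have h3 := LinearMap.finrank_range_add_finrank_ker (l : V →ₗ[ℝ] ℝ)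
      have h4 : 0 < finrank ℝ (LinearMap.range (l : V →ₗ[ℝ] ℝ)) := by
        apply Module.finrank_pos_iff.2
        exact ⟨⟨⟨l v0, ⟨v0, rfl⟩⟩, 0, fun h => hv0 (by
          have := congrArg (fun z : LinearMap.range (l : V →ₗ[ℝ] ℝ) => (z : ℝ)) h
          simpa using this)⟩⟩
      omega
  have hU0 : ∀ v ∈ U, hypFun b x v = 0 := by
    intro v hv
    have : U ≤ LinearMap.ker (hypFun b x) := by
      rw [hU, Submodule.span_le]
      rintro _ ⟨k, rfl⟩
      exact hypFun_sub_eq_zero b x k.succ
    exact this hv
  have key : ∀ v, hypFun b x v = (hypFun b x v0 / l v0) * l v := by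
    intro v
    have hmem : v - (l v / l v0) • v0 ∈ U := by
      rw [hker]
      simp [hv0]
    have := hU0 _ hmem
    rw [map_sub, map_smul, sub_eq_zero, smul_eq_mul] at this
    rw [this]
    ring
  refine ⟨hypFun b x v0 / l v0, ?_, key⟩
  intro h0
  apply hypFun_ne_zero b hx
  ext v
  rw [key v, h0, zero_mul]
  rfl

end

end Pool.Agent.Lib.MP_26f5cf_pr
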