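import Mathlib
import Pool.Agent.Lib.MP_26f5cf_pr.Hyper

/-!
The probability that all other points lie on one side of the hyperplane through given points.
-/

set_option autoImplicit false
set_option linter.unusedSectionVars false

namespace Pool.Agent.Lib.MP_26f5cf_pr

open Set MeasureTheory Metric Module
open scoped ENNReal

section

variable {V : Type*} [NormedAddCommGroup V] [NormedSpace ℝ V] [FiniteDimensional ℝ V]
  [MeasurableSpace V] [BorelSpace V]

/-- The event that all other points lie on one side. -/
def sideEvent {n K r : ℕ} (b : Basis (Fin (K + 1)) ℝ V)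
    (e : Fin (K + 1) ⊕ Fin r ≃ Fin n) (s : ℝ) : Set (Fin n → V) :=
  {X | ∀ j : Fin r, s * hypFun b (fun k => X (e (Sum.inl k)))
    (X (e (Sum.inr j)) - X (e (Sum.inl 0))) < 0}

theorem isOpen_side {K r : ℕ} (b : Basis (Fin (K + 1)) ℝ V) (s : ℝ) :
    IsOpen {p : (Fin (K + 1) → V) × (Fin r → V) |
      ∀ j, s * hypFun b p.1 (p.2 j - p.1 0) < 0} := by
  have : {p : (Fin (K + 1) → V) × (Fin r → V) |
      ∀ j, s * hypFun b p.1 (p.2 j - p.1 0) < 0} =
      ⋂ j, {p : (Fin (K + 1) → V) × (Fin r → V) |
        s * hypFun b p.1 (p.2 j - p.1 0) < 0} := by ext; simp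
  rw [this]
  apply isOpen_iInter_of_finite
  intro j
  apply isOpen_lt _ continuous_const
  apply continuous_const.mul
  have h := continuous_hypFun b
  have h2 : Continuous fun p : (Fin (K + 1) → V) × (Fin r → V) =>
      (p.1, p.2 j - p.1 0) := by
    apply Continuous.prodMk continuous_fst
    exact ((continuous_apply j).comp continuous_snd).sub ((continuous_apply 0).comp continuous_fst)
  exact h.comp h2

theorem measurableSet_sideEvent {n K r : ℕ} (b : Basis (Fin (K + 1)) ℝ V)
    (e : Fin (K + 1) ⊕ Fin r ≃ Fin n) (s : ℝ) : MeasurableSet (sideEvent b e s) := by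
  have h := (isOpen_side (r := r) b s).measurableSet
  have hf : Measurable fun X : Fin n → V =>
      ((fun i => X (e (Sum.inl i))), fun j => X (e (Sum.inr j))) := by
    apply Measurable.prodMk
    · exact measurable_pi_lambda _ fun i => measurable_pi_apply _
    · exact measurable_pi_lambda _ fun i => measurable_pi_apply _
  exact hf h

theorem measurableSet_halfspace {K : ℕ} (b : Basis (Fin (K + 1)) ℝ V) (s : ℝ)
    (x : Fin (K + 1) → V) : MeasurableSet {y : V | 0 ≤ s * hypFun b x (y - x 0)} := by
  have hcont : Continuous fun y : V => s * hypFun b x (y - x 0) :=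
    continuous_const.mul ((LinearMap.continuous_of_finiteDimensional (hypFun b x)).comp
      (continuous_id.sub continuous_const))
  exact (isClosed_le continuous_const hcont).measurableSet

theorem side_measure {n K r : ℕ} (b : Basis (Fin (K + 1)) ℝ V)
    (e : Fin (K + 1) ⊕ Fin r ≃ Fin n) (s : ℝ) (μ : Measure V) [IsProbabilityMeasure μ] :
    (Measure.pi fun _ : Fin n => μ) (sideEvent b e s) =
      ∫⁻ x, ENNReal.ofReal ((1 - μ.real {y | 0 ≤ s * hypFun b x (y - x 0)}) ^ r)
        ∂(Measure.pi fun _ : Fin (K + 1) => μ) := by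
  have hmp := mp_split e μ
  have hG := (isOpen_side (r := r) b s).measurableSet
  set G := {p : (Fin (K + 1) → V) × (Fin r → V) |
      ∀ j, s * hypFun b p.1 (p.2 j - p.1 0) < 0} with hGdef
  have hpre : sideEvent b e s =
      (fun X : Fin n → V => ((fun i => X (e (Sum.inl i))), fun j => X (e (Sum.inr j)))) ⁻¹' G :=
    rfl
  rw [hpre, hmp.measure_preimage hG.nullMeasurableSet, Measure.prod_apply hG]
  apply lintegral_congr
  intro x
  have hpi : Prod.mk x ⁻¹' G =
      Set.pi univ (fun _ : Fin r => {y : V | 0 ≤ s * hypFun b x (y - x 0)}ᶜ) := by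
    ext y
    simp [hGdef]
  have hnn : 0 ≤ 1 - μ.real {y : V | 0 ≤ s * hypFun b x (y - x 0)} := by
    have := measureReal_le_one (μ := μ) (s := {y : V | 0 ≤ s * hypFun b x (y - x 0)})
    linarith
  rw [hpi, Measure.pi_pi, Finset.prod_const, Finset.card_univ, Fintype.card_fin,
    ← ofReal_measureReal, probReal_compl_eq_one_sub (measurableSet_halfspace b s x),
    ← ENNReal.ofReal_pow hnn]

end

end Pool.Agent.Lib.MP_26f5cf_pr
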