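import Mathlib
import Pool.Agent.Lib.MP_26f5cf_pr.Side

/-!
The expected number of facets is bounded by one-sidedness probabilities.
-/

set_option autoImplicit false
set_option linter.unusedSectionVars false

namespace Pool.Agent.Lib.MP_26f5cf_pr

open Set MeasureTheory Metric Module
open scoped ENNReal

section

variable {V : Type*} [NormedAddCommGroup V] [NormedSpace ℝ V] [FiniteDimensional ℝ V]
  [MeasurableSpace V] [BorelSpace V]

theorem facet_sideEvent {n K r : ℕ} {X : Fin n → V} (hX : GenPos X) (hn : K + 2 ≤ n)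
    (b : Basis (Fin (K + 1)) ℝ V) {J : Finset (Fin n)} (hJ : J.card = K + 1)
    (hr : (Jᶜ).card = r) (hface : FaceIdx X J) :
    X ∈ sideEvent b (finSumEquivOfFinset hJ hr) 1 ∪
      sideEvent b (finSumEquivOfFinset hJ hr) (-1) := by
  have hV : finrank ℝ V = K + 1 := by
    have := finrank_eq_card_basis b
    simpa using this
  obtain ⟨⟨j0, hj0⟩, l, c, h1, h2⟩ := hface
  have hl0 : l ≠ 0 := by
    intro h0
    have hlt : J.card < (Finset.univ : Finset (Fin n)).card := by
      rw [hJ, Finset.card_univ, Fintype.card_fin]; omega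
    obtain ⟨i, _, hi⟩ := Finset.exists_mem_notMem_of_card_lt_card hlt
    have h3 := h1 j0 hj0
    have h4 := h2 i hi
    rw [h0] at h3 h4
    simp only [zero_apply] at h3 h4
    linarith
  set e := finSumEquivOfFinset hJ hr with he
  set x : Fin (K + 1) → V := fun k => X (e (Sum.inl k)) with hx
  have hmemJ : ∀ k, e (Sum.inl k) ∈ J := by
    intro k
    rw [he, finSumEquivOfFinset_inl]
    exact Finset.orderEmbOfFin_mem J hJ k
  have hmemJc : ∀ k, e (Sum.inr k) ∉ J := by
    intro k
    rw [he, finSumEquivOfFinset_inr]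
    have := Finset.orderEmbOfFin_mem Jᶜ hr k
    rwa [Finset.mem_compl] at this
  have hxai : AffineIndependent ℝ x := by
    have h4 : x = (fun i : J => X i) ∘ (J.orderIsoOfFin hJ).toEquiv := by
      ext i
      rfl
    rw [h4]
    apply (affineIndependent_equiv _).2
    exact hX.affineIndependent (by rw [hV, Fintype.card_fin]; omega) (by omega)
  obtain ⟨c', hc', hc'l⟩ := hypFun_eq_smul b hxai hl0 (M := c) (fun k => h1 _ (hmemJ k))
  have hval : ∀ j, hypFun b x (X (e (Sum.inr j)) - x 0) = c' * (l (X (e (Sum.inr j))) - c) := by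
    intro j
    rw [hc'l, map_sub, hx]
    dsimp only
    rw [h1 _ (hmemJ 0)]
  rcases lt_or_gt_of_ne hc' with hneg | hpos
  · right
    intro j
    have h3 := hval j
    have h4 := h2 _ (hmemJc j)
    show -1 * hypFun b x (X (e (Sum.inr j)) - x 0) < 0
    rw [h3]
    nlinarith
  · left
    intro j
    have h3 := hval j
    have h4 := h2 _ (hmemJc j)
    show 1 * hypFun b x (X (e (Sum.inr j)) - x 0) < 0
    rw [h3]
    nlinarith

open Classical in
theorem expected_facets_le {n K : ℕ} (hn : K + 2 ≤ n) (b : Basis (Fin (K + 1)) ℝ V)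
    (μ : Measure V) [IsProbabilityMeasure μ]
    (hgp : ∀ᵐ X ∂(Measure.pi fun _ : Fin n => μ), GenPos X) (B : ℝ≥0∞)
    (hB : ∀ (e : Fin (K + 1) ⊕ Fin (n - (K + 1)) ≃ Fin n) (s : ℝ), s ≠ 0 →
      (Measure.pi fun _ : Fin n => μ) (sideEvent b e s) ≤ B) :
    ∫⁻ X : Fin n → V, faceCount (convexHull ℝ (Set.range X)) K ∂(Measure.pi fun _ => μ) ≤
      (n.choose (K + 1) : ℝ≥0∞) * (2 * B) := by
  have hV : finrank ℝ V = K + 1 := by
    have := finrank_eq_card_basis b
    simpa using this
  have hcompl : ∀ J : Finset (Fin n), J.card = K + 1 → (Jᶜ).card = n - (K + 1) := by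
    intro J hJ
    rw [Finset.card_compl, Fintype.card_fin, hJ]
  let S : Finset (Fin n) → Set (Fin n → V) := fun J =>
    if h : J.card = K + 1 then sideEvent b (finSumEquivOfFinset h (hcompl J h)) 1 ∪
      sideEvent b (finSumEquivOfFinset h (hcompl J h)) (-1) else ∅
  have hSm : ∀ J, MeasurableSet (S J) := by
    intro J
    by_cases h : J.card = K + 1
    · simp only [S, h, dif_pos]
      exact (measurableSet_sideEvent b _ _).union (measurableSet_sideEvent b _ _)
    · simp only [S, h, dif_neg, not_false_eq_true]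
      exact MeasurableSet.empty
  have hSle : ∀ J, (Measure.pi fun _ : Fin n => μ) (S J) ≤ 2 * B := by
    intro J
    by_cases h : J.card = K + 1
    · simp only [S, h, dif_pos]
      refine (measure_union_le _ _).trans ?_
      rw [two_mul]
      exact add_le_add (hB _ 1 one_ne_zero) (hB _ (-1) (by norm_num))
    · simp only [S, h, dif_neg, not_false_eq_true, measure_empty, zero_le]
  have hpt : ∀ᵐ X ∂(Measure.pi fun _ : Fin n => μ),
      faceCount (convexHull ℝ (Set.range X)) K ≤
      ∑ J ∈ (Finset.univ : Finset (Fin n)).powersetCard (K + 1), (S J).indicator 1 X := by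
    filter_upwards [hgp] with X hX
    rw [hX.faceCount_eq (by rw [hV, Fintype.card_fin]; omega) (by omega)]
    have hsub : idxSet X (K + 1) ⊆ (Finset.univ : Finset (Fin n)).powersetCard (K + 1) := by
      intro J hJ
      simp only [idxSet, Finset.mem_filter, Finset.mem_univ, true_and] at hJ
      rw [Finset.mem_powersetCard]
      exact ⟨Finset.subset_univ J, hJ.2⟩
    calc ((idxSet X (K + 1)).card : ℝ≥0∞) = ∑ J ∈ idxSet X (K + 1), 1 := by simp
      _ ≤ ∑ J ∈ idxSet X (K + 1), (S J).indicator 1 X := by
          apply Finset.sum_le_sum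
          intro J hJ
          simp only [idxSet, Finset.mem_filter, Finset.mem_univ, true_and] at hJ
          have hXS : X ∈ S J := by
            simp only [S, hJ.2, dif_pos]
            exact facet_sideEvent hX hn b hJ.2 (hcompl J hJ.2) hJ.1
          rw [Set.indicator_of_mem hXS]
          exact le_rfl
      _ ≤ _ := Finset.sum_le_sum_of_subset hsub
  refine (lintegral_mono_ae hpt).trans ?_
  rw [lintegral_finsetSum _ (fun J _ => measurable_one.indicator (hSm J))]
  calc ∑ J ∈ (Finset.univ : Finset (Fin n)).powersetCard (K + 1),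
        ∫⁻ X, (S J).indicator 1 X ∂(Measure.pi fun _ : Fin n => μ)
      ≤ ∑ J ∈ (Finset.univ : Finset (Fin n)).powersetCard (K + 1), 2 * B := by
        apply Finset.sum_le_sum
        intro J _
        rw [lintegral_indicator_one (hSm J)]
        exact hSle J
    _ = _ := by
        rw [Finset.sum_const, Finset.card_powersetCard, Finset.card_univ, Fintype.card_fin,
          nsmul_eq_mul]

end

end Pool.Agent.Lib.MP_26f5cf_pr
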