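import Mathlib
import Pool.Agent.Lib.MP_26f5cf_pr.Hyper

/-!
Tuples of points in a common cap.
-/

set_option autoImplicit false
set_option linter.unusedSectionVars false

namespace Pool.Agent.Lib.MP_26f5cf_pr

open Set MeasureTheory Metric Module
open scoped ENNReal

variable {m : ℕ} {d : Fin m → ℕ} {β : Fin m → ℝ}

/-- Dyadic scales. -/
noncomputable def dy (lam : Fin m → ℕ) (i : Fin m) : ℝ := 2 * (1 / 2) ^ lam i

theorem dy_pos (lam : Fin m → ℕ) (i : Fin m) : 0 < dy lam i := by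
  unfold dy; positivity

theorem dy_le_two (lam : Fin m → ℕ) (i : Fin m) : dy lam i ≤ 2 := by
  unfold dy
  have : ((1 : ℝ) / 2) ^ lam i ≤ 1 := pow_le_one₀ (by norm_num) (by norm_num)
  linarith

theorem Phi_mono (hβ : ∀ i, 0 ≤ β i) {s t : Fin m → ℝ} (hs : ∀ i, 0 ≤ s i)
    (h : ∀ i, s i ≤ t i) : Phi d β s ≤ Phi d β t :=
  Finset.prod_le_prod (fun i _ => Real.rpow_nonneg (hs i) _) fun i _ =>
    Real.rpow_le_rpow (hs i) (h i) (gam_pos hβ i).le

theorem Phi_smul {c : ℝ} (hc : 0 < c) (t : Fin m → ℝ) (ht : ∀ i, 0 ≤ t i) :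
    Phi d β (fun i => c * t i) = c ^ (∑ i, gam d β i) * Phi d β t := by
  unfold Phi
  rw [Real.rpow_sum_of_pos hc, ← Finset.prod_mul_distrib]
  exact Finset.prod_congr rfl fun i _ => Real.mul_rpow hc.le (ht i)

theorem Psi_smul {c : ℝ} (hc : 0 < c) (t : Fin m → ℝ) (ht : ∀ i, 0 ≤ t i) :
    Psi β (fun i => c * t i) = c ^ (∑ i, (β i + 1)) * Psi β t := by
  unfold Psi
  rw [Real.rpow_sum_of_pos hc, ← Finset.prod_mul_distrib]
  exact Finset.prod_congr rfl fun i _ => Real.mul_rpow hc.le (ht i)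

theorem sum_gam_pos (hβ : ∀ i, 0 ≤ β i) : 0 ≤ ∑ i, gam d β i :=
  Finset.sum_nonneg fun i _ => (gam_pos hβ i).le

/-- The cap around the direction of `x`. -/
def capSet (x : Space d) (t : Fin m → ℝ) : Set (Space d) :=
  {y | ∀ i, 1 - inner ℝ (‖x i‖⁻¹ • x i) (y i) ≤ t i}

/-- The set of tuples of points in a common cap. -/
def boxSet (d : Fin m → ℕ) (K : ℕ) (t : Fin m → ℝ) : Set (Fin (K + 1) → Space d) :=
  {x | (∀ i, 1 - ‖x 0 i‖ ≤ t i) ∧ ∀ k : Fin K, x k.succ ∈ capSet (x 0) (fun i => 11 * t i)}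

theorem measurableSet_boxSet (K : ℕ) (t : Fin m → ℝ) : MeasurableSet (boxSet d K t) := by
  unfold boxSet capSet
  simp only [Set.mem_ofPred_eq]
  have h1 : MeasurableSet {x : Fin (K + 1) → Space d | ∀ i, 1 - ‖x 0 i‖ ≤ t i} := by
    have : {x : Fin (K + 1) → Space d | ∀ i, 1 - ‖x 0 i‖ ≤ t i} =
        ⋂ i, {x : Fin (K + 1) → Space d | 1 - ‖x 0 i‖ ≤ t i} := by ext; simp
    rw [this]
    exact MeasurableSet.iInter fun i => measurableSet_le (by fun_prop) measurable_const
  have h2 : MeasurableSet {x : Fin (K + 1) → Space d | ∀ (k : Fin K) (i : Fin m),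
      1 - inner ℝ (‖x 0 i‖⁻¹ • x 0 i) (x k.succ i) ≤ 11 * t i} := by
    have : {x : Fin (K + 1) → Space d | ∀ (k : Fin K) (i : Fin m),
        1 - inner ℝ (‖x 0 i‖⁻¹ • x 0 i) (x k.succ i) ≤ 11 * t i} =
        ⋂ k : Fin K, ⋂ i, {x : Fin (K + 1) → Space d |
          1 - inner ℝ (‖x 0 i‖⁻¹ • x 0 i) (x k.succ i) ≤ 11 * t i} := by ext; simp
    rw [this]
    exact MeasurableSet.iInter fun k => MeasurableSet.iInter fun i =>
      measurableSet_le (by fun_prop) measurable_const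
  exact h1.inter h2

set_option backward.isDefEq.respectTransparency false in
theorem box_measure (hβ : ∀ i, 0 ≤ β i) (hd : ∀ i, 1 ≤ d i) (K : ℕ) : ∃ C : ℝ, 0 < C ∧
    ∀ t : Fin m → ℝ, (∀ i, 0 < t i) →
    (Measure.pi fun _ : Fin (K + 1) => blockBeta d β) (boxSet d K t) ≤
      ENNReal.ofReal (C * (Psi β t * Phi d β t ^ K)) := by
  have hprob := isProbabilityMeasure_blockBeta (d := d) hβ
  obtain ⟨C₂, hC₂, hdepth⟩ := prod_depth_upper (d := d) hβ hd
  obtain ⟨C₃, hC₃, hcap⟩ := prod_cap_upper (d := d) hβ hd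
  set Γ := ∑ i, gam d β i with hΓ
  refine ⟨C₂ * (C₃ * 11 ^ Γ) ^ K, by positivity, ?_⟩
  intro t ht
  have hmp := measurePreserving_piFinSuccAbove (fun _ : Fin (K + 1) => blockBeta d β) 0
  set e := MeasurableEquiv.piFinSuccAbove (fun _ : Fin (K + 1) => Space d) 0 with he
  have hbm := measurableSet_boxSet (d := d) K t
  rw [← hmp.symm.measure_preimage hbm.nullMeasurableSet]
  have hmeas2 : MeasurableSet (e.symm ⁻¹' (boxSet d K t)) := e.symm.measurable hbm
  rw [Measure.prod_apply hmeas2]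
  have hΦ : 0 < Phi d β t := Phi_pos ht
  have hΨ : 0 < Psi β t := Psi_pos ht
  -- bound the inner measure
  have hA : MeasurableSet {x : Space d | ∀ i, 1 - ‖x i‖ ≤ t i} := by
    have : {x : Space d | ∀ i, 1 - ‖x i‖ ≤ t i} = ⋂ i, {x : Space d | 1 - ‖x i‖ ≤ t i} := by
      ext; simp
    rw [this]
    exact MeasurableSet.iInter fun i => measurableSet_le (by fun_prop) measurable_const
  have hinner : ∀ᵐ x ∂(blockBeta d β),
      (Measure.pi fun _ : Fin K => blockBeta d β) (Prod.mk x ⁻¹' (e.symm ⁻¹' boxSet d K t)) ≤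
      ({x : Space d | ∀ i, 1 - ‖x i‖ ≤ t i}).indicator
        (fun _ => ENNReal.ofReal ((C₃ * 11 ^ Γ * Phi d β t) ^ K)) x := by
    filter_upwards [ae_good (d := d) (β := β) hd] with x hx
    have hval0 : ∀ y : Fin K → Space d, e.symm (x, y) 0 = x := by
      intro y
      simp [he, MeasurableEquiv.piFinSuccAbove_symm_apply, Fin.insertNthEquiv]
    have hvals : ∀ (y : Fin K → Space d) (k : Fin K), e.symm (x, y) k.succ = y k := by
      intro y k
      simp [he, MeasurableEquiv.piFinSuccAbove_symm_apply, Fin.insertNthEquiv]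
    by_cases hxA : x ∈ {x : Space d | ∀ i, 1 - ‖x i‖ ≤ t i}
    · rw [Set.indicator_of_mem hxA]
      have hsub : Prod.mk x ⁻¹' (e.symm ⁻¹' boxSet d K t) ⊆
          Set.pi univ (fun _ : Fin K => capSet x (fun i => 11 * t i)) := by
        intro y hy k _
        have h1 : (e.symm (x, y)) k.succ ∈ capSet ((e.symm (x, y)) 0) (fun i => 11 * t i) :=
          hy.2 k
        rwa [hval0, hvals] at h1
      refine (measure_mono hsub).trans ?_
      rw [Measure.pi_pi, Finset.prod_const, Finset.card_univ, Fintype.card_fin,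
        ENNReal.ofReal_pow (by positivity)]
      apply pow_le_pow_left'
      have h2 := hcap (fun i => ‖x i‖⁻¹ • x i) (fun i => by
        rw [norm_smul, norm_inv, norm_norm, inv_mul_cancel₀ (norm_ne_zero_iff.2 (hx i).2)])
        (fun i => 11 * t i) (fun i => by have := ht i; positivity)
      rw [Phi_smul (by norm_num) t (fun i => (ht i).le)] at h2
      rw [← ofReal_measureReal]
      apply ENNReal.ofReal_le_ofReal
      calc (blockBeta d β).real (capSet x (fun i => 11 * t i)) ≤ C₃ * (11 ^ Γ * Phi d β t) := h2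
        _ = _ := by ring
    · rw [Set.indicator_of_notMem hxA]
      have : Prod.mk x ⁻¹' (e.symm ⁻¹' boxSet d K t) = ∅ := by
        rw [Set.eq_empty_iff_forall_notMem]
        intro y hy
        apply hxA
        have h1 : ∀ i, 1 - ‖(e.symm (x, y)) 0 i‖ ≤ t i := hy.1
        rwa [hval0] at h1
      rw [this]
      simp
  refine (lintegral_mono_ae hinner).trans ?_
  rw [lintegral_indicator_const hA, ← ofReal_measureReal, ← ENNReal.ofReal_mul (by positivity)]
  apply ENNReal.ofReal_le_ofReal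
  calc (C₃ * 11 ^ Γ * Phi d β t) ^ K * (blockBeta d β).real {x | ∀ i, 1 - ‖x i‖ ≤ t i}
      ≤ (C₃ * 11 ^ Γ * Phi d β t) ^ K * (C₂ * Psi β t) :=
        mul_le_mul_of_nonneg_left (hdepth t ht) (by positivity)
    _ = _ := by rw [mul_pow]; ring

end Pool.Agent.Lib.MP_26f5cf_pr
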