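import Mathlib
import Pool.Agent.Lib.MP_26f5cf_pr.GP

/-!
A lower bound for the expected number of vertices.
-/

set_option autoImplicit false
set_option linter.unusedSectionVars false

namespace Pool.Agent.Lib.MP_26f5cf_pr

open Set MeasureTheory Metric Module
open scoped ENNReal

section

variable {V : Type*} [NormedAddCommGroup V] [NormedSpace ℝ V] [FiniteDimensional ℝ V]
  [MeasurableSpace V] [BorelSpace V]

/-- The event that the `i`-th point lies in `A` and is the strict maximiser of `F (X i)`. -/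
def topEvent {N : ℕ} (A : Set V) (F : V → V → ℝ) (i : Fin (N + 1)) : Set (Fin (N + 1) → V) :=
  {X | X i ∈ A ∧ ∀ k : Fin N, F (X i) (X (i.succAbove k)) < F (X i) (X i)}

theorem measurableSet_topAux {N : ℕ} {A : Set V} (hA : MeasurableSet A) {F : V → V → ℝ}
    (hF : Measurable (fun p : V × V => F p.1 p.2)) :
    MeasurableSet {p : V × (Fin N → V) | p.1 ∈ A ∧ ∀ k, F p.1 (p.2 k) < F p.1 p.1} := by
  have h1 : MeasurableSet {p : V × (Fin N → V) | p.1 ∈ A} := hA.preimage measurable_fst
  have h2 : MeasurableSet {p : V × (Fin N → V) | ∀ k, F p.1 (p.2 k) < F p.1 p.1} := by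
    have : {p : V × (Fin N → V) | ∀ k, F p.1 (p.2 k) < F p.1 p.1} =
      ⋂ k, {p : V × (Fin N → V) | F p.1 (p.2 k) < F p.1 p.1} := by ext; simp
    rw [this]
    refine MeasurableSet.iInter fun k => ?_
    have h3 : Measurable fun p : V × (Fin N → V) => (p.1, p.2 k) :=
      measurable_fst.prodMk ((measurable_pi_apply k).comp measurable_snd)
    have h4 : Measurable fun p : V × (Fin N → V) => (p.1, p.1) :=
      measurable_fst.prodMk measurable_fst
    exact measurableSet_lt (hF.comp h3) (hF.comp h4)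
  exact h1.inter h2

theorem measurableSet_topEvent {N : ℕ} {A : Set V} (hA : MeasurableSet A) {F : V → V → ℝ}
    (hF : Measurable (fun p : V × V => F p.1 p.2)) (i : Fin (N + 1)) :
    MeasurableSet (topEvent A F i) := by
  have hf : Measurable fun X : Fin (N + 1) → V => (X i, fun k : Fin N => X (i.succAbove k)) := by
    apply Measurable.prodMk
    · exact measurable_pi_apply _
    · exact measurable_pi_lambda _ fun i => measurable_pi_apply _
  exact hf (measurableSet_topAux hA hF)

theorem top_measure {N : ℕ} {A : Set V} (hA : MeasurableSet A) {F : V → V → ℝ}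
    (hF : Measurable (fun p : V × V => F p.1 p.2)) (i : Fin (N + 1))
    (μ : Measure V) [IsProbabilityMeasure μ] :
    (Measure.pi fun _ : Fin (N + 1) => μ) (topEvent A F i) =
      ∫⁻ x in A, ENNReal.ofReal ((1 - μ.real {y | F x x ≤ F x y}) ^ N) ∂μ := by
  have hmp := measurePreserving_piFinSuccAbove (fun _ : Fin (N + 1) => μ) i
  have hG := measurableSet_topAux (N := N) hA hF
  set G := {p : V × (Fin N → V) | p.1 ∈ A ∧ ∀ k, F p.1 (p.2 k) < F p.1 p.1} with hGdef
  have hpre : topEvent A F i =
      (MeasurableEquiv.piFinSuccAbove (fun _ : Fin (N + 1) => V) i) ⁻¹' G := rfl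
  rw [hpre, hmp.measure_preimage hG.nullMeasurableSet, Measure.prod_apply hG,
    ← lintegral_indicator hA]
  apply lintegral_congr
  intro x
  by_cases hx : x ∈ A
  · rw [Set.indicator_of_mem hx]
    have hpi : Prod.mk x ⁻¹' G = Set.pi univ (fun _ : Fin N => {y : V | F x x ≤ F x y}ᶜ) := by
      ext y
      simp [hGdef, hx]
    have hnn : 0 ≤ 1 - μ.real {y : V | F x x ≤ F x y} := by
      have := measureReal_le_one (μ := μ) (s := {y : V | F x x ≤ F x y})
      linarith
    have hms : MeasurableSet {y : V | F x x ≤ F x y} := by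
      have h3 : Measurable fun y : V => (x, y) := measurable_const.prodMk measurable_id
      exact measurableSet_le measurable_const (hF.comp h3)
    rw [hpi, Measure.pi_pi, Finset.prod_const, Finset.card_univ, Fintype.card_fin,
      ← ofReal_measureReal, probReal_compl_eq_one_sub hms, ← ENNReal.ofReal_pow hnn]
  · rw [Set.indicator_of_notMem hx]
    have : Prod.mk x ⁻¹' G = ∅ := by
      rw [Set.eq_empty_iff_forall_notMem]
      intro y hy
      exact hx hy.1
    rw [this]
    exact measure_empty

theorem one_sub_ge_exp {v : ℝ} (h0 : 0 ≤ v) (h1 : v ≤ 1 / 2) : Real.exp (-(2 * v)) ≤ 1 - v := by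
  have h2 : 1 + 2 * v ≤ Real.exp (2 * v) := by
    have := Real.add_one_le_exp (2 * v)
    linarith
  rw [Real.exp_neg]
  rw [inv_le_iff_one_le_mul₀ (Real.exp_pos _)]
  nlinarith

open Classical in
theorem expected_vertices_ge {N : ℕ} (hdim : 0 < finrank ℝ V) (hn : finrank ℝ V + 1 ≤ N + 1)
    (μ : Measure V) [IsProbabilityMeasure μ]
    (hgp : ∀ᵐ X ∂(Measure.pi fun _ : Fin (N + 1) => μ), GenPos X)
    {A : Set V} (hA : MeasurableSet A) {F : V → V → ℝ}
    (hF : Measurable (fun p : V × V => F p.1 p.2))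
    (hFl : ∀ x ∈ A, ∃ l : V →L[ℝ] ℝ, ∀ y, F x y = l y)
    {q : V → ℝ} (hq : ∀ x ∈ A, μ.real {y | F x x ≤ F x y} ≤ q x) (hq2 : ∀ x ∈ A, q x ≤ 1 / 2) :
    ((N + 1 : ℕ) : ℝ≥0∞) *
      ∫⁻ x in A, ENNReal.ofReal (Real.exp (-(2 * ((N + 1 : ℕ) : ℝ) * q x))) ∂μ ≤
    ∫⁻ X : Fin (N + 1) → V, faceCount (convexHull ℝ (Set.range X)) 0
      ∂(Measure.pi fun _ => μ) := by
  have hpt : ∀ᵐ X ∂(Measure.pi fun _ : Fin (N + 1) => μ),
      ∑ i : Fin (N + 1), (topEvent A F i).indicator 1 X ≤
      faceCount (convexHull ℝ (Set.range X)) 0 := by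
    filter_upwards [hgp] with X hX
    rw [hX.faceCount_eq (by rw [Fintype.card_fin]; exact hn) hdim]
    have hface : ∀ i : Fin (N + 1), X ∈ topEvent A F i → FaceIdx X {i} := by
      intro i hi
      obtain ⟨l, hl⟩ := hFl (X i) hi.1
      refine ⟨Finset.singleton_nonempty i, l, l (X i), ?_, ?_⟩
      · intro j hj
        rw [Finset.mem_singleton.1 hj]
      · intro j hj
        have hji : j ≠ i := by simpa using hj
        obtain ⟨k, rfl⟩ := Fin.exists_succAbove_eq hji
        have := hi.2 k
        rwa [hl, hl] at this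
    calc ∑ i : Fin (N + 1), (topEvent A F i).indicator 1 X
        = ((Finset.univ.filter (fun i : Fin (N + 1) => X ∈ topEvent A F i)).card : ℝ≥0∞) := by
          rw [Finset.card_filter]
          push_cast
          apply Finset.sum_congr rfl
          intro i _
          by_cases hi : X ∈ topEvent A F i
          · simp [hi]
          · simp [hi]
      _ ≤ ((idxSet X (0 + 1)).card : ℝ≥0∞) := by
          norm_cast
          apply Finset.card_le_card_of_injOn (fun i => ({i} : Finset (Fin (N + 1))))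
          · intro i hi
            have hi' : X ∈ topEvent A F i := by simpa using hi
            simp only [idxSet, Finset.coe_filter, Finset.mem_univ, true_and, Set.mem_ofPred_eq]
            exact ⟨hface i hi', Finset.card_singleton i⟩
          · intro i _ j _ hij
            simpa using hij
  refine le_trans ?_ (lintegral_mono_ae hpt)
  rw [lintegral_finsetSum _ (fun i _ => measurable_one.indicator (measurableSet_topEvent hA hF i))]
  have hone : ∀ i : Fin (N + 1),
      ∫⁻ x in A, ENNReal.ofReal (Real.exp (-(2 * ((N + 1 : ℕ) : ℝ) * q x))) ∂μ ≤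
      ∫⁻ X, (topEvent A F i).indicator 1 X ∂(Measure.pi fun _ : Fin (N + 1) => μ) := by
    intro i
    rw [lintegral_indicator_one (measurableSet_topEvent hA hF i), top_measure hA hF i μ]
    apply setLIntegral_mono' hA
    intro x hx
    apply ENNReal.ofReal_le_ofReal
    have h1 := hq x hx
    have h2 := hq2 x hx
    have h0 : 0 ≤ μ.real {y | F x x ≤ F x y} := measureReal_nonneg
    have h3 := one_sub_ge_exp h0 (h1.trans h2)
    calc Real.exp (-(2 * ((N + 1 : ℕ) : ℝ) * q x))
        ≤ Real.exp (-(2 * μ.real {y | F x x ≤ F x y})) ^ N := by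
          rw [← Real.exp_nat_mul]
          apply Real.exp_le_exp.2
          push_cast
          nlinarith [Nat.cast_nonneg (α := ℝ) N, h0.trans h1]
      _ ≤ _ := pow_le_pow_left₀ (Real.exp_nonneg _) h3 N
  calc ((N + 1 : ℕ) : ℝ≥0∞) *
        ∫⁻ x in A, ENNReal.ofReal (Real.exp (-(2 * ((N + 1 : ℕ) : ℝ) * q x))) ∂μ
      = ∑ _i : Fin (N + 1),
          ∫⁻ x in A, ENNReal.ofReal (Real.exp (-(2 * ((N + 1 : ℕ) : ℝ) * q x))) ∂μ := by
        rw [Finset.sum_const, Finset.card_univ, Fintype.card_fin, nsmul_eq_mul]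
    _ ≤ _ := Finset.sum_le_sum fun i _ => hone i

end

end Pool.Agent.Lib.MP_26f5cf_pr
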