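import Mathlib
import Pool.Agent.Lib.MP_26f5cf_pr.Upper1
import Pool.Agent.Lib.MP_26f5cf_pr.Vertices

/-!
Lower bound for the expected number of vertices.
-/

set_option autoImplicit false
set_option linter.unusedSectionVars false

namespace Pool.Agent.Lib.MP_26f5cf_pr

open Set MeasureTheory Metric Module
open scoped ENNReal

variable {m : ℕ} {d : Fin m → ℕ} {β : Fin m → ℝ}

/-- The functional `l_x` evaluated at `y`. -/
noncomputable def suppFun (x y : Space d) : ℝ :=
  ∑ i, inner ℝ (x i) (y i) / (‖x i‖ * (1 - ‖x i‖))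

/-- The depths of the components. -/
noncomputable def depth (x : Space d) (i : Fin m) : ℝ := 1 - ‖x i‖

theorem measurable_suppFun : Measurable (fun p : Space d × Space d => suppFun p.1 p.2) := by
  unfold suppFun
  apply Finset.measurable_sum
  intro i _
  have h1 : Measurable fun p : Space d × Space d => p.1 i :=
    (measurable_pi_apply i).comp measurable_fst
  have h2 : Measurable fun p : Space d × Space d => p.2 i :=
    (measurable_pi_apply i).comp measurable_snd
  exact (h1.inner h2).div (h1.norm.mul (measurable_const.sub h1.norm))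

theorem suppFun_linear (x : Space d) : ∃ l : Space d →L[ℝ] ℝ, ∀ y, suppFun x y = l y := by
  refine ⟨LinearMap.toContinuousLinearMap
    { toFun := fun y => suppFun x y
      map_add' := fun y z => ?_
      map_smul' := fun c y => ?_ }, fun y => rfl⟩
  · unfold suppFun
    rw [← Finset.sum_add_distrib]
    apply Finset.sum_congr rfl
    intro i _
    rw [Pi.add_apply, inner_add_right, add_div]
  · unfold suppFun
    rw [RingHom.id_apply, smul_eq_mul, Finset.mul_sum]
    apply Finset.sum_congr rfl
    intro i _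
    rw [Pi.smul_apply, real_inner_smul_right]
    ring

theorem suppFun_cap {x y : Space d} (hx : ∀ i, ‖x i‖ < 1 ∧ x i ≠ 0) (hy : ∀ i, ‖y i‖ ≤ 1)
    (h : suppFun x x ≤ suppFun x y) (i : Fin m) :
    1 - inner ℝ (‖x i‖⁻¹ • x i) (y i) ≤ m * depth x i := by
  have hpos : ∀ i, 0 < ‖x i‖ := fun i => norm_pos_iff.2 (hx i).2
  have hdep : ∀ i, 0 < 1 - ‖x i‖ := fun i => by linarith [(hx i).1]
  have hterm : ∀ i, inner ℝ (x i) (y i) / (‖x i‖ * (1 - ‖x i‖)) =
      inner ℝ (‖x i‖⁻¹ • x i) (y i) / (1 - ‖x i‖) := by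
    intro i
    rw [real_inner_smul_left]
    have h1 := (hpos i).ne'
    have h2 := (hdep i).ne'
    field_simp
  have htermx : ∀ i, inner ℝ (x i) (x i) / (‖x i‖ * (1 - ‖x i‖)) = ‖x i‖ / (1 - ‖x i‖) := by
    intro i
    rw [real_inner_self_eq_norm_sq]
    have h1 := (hpos i).ne'
    have h2 := (hdep i).ne'
    field_simp
  have hnn : ∀ i, 0 ≤ (1 - inner ℝ (‖x i‖⁻¹ • x i) (y i)) / (1 - ‖x i‖) := by
    intro i
    apply div_nonneg _ (hdep i).le
    have h1 := real_inner_le_norm (‖x i‖⁻¹ • x i) (y i)
    rw [norm_smul, norm_inv, norm_norm, inv_mul_cancel₀ (hpos i).ne', one_mul] at h1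
    linarith [hy i]
  have hsum : ∑ i, (1 - inner ℝ (‖x i‖⁻¹ • x i) (y i)) / (1 - ‖x i‖) ≤ m := by
    unfold suppFun at h
    simp_rw [hterm, htermx] at h
    have h3 : ∑ i, (1 - inner ℝ (‖x i‖⁻¹ • x i) (y i)) / (1 - ‖x i‖) =
        ∑ i : Fin m, (1 : ℝ) + (∑ i, ‖x i‖ / (1 - ‖x i‖) -
          ∑ i, inner ℝ (‖x i‖⁻¹ • x i) (y i) / (1 - ‖x i‖)) := by
      rw [← Finset.sum_sub_distrib, ← Finset.sum_add_distrib]
      apply Finset.sum_congr rfl
      intro i _
      have h2 := (hdep i).ne'
      field_simp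
      ring
    rw [h3]
    simp only [Finset.sum_const, Finset.card_univ, Fintype.card_fin, nsmul_eq_mul, mul_one]
    linarith
  have h4 := Finset.single_le_sum (f := fun i => (1 - inner ℝ (‖x i‖⁻¹ • x i) (y i)) / (1 - ‖x i‖))
    (fun j _ => hnn j) (Finset.mem_univ i)
  have h5 := h4.trans hsum
  rw [div_le_iff₀ (hdep i)] at h5
  exact h5

theorem supp_measure (hβ : ∀ i, 0 ≤ β i) (hd : ∀ i, 1 ≤ d i) (hm : 0 < m) : ∃ C : ℝ, 0 < C ∧
    ∀ x : Space d, (∀ i, ‖x i‖ < 1 ∧ x i ≠ 0) →
      (blockBeta d β).real {y | suppFun x x ≤ suppFun x y} ≤ C * Phi d β (depth x) := by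
  have hprob := isProbabilityMeasure_blockBeta (d := d) hβ
  obtain ⟨C, hC, hcap⟩ := prod_cap_upper (d := d) hβ hd
  have hmR : (0 : ℝ) < m := by exact_mod_cast hm
  refine ⟨C * (m : ℝ) ^ (∑ i, gam d β i), by positivity, ?_⟩
  intro x hx
  have hdep : ∀ i, 0 < depth x i := fun i => by unfold depth; linarith [(hx i).1]
  have h1 := hcap (fun i => ‖x i‖⁻¹ • x i) (fun i => by
    rw [norm_smul, norm_inv, norm_norm, inv_mul_cancel₀ (norm_ne_zero_iff.2 (hx i).2)])
    (fun i => m * depth x i) (fun i => mul_pos hmR (hdep i))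
  rw [Phi_smul hmR _ (fun i => (hdep i).le)] at h1
  calc (blockBeta d β).real {y | suppFun x x ≤ suppFun x y}
      ≤ (blockBeta d β).real {y | ∀ i, 1 - inner ℝ (‖x i‖⁻¹ • x i) (y i) ≤ m * depth x i} := by
        apply ENNReal.toReal_mono (measure_ne_top _ _)
        apply measure_mono_ae
        filter_upwards [ae_good (d := d) (β := β) hd] with y hy hyH
        intro i
        exact suppFun_cap hx (fun i => (hy i).1.le) hyH i
    _ ≤ _ := h1
    _ = _ := by ring

/-- Shells. -/
def shell (t : Fin m → ℝ) : Set (Space d) :=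
  {x | ∀ i, t i / 2 < 1 - ‖x i‖ ∧ 1 - ‖x i‖ ≤ t i}

theorem measurableSet_good : MeasurableSet {x : Space d | ∀ i, ‖x i‖ < 1 ∧ x i ≠ 0} := by
  have : {x : Space d | ∀ i, ‖x i‖ < 1 ∧ x i ≠ 0} =
      ⋂ i, ({x : Space d | ‖x i‖ < 1} ∩ {x : Space d | x i = 0}ᶜ) := by ext; simp
  rw [this]
  refine MeasurableSet.iInter fun i => ?_
  exact (measurableSet_lt (by fun_prop) measurable_const).inter
    ((measurableSet_singleton (0 : EuclideanSpace ℝ (Fin (d i)))).preimage
      (measurable_pi_apply i)).compl

theorem measurableSet_shell (t : Fin m → ℝ) : MeasurableSet (shell (d := d) t) := by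
  unfold shell
  have : {x : Space d | ∀ i, t i / 2 < 1 - ‖x i‖ ∧ 1 - ‖x i‖ ≤ t i} =
      ⋂ i, ({x : Space d | t i / 2 < 1 - ‖x i‖} ∩ {x : Space d | 1 - ‖x i‖ ≤ t i}) := by
    ext; simp
  rw [this]
  refine MeasurableSet.iInter fun i => ?_
  exact (measurableSet_lt measurable_const (by fun_prop)).inter
    (measurableSet_le (by fun_prop) measurable_const)

theorem shell_disjoint {c : ℝ} (hc : 0 < c) :
    Pairwise (Function.onFun Disjoint (fun lam : Fin m → ℕ =>
      shell (d := d) (fun i => c * dy lam i))) := by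
  intro lam lam' hne
  rw [Function.onFun, Set.disjoint_left]
  intro x h1 h2
  apply hne
  have key : ∀ (a b : Fin m → ℕ), x ∈ shell (d := d) (fun i => c * dy a i) →
      x ∈ shell (d := d) (fun i => c * dy b i) → ∀ i, a i ≤ b i := by
    intro a b ha hb i
    by_contra hcon
    push Not at hcon
    have h3 := (ha i).2
    have h4 := (hb i).1
    have h5 : c * dy b i / 2 < c * dy a i := lt_of_lt_of_le h4 h3
    unfold dy at h5
    have h6 : ((1 : ℝ) / 2) ^ a i ≤ (1 / 2) ^ (b i + 1) :=
      pow_le_pow_of_le_one (by norm_num) (by norm_num) hcon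
    rw [pow_succ] at h6
    have h7 := mul_le_mul_of_nonneg_left h6 hc.le
    nlinarith
  ext i
  exact le_antisymm (key lam lam' h1 h2 i) (key lam' lam h2 h1 i)

theorem finrank_Space (d : Fin m → ℕ) : finrank ℝ (Space d) = ∑ i, d i := by
  have h := Module.finrank_pi_fintype ℝ (M := fun i : Fin m => EuclideanSpace ℝ (Fin (d i)))
  simp only [finrank_euclideanSpace, Fintype.card_fin] at h
  exact h

theorem expected_vertices_lower (hβ : ∀ i, 0 ≤ β i) (hd : ∀ i, 1 ≤ d i) (hm : 0 < m) :
    ∃ C₀ c₀ : ℝ, 0 < C₀ ∧ 0 < c₀ ∧ ∀ c : ℝ, 0 < c → c ≤ 1 / 2 →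
      C₀ * Phi d β (fun _ => 2 * c) ≤ 1 / 2 → ∀ n : ℕ, ∑ i, d i + 1 ≤ n →
      (n : ℝ≥0∞) * ∑' lam : Fin m → ℕ,
        ENNReal.ofReal (Real.exp (-(2 * n * (C₀ * Phi d β (fun i => c * dy lam i)))) *
          (c₀ * Psi β (fun i => c * dy lam i))) ≤ expectedFaces d β n 0 := by
  have hprob := isProbabilityMeasure_blockBeta (d := d) hβ
  obtain ⟨C₀, hC₀, hsupp⟩ := supp_measure (d := d) hβ hd hm
  obtain ⟨c₀, hc₀, hshell⟩ := prod_shell_lower (d := d) hβ hd
  refine ⟨C₀, c₀, hC₀, hc₀, ?_⟩
  intro c hc hc2 hsmall n hn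
  obtain ⟨N, rfl⟩ : ∃ N, n = N + 1 := ⟨n - 1, by omega⟩
  have hfin : finrank ℝ (Space d) = ∑ i, d i := finrank_Space d
  have hdpos : 0 < ∑ i, d i := by
    have h1 : d ⟨0, hm⟩ ≤ ∑ i, d i := Finset.single_le_sum (fun i _ => Nat.zero_le _)
      (Finset.mem_univ _)
    have h2 := hd ⟨0, hm⟩
    omega
  have hgp := ae_genPos (V := Space d) volume (blockBeta d β) blockBeta_absolutelyContinuous (N + 1)
  -- the set of admissible points
  have hdm : ∀ i, Measurable fun x : Space d => depth x i := fun i => by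
    unfold depth; fun_prop
  have hΦm : Measurable fun x : Space d => Phi d β (depth x) := by
    unfold Phi
    exact Finset.measurable_prod _ fun i _ => (hdm i).pow_const _
  set A : Set (Space d) := {x | ∀ i, ‖x i‖ < 1 ∧ x i ≠ 0} ∩
    {x | C₀ * Phi d β (depth x) ≤ 1 / 2} with hAdef
  have hA : MeasurableSet A :=
    measurableSet_good.inter (measurableSet_le (measurable_const.mul hΦm) measurable_const)
  have hE := expected_vertices_ge (V := Space d) (N := N) (by omega) (by omega) (blockBeta d β) hgp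
    hA measurable_suppFun (fun x _ => suppFun_linear x)
    (q := fun x => C₀ * Phi d β (depth x)) (fun x hx => hsupp x hx.1) (fun x hx => hx.2)
  refine le_trans ?_ hE
  refine mul_le_mul_right ?_ _
  -- the shells
  set S : (Fin m → ℕ) → Set (Space d) := fun lam =>
    shell (fun i => c * dy lam i) ∩ {x | ∀ i, ‖x i‖ < 1 ∧ x i ≠ 0} with hSdef
  have hSm : ∀ lam, MeasurableSet (S lam) := fun lam =>
    (measurableSet_shell _).inter measurableSet_good
  have hSd : Pairwise (Function.onFun Disjoint S) := by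
    intro a b hab
    exact (shell_disjoint hc hab).mono Set.inter_subset_left Set.inter_subset_left
  have hSA : (⋃ lam, S lam) ⊆ A := by
    intro x hx
    obtain ⟨lam, h1, h2⟩ := Set.mem_iUnion.1 hx
    refine ⟨h2, ?_⟩
    have h3 : Phi d β (depth x) ≤ Phi d β (fun _ => 2 * c) := by
      apply Phi_mono hβ
      · intro i
        have := (h2 i).1
        unfold depth
        linarith
      · intro i
        have h4 := (h1 i).2
        have h5 := dy_le_two lam i
        unfold depth
        nlinarith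
    exact (mul_le_mul_of_nonneg_left h3 hC₀.le).trans hsmall
  calc ∑' lam : Fin m → ℕ,
        ENNReal.ofReal (Real.exp (-(2 * ((N + 1 : ℕ) : ℝ) * (C₀ * Phi d β (fun i => c * dy lam i)))) *
          (c₀ * Psi β (fun i => c * dy lam i)))
      ≤ ∑' lam : Fin m → ℕ, ∫⁻ x in S lam,
          ENNReal.ofReal (Real.exp (-(2 * ((N + 1 : ℕ) : ℝ) * (C₀ * Phi d β (depth x)))))
            ∂(blockBeta d β) := by
        apply ENNReal.tsum_le_tsum
        intro lam
        calc ENNReal.ofReal (Real.exp (-(2 * ((N + 1 : ℕ) : ℝ) *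
                (C₀ * Phi d β (fun i => c * dy lam i)))) * (c₀ * Psi β (fun i => c * dy lam i)))
            ≤ ∫⁻ _x in S lam, ENNReal.ofReal (Real.exp (-(2 * ((N + 1 : ℕ) : ℝ) *
                (C₀ * Phi d β (fun i => c * dy lam i))))) ∂(blockBeta d β) := by
              rw [setLIntegral_const, ENNReal.ofReal_mul (Real.exp_nonneg _)]
              refine mul_le_mul_right ?_ _
              have h1 := hshell (fun i => c * dy lam i)
                (fun i => mul_pos hc (dy_pos lam i)) (fun i => by
                  have := dy_le_two lam i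
                  have := dy_pos lam i
                  nlinarith)
              have h2 : (blockBeta d β) (S lam) =
                  (blockBeta d β) {y | ∀ i, c * dy lam i / 2 < 1 - ‖y i‖ ∧
                    1 - ‖y i‖ ≤ c * dy lam i} := by
                apply measure_congr
                filter_upwards [ae_good (d := d) (β := β) hd] with y hy
                apply propext
                exact ⟨fun h => h.1, fun h => ⟨h, hy⟩⟩
              rw [h2, ← ofReal_measureReal]
              exact ENNReal.ofReal_le_ofReal h1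
          _ ≤ _ := by
              apply setLIntegral_mono' (hSm lam)
              intro x hx
              apply ENNReal.ofReal_le_ofReal
              apply Real.exp_le_exp.2
              have h3 : Phi d β (depth x) ≤ Phi d β (fun i => c * dy lam i) := by
                apply Phi_mono hβ
                · intro i
                  have := (hx.2 i).1
                  unfold depth
                  linarith
                · intro i
                  exact (hx.1 i).2
              have h4 := mul_le_mul_of_nonneg_left h3 hC₀.le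
              have h5 : (0 : ℝ) ≤ 2 * ((N + 1 : ℕ) : ℝ) := by positivity
              have h6 := mul_le_mul_of_nonneg_left h4 h5
              linarith
    _ = ∫⁻ x in ⋃ lam, S lam,
          ENNReal.ofReal (Real.exp (-(2 * ((N + 1 : ℕ) : ℝ) * (C₀ * Phi d β (depth x)))))
            ∂(blockBeta d β) := (lintegral_iUnion hSm hSd _).symm
    _ ≤ _ := lintegral_mono_set hSA

end Pool.Agent.Lib.MP_26f5cf_pr
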