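import Mathlib
import Pool.Agent.Lib.MP_26f5cf_pr.Upper1

/-!
Half-spaces bounded by a hyperplane through the given points.
-/

set_option autoImplicit false
set_option linter.unusedSectionVars false

namespace Pool.Agent.Lib.MP_26f5cf_pr

open Set MeasureTheory Metric Module
open scoped ENNReal

variable {m : ℕ} {d : Fin m → ℕ} {β : Fin m → ℝ}

theorem pointwise_bound (hβ : ∀ i, 0 ≤ β i) (hd : ∀ i, 1 ≤ d i) (hm : 0 < m) {K : ℕ}
    (b : Basis (Fin (K + 1)) ℝ (Space d)) : ∃ c₁ : ℝ, 0 < c₁ ∧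
    ∀ x : Fin (K + 1) → Space d, AffineIndependent ℝ x →
    (∀ k i, ‖x k i‖ < 1 ∧ x k i ≠ 0) → ∀ s : ℝ, s ≠ 0 →
    ∃ lam : Fin m → ℕ, x ∈ boxSet d K (dy lam) ∧
      c₁ * Phi d β (dy lam) ≤ (blockBeta d β).real {y | 0 ≤ s * hypFun b x (y - x 0)} := by
  have hprob := isProbabilityMeasure_blockBeta (d := d) hβ
  obtain ⟨c, hc, hcap⟩ := prod_cap_lower (d := d) hβ hd
  set Γ := ∑ i, gam d β i with hΓ
  have hmR : (0 : ℝ) < m := by exact_mod_cast hm
  have hm1 : (1 : ℝ) ≤ m := by exact_mod_cast hm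
  refine ⟨c * (1 / (2 * m)) ^ Γ, by positivity, ?_⟩
  intro x hx hgood s hs
  set l : Space d →L[ℝ] ℝ := LinearMap.toContinuousLinearMap (s • hypFun b x) with hl
  have hlapp : ∀ v, l v = s * hypFun b x v := by
    intro v
    simp [hl]
  have hl0 : l ≠ 0 := by
    intro h0
    apply hypFun_ne_zero b hx
    refine LinearMap.ext fun v => ?_
    have h1 : l v = 0 := by rw [h0]; rfl
    rw [hlapp] at h1
    simpa [hs] using h1
  have hlk : ∀ k, l (x k) = l (x 0) := by
    intro k
    have h1 := hypFun_sub_eq_zero b x k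
    have h2 : l (x k - x 0) = 0 := by rw [hlapp, h1, mul_zero]
    rw [map_sub, sub_eq_zero] at h2
    exact h2
  obtain ⟨u, t, hu, ht, ht2, h1, h2⟩ := halfspace_caps hd hl0 (M := l (x 0)) (x0 := x 0)
    (fun i => (hgood 0 i).1) rfl
  choose lam hlam1 hlam2 using fun i => exists_dyadic (ht i) (ht2 i)
  have hxZ : ∀ k i, ‖x k i‖ ≤ 1 := fun k i => (hgood k i).1.le
  have hxcap : ∀ k i, 1 - inner ℝ (u i) (x k i) ≤ t i := fun k i =>
    h1 (x k) (hxZ k) (hlk k).symm.le i
  refine ⟨lam, ⟨?_, ?_⟩, ?_⟩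
  · intro i
    have h3 := real_inner_le_norm (u i) (x 0 i)
    rw [hu i, one_mul] at h3
    have h4 := hxcap 0 i
    have h5 := hlam1 i
    unfold dy
    linarith
  · intro k i
    have h3 := cap_move (hu i) (hxZ 0 i) (hxZ k.succ i) (hgood 0 i).2 (ht2 i) (hxcap 0 i)
      (hxcap k.succ i)
    have h5 := hlam1 i
    have h6 : t i ≤ dy lam i := h5
    linarith
  · have h3 := hcap u hu (fun i => t i / m) (fun i => div_pos (ht i) hmR) (fun i => by
      rw [div_le_iff₀ hmR]
      have := ht2 i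
      nlinarith)
    have h4 : Phi d β (fun i => 1 / (2 * m) * dy lam i) ≤ Phi d β (fun i => t i / m) := by
      apply Phi_mono hβ
      · intro i
        have := dy_pos lam i
        positivity
      · intro i
        have h5 : dy lam i ≤ 2 * t i := hlam2 i
        rw [div_mul_eq_mul_div, one_mul, div_le_div_iff₀ (by positivity) hmR]
        nlinarith
    rw [Phi_smul (by positivity) _ (fun i => (dy_pos lam i).le)] at h4
    calc c * (1 / (2 * ↑m)) ^ Γ * Phi d β (dy lam)
        = c * ((1 / (2 * ↑m)) ^ Γ * Phi d β (dy lam)) := by ring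
      _ ≤ c * Phi d β (fun i => t i / m) := mul_le_mul_of_nonneg_left h4 hc.le
      _ ≤ _ := h3
      _ ≤ (blockBeta d β).real {y | 0 ≤ s * hypFun b x (y - x 0)} := by
          apply ENNReal.toReal_mono (measure_ne_top _ _)
          apply measure_mono_ae
          filter_upwards [ae_good (d := d) (β := β) hd] with y hy hycap
          have h6 := h2 y (fun i => (hy i).1.le) hycap
          show 0 ≤ s * hypFun b x (y - x 0)
          rw [← hlapp, map_sub]
          linarith

end Pool.Agent.Lib.MP_26f5cf_pr
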