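import Mathlib
import Pool.Agent.Lib.MP_26f5cf_pr.Upper2
import Pool.Agent.Lib.MP_26f5cf_pr.Side

/-!
Upper bound for the expected number of facets.
-/

set_option autoImplicit false
set_option linter.unusedSectionVars false

namespace Pool.Agent.Lib.MP_26f5cf_pr

open Set MeasureTheory Metric Module
open scoped ENNReal

variable {m : ℕ} {d : Fin m → ℕ} {β : Fin m → ℝ}

theorem sideEvent_bound (hβ : ∀ i, 0 ≤ β i) (hd : ∀ i, 1 ≤ d i) (hm : 0 < m) {K : ℕ}
    (b : Basis (Fin (K + 1)) ℝ (Space d)) : ∃ c₁ C : ℝ, 0 < c₁ ∧ 0 < C ∧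
    ∀ (n r : ℕ) (e : Fin (K + 1) ⊕ Fin r ≃ Fin n) (s : ℝ), s ≠ 0 →
    (Measure.pi fun _ : Fin n => blockBeta d β) (sideEvent b e s) ≤
      ∑' lam : Fin m → ℕ, ENNReal.ofReal (Real.exp (-(r * (c₁ * Phi d β (dy lam)))) *
        (C * (Psi β (dy lam) * Phi d β (dy lam) ^ K))) := by
  have hprob := isProbabilityMeasure_blockBeta (d := d) hβ
  obtain ⟨c₁, hc₁, hpt⟩ := pointwise_bound hβ hd hm b
  obtain ⟨C, hC, hbox⟩ := box_measure (d := d) hβ hd K
  refine ⟨c₁, C, hc₁, hC, ?_⟩
  intro n r e s hs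
  rw [side_measure b e s (blockBeta d β)]
  have hfin : finrank ℝ (Space d) = K + 1 := by
    have := finrank_eq_card_basis b
    simpa using this
  have hae : ∀ᵐ x ∂(Measure.pi fun _ : Fin (K + 1) => blockBeta d β),
      ∀ k i, ‖x k i‖ < 1 ∧ x k i ≠ 0 := by
    rw [ae_all_iff]
    intro k
    exact (Measure.quasiMeasurePreserving_eval (μ := fun _ : Fin (K + 1) => blockBeta d β) k).ae
      (ae_good hd)
  have haff := ae_affineIndependent (V := Space d) volume (blockBeta d β)
    blockBeta_absolutelyContinuous (K + 1) (by omega)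
  have hmain : ∀ᵐ x ∂(Measure.pi fun _ : Fin (K + 1) => blockBeta d β),
      ENNReal.ofReal ((1 - (blockBeta d β).real {y | 0 ≤ s * hypFun b x (y - x 0)}) ^ r) ≤
      ∑' lam : Fin m → ℕ, (boxSet d K (dy lam)).indicator
        (fun _ => ENNReal.ofReal (Real.exp (-(r * (c₁ * Phi d β (dy lam)))))) x := by
    filter_upwards [hae, haff] with x hx1 hx2
    obtain ⟨lam, hlam1, hlam2⟩ := hpt x hx2 hx1 s hs
    refine le_trans ?_ (ENNReal.le_tsum lam)
    rw [Set.indicator_of_mem hlam1]
    apply ENNReal.ofReal_le_ofReal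
    have h3 : 1 - (blockBeta d β).real {y | 0 ≤ s * hypFun b x (y - x 0)} ≤
        Real.exp (-(c₁ * Phi d β (dy lam))) := by
      have := Real.add_one_le_exp (-(c₁ * Phi d β (dy lam)))
      linarith
    calc (1 - (blockBeta d β).real {y | 0 ≤ s * hypFun b x (y - x 0)}) ^ r
        ≤ Real.exp (-(c₁ * Phi d β (dy lam))) ^ r := by
          apply pow_le_pow_left₀ _ h3
          have := measureReal_le_one (μ := blockBeta d β)
            (s := {y : Space d | 0 ≤ s * hypFun b x (y - x 0)})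
          linarith
      _ = _ := by rw [← Real.exp_nat_mul]; congr 1; ring
  refine (lintegral_mono_ae hmain).trans ?_
  rw [lintegral_tsum]
  · apply ENNReal.tsum_le_tsum
    intro lam
    rw [lintegral_indicator_const (measurableSet_boxSet K _), ENNReal.ofReal_mul (Real.exp_nonneg _)]
    exact mul_le_mul_right (hbox (dy lam) (dy_pos lam)) _
  · intro lam
    exact (measurable_const.indicator (measurableSet_boxSet K _)).aemeasurable

end Pool.Agent.Lib.MP_26f5cf_pr
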