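import Mathlib
import Pool.Agent.Lib.MP_26f5cf_pr.Upper3
import Pool.Agent.Lib.MP_26f5cf_pr.Facets
import Pool.Agent.Lib.MP_26f5cf_pr.Lower

/-!
Comparison of the expected number of facets with the expected number of vertices.
-/

set_option autoImplicit false
set_option linter.unusedSectionVars false

namespace Pool.Agent.Lib.MP_26f5cf_pr

open Set MeasureTheory Metric Module Filter
open scoped ENNReal

variable {m : ℕ} {d : Fin m → ℕ} {β : Fin m → ℝ}

theorem exists_scale {Γ a C₀ : ℝ} (hΓ : 0 < Γ) (ha : 0 < a) :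
    ∃ c : ℝ, 0 < c ∧ c ≤ 1 / 2 ∧ 2 * (C₀ * c ^ Γ) ≤ a ∧ C₀ * (2 * c) ^ Γ ≤ 1 / 2 := by
  have h1 : Tendsto (fun c : ℝ => 2 * (C₀ * c ^ Γ)) (nhdsWithin 0 (Set.Ioi 0)) (nhds 0) := by
    have h := (Real.continuousAt_rpow_const 0 Γ (Or.inr hΓ.le)).tendsto
    rw [Real.zero_rpow hΓ.ne'] at h
    have h0 : Tendsto (fun c : ℝ => c ^ Γ) (nhdsWithin 0 (Set.Ioi 0)) (nhds 0) :=
      h.mono_left nhdsWithin_le_nhds
    have h2 := (h0.const_mul C₀).const_mul (2 : ℝ)
    simpa using h2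
  have h2 : Tendsto (fun c : ℝ => C₀ * (2 * c) ^ Γ) (nhdsWithin 0 (Set.Ioi 0)) (nhds 0) := by
    have h := (Real.continuousAt_rpow_const 0 Γ (Or.inr hΓ.le)).tendsto
    rw [Real.zero_rpow hΓ.ne'] at h
    have h3 : Tendsto (fun c : ℝ => 2 * c) (nhdsWithin 0 (Set.Ioi 0)) (nhds 0) := by
      have : Tendsto (fun c : ℝ => 2 * c) (nhds 0) (nhds (2 * 0)) :=
        (continuous_const.mul continuous_id).tendsto 0
      rw [mul_zero] at this
      exact this.mono_left nhdsWithin_le_nhds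
    have h4 := (h.comp h3).const_mul C₀
    simpa using h4
  have h3 : ∀ᶠ c : ℝ in nhdsWithin 0 (Set.Ioi 0), c < 1 / 2 :=
    (tendsto_id.mono_left nhdsWithin_le_nhds).eventually (gt_mem_nhds (by norm_num))
  obtain ⟨c, ⟨⟨hc1, hc2⟩, hc3⟩, hc4⟩ := (((h1.eventually (gt_mem_nhds ha)).and
    (h2.eventually (gt_mem_nhds (by norm_num : (0 : ℝ) < 1 / 2)))).and h3).and
      self_mem_nhdsWithin |>.exists
  exact ⟨c, hc4, hc3.le, hc1.le, hc2.le⟩

/-- The elementary inequality behind the comparison. -/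
theorem term_compare {K n r : ℕ} {c₁ Φ Ψ C : ℝ} (hc₁ : 0 < c₁) (hΦ : 0 < Φ) (hΨ : 0 < Ψ)
    (hC : 0 < C) (hr : (n : ℝ) / 2 ≤ r) :
    (n : ℝ) ^ (K + 1) * (Real.exp (-(r * (c₁ * Φ))) * (C * (Ψ * Φ ^ K))) ≤
      C * (K.factorial * (4 / c₁) ^ K) * (n * (Real.exp (-(n * (c₁ / 4 * Φ))) * Ψ)) := by
  have h1 := Real.pow_div_factorial_le_exp (n * (c₁ / 4 * Φ)) (by positivity) K
  rw [div_le_iff₀ (by positivity)] at h1
  have h2 : (n : ℝ) ^ K * Φ ^ K ≤ (K.factorial * (4 / c₁) ^ K) * Real.exp (n * (c₁ / 4 * Φ)) := by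
    have h3 : (n : ℝ) ^ K * Φ ^ K = (4 / c₁) ^ K * (n * (c₁ / 4 * Φ)) ^ K := by
      rw [← mul_pow, ← mul_pow]
      congr 1
      field_simp
    rw [h3]
    calc (4 / c₁) ^ K * (n * (c₁ / 4 * Φ)) ^ K
        ≤ (4 / c₁) ^ K * (Real.exp (n * (c₁ / 4 * Φ)) * K.factorial) :=
          mul_le_mul_of_nonneg_left h1 (by positivity)
      _ = _ := by ring
  have h4 : Real.exp (-(r * (c₁ * Φ))) ≤
      Real.exp (-(n * (c₁ / 4 * Φ))) * Real.exp (-(n * (c₁ / 4 * Φ))) := by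
    rw [← Real.exp_add]
    apply Real.exp_le_exp.2
    have : (n : ℝ) / 2 * (c₁ * Φ) ≤ r * (c₁ * Φ) :=
      mul_le_mul_of_nonneg_right hr (by positivity)
    linarith
  calc (n : ℝ) ^ (K + 1) * (Real.exp (-(r * (c₁ * Φ))) * (C * (Ψ * Φ ^ K)))
      = (C * n * Ψ) * ((n : ℝ) ^ K * Φ ^ K) * Real.exp (-(r * (c₁ * Φ))) := by
        rw [pow_succ]; ring
    _ ≤ (C * n * Ψ) * ((K.factorial * (4 / c₁) ^ K) * Real.exp (n * (c₁ / 4 * Φ))) *
        (Real.exp (-(n * (c₁ / 4 * Φ))) * Real.exp (-(n * (c₁ / 4 * Φ)))) := by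
        apply mul_le_mul _ h4 (Real.exp_nonneg _) (by positivity)
        exact mul_le_mul_of_nonneg_left h2 (by positivity)
    _ = _ := by
        have h5 : Real.exp (n * (c₁ / 4 * Φ)) * Real.exp (-(n * (c₁ / 4 * Φ))) = 1 := by
          rw [← Real.exp_add, add_neg_cancel, Real.exp_zero]
        calc _ = (C * n * Ψ) * (K.factorial * (4 / c₁) ^ K) *
              (Real.exp (n * (c₁ / 4 * Φ)) * Real.exp (-(n * (c₁ / 4 * Φ)))) *
              Real.exp (-(n * (c₁ / 4 * Φ))) := by ring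
          _ = _ := by rw [h5]; ring

theorem facets_le_vertices (hβ : ∀ i, 0 ≤ β i) (hd : ∀ i, 1 ≤ d i) {K : ℕ}
    (hK : ∑ i, d i = K + 1) : ∃ C : ℝ, 0 < C ∧ ∀ n : ℕ, 2 * (K + 1) ≤ n →
      expectedFaces d β n K ≤ ENNReal.ofReal C * expectedFaces d β n 0 := by
  have hm : 0 < m := by
    rcases Nat.eq_zero_or_pos m with h | h
    · subst h
      simp at hK
    · exact h
  have hfin : finrank ℝ (Space d) = K + 1 := by rw [finrank_Space, hK]
  have hprob := isProbabilityMeasure_blockBeta (d := d) hβ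
  set b : Basis (Fin (K + 1)) ℝ (Space d) := Module.finBasisOfFinrankEq ℝ (Space d) hfin with hb
  obtain ⟨c₁, C₁, hc₁, hC₁, hside⟩ := sideEvent_bound hβ hd hm b
  obtain ⟨C₀, c₀, hC₀, hc₀, hlow⟩ := expected_vertices_lower (d := d) hβ hd hm
  set Γ := ∑ i, gam d β i with hΓ
  have hΓpos : 0 < Γ := by
    apply Finset.sum_pos (fun i _ => gam_pos hβ i)
    exact ⟨⟨0, hm⟩, Finset.mem_univ _⟩
  obtain ⟨c, hc, hc2, hc3, hc4⟩ := exists_scale hΓpos (a := c₁ / 4) (C₀ := C₀) (by positivity)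
  set σ := ∑ i, (β i + 1) with hσ
  set C' : ℝ := C₁ * (K.factorial * (4 / c₁) ^ K) with hC'
  have hC'pos : 0 < C' := by positivity
  have hcσ : 0 < c ^ σ := Real.rpow_pos_of_pos hc _
  refine ⟨2 * C' / (c₀ * c ^ σ), by positivity, ?_⟩
  intro n hn
  have hsmall : C₀ * Phi d β (fun _ => 2 * c) ≤ 1 / 2 := by
    have h1 := Phi_smul (d := d) (β := β) (c := 2 * c) (by positivity) (fun _ => 1)
      (fun _ => zero_le_one)
    have h2 : Phi d β (fun _ => 1) = 1 := by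
      unfold Phi
      simp
    rw [h2, mul_one] at h1
    simp only [mul_one] at h1
    rw [h1]
    exact hc4
  have hL := hlow c hc hc2 hsmall n (by omega)
  have hU := expected_facets_le (n := n) (by omega : K + 2 ≤ n) b (blockBeta d β)
    (ae_genPos (V := Space d) volume (blockBeta d β) blockBeta_absolutelyContinuous n)
    _ (fun e s hs => hside n (n - (K + 1)) e s hs)
  have hchoose : (n.choose (K + 1) : ℝ≥0∞) ≤ ENNReal.ofReal ((n : ℝ) ^ (K + 1)) := by
    rw [ENNReal.ofReal_pow (Nat.cast_nonneg n), ENNReal.ofReal_natCast]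
    exact_mod_cast Nat.choose_le_pow n (K + 1)
  have hr : (n : ℝ) / 2 ≤ ((n - (K + 1) : ℕ) : ℝ) := by
    rw [Nat.cast_sub (by omega)]
    have : (2 * (K + 1) : ℝ) ≤ n := by exact_mod_cast hn
    push_cast
    linarith
  calc expectedFaces d β n K
      ≤ (n.choose (K + 1) : ℝ≥0∞) * (2 * ∑' lam : Fin m → ℕ,
        ENNReal.ofReal (Real.exp (-(((n - (K + 1) : ℕ) : ℝ) * (c₁ * Phi d β (dy lam)))) *
          (C₁ * (Psi β (dy lam) * Phi d β (dy lam) ^ K)))) := hU
    _ ≤ ENNReal.ofReal ((n : ℝ) ^ (K + 1)) * (2 * ∑' lam : Fin m → ℕ,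
        ENNReal.ofReal (Real.exp (-(((n - (K + 1) : ℕ) : ℝ) * (c₁ * Phi d β (dy lam)))) *
          (C₁ * (Psi β (dy lam) * Phi d β (dy lam) ^ K)))) := mul_le_mul_left hchoose _
    _ = ∑' lam : Fin m → ℕ, ENNReal.ofReal (2 * ((n : ℝ) ^ (K + 1) *
          (Real.exp (-(((n - (K + 1) : ℕ) : ℝ) * (c₁ * Phi d β (dy lam)))) *
          (C₁ * (Psi β (dy lam) * Phi d β (dy lam) ^ K))))) := by
        rw [← ENNReal.tsum_mul_left, ← ENNReal.tsum_mul_left]
        congr 1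
        ext lam
        rw [ENNReal.ofReal_mul (by norm_num : (0 : ℝ) ≤ 2), ENNReal.ofReal_mul (by positivity :
          (0 : ℝ) ≤ (n : ℝ) ^ (K + 1))]
        rw [show ENNReal.ofReal 2 = 2 by simp]
        ring
    _ ≤ ∑' lam : Fin m → ℕ, ENNReal.ofReal (2 * C' / (c₀ * c ^ σ) *
          (n * (Real.exp (-(2 * n * (C₀ * Phi d β (fun i => c * dy lam i)))) *
          (c₀ * Psi β (fun i => c * dy lam i))))) := by
        apply ENNReal.tsum_le_tsum
        intro lam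
        apply ENNReal.ofReal_le_ofReal
        have hΦ : 0 < Phi d β (dy lam) := Phi_pos (dy_pos lam)
        have hΨ : 0 < Psi β (dy lam) := Psi_pos (dy_pos lam)
        have h1 := term_compare (K := K) (n := n) (r := n - (K + 1)) hc₁ hΦ hΨ hC₁ hr
        rw [Phi_smul hc _ (fun i => (dy_pos lam i).le), Psi_smul hc _ (fun i => (dy_pos lam i).le),
          ← hΓ, ← hσ]
        have h2 : Real.exp (-(n * (c₁ / 4 * Phi d β (dy lam)))) ≤
            Real.exp (-(2 * n * (C₀ * (c ^ Γ * Phi d β (dy lam))))) := by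
          apply Real.exp_le_exp.2
          have h3 : (n : ℝ) * Phi d β (dy lam) * (2 * (C₀ * c ^ Γ)) ≤
              n * Phi d β (dy lam) * (c₁ / 4) := mul_le_mul_of_nonneg_left hc3 (by positivity)
          linarith
        calc 2 * ((n : ℝ) ^ (K + 1) *
              (Real.exp (-(((n - (K + 1) : ℕ) : ℝ) * (c₁ * Phi d β (dy lam)))) *
              (C₁ * (Psi β (dy lam) * Phi d β (dy lam) ^ K))))
            ≤ 2 * (C' * (n * (Real.exp (-(n * (c₁ / 4 * Phi d β (dy lam)))) *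
                Psi β (dy lam)))) := mul_le_mul_of_nonneg_left h1 (by norm_num)
          _ ≤ 2 * (C' * (n * (Real.exp (-(2 * n * (C₀ * (c ^ Γ * Phi d β (dy lam))))) *
                Psi β (dy lam)))) := by
              apply mul_le_mul_of_nonneg_left _ (by norm_num)
              apply mul_le_mul_of_nonneg_left _ hC'pos.le
              apply mul_le_mul_of_nonneg_left _ (Nat.cast_nonneg n)
              exact mul_le_mul_of_nonneg_right h2 hΨ.le
          _ = _ := by field_simp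
    _ = ENNReal.ofReal (2 * C' / (c₀ * c ^ σ)) * ((n : ℝ≥0∞) * ∑' lam : Fin m → ℕ,
        ENNReal.ofReal (Real.exp (-(2 * n * (C₀ * Phi d β (fun i => c * dy lam i)))) *
          (c₀ * Psi β (fun i => c * dy lam i)))) := by
        rw [← ENNReal.tsum_mul_left, ← ENNReal.tsum_mul_left]
        congr 1
        ext lam
        rw [ENNReal.ofReal_mul (by positivity), ENNReal.ofReal_mul (Nat.cast_nonneg n),
          ENNReal.ofReal_natCast]
    _ ≤ _ := mul_le_mul_right hL _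

end Pool.Agent.Lib.MP_26f5cf_pr
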