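import Mathlib
import Pool.Agent.Lib.MP_26f5cf_pr.Facets

/-!
Face numbers of the random polytope are almost everywhere measurable.
-/

set_option autoImplicit false
set_option linter.unusedSectionVars false

namespace Pool.Agent.Lib.MP_26f5cf_pr

open Set MeasureTheory Metric Module
open scoped ENNReal

section

variable {V : Type*} [NormedAddCommGroup V] [NormedSpace ℝ V] [FiniteDimensional ℝ V]
  [MeasurableSpace V] [BorelSpace V]

theorem faceIdx_of_sideEvent {n K r : ℕ} {X : Fin n → V}
    (b : Basis (Fin (K + 1)) ℝ V) {J : Finset (Fin n)} (hJ : J.card = K + 1)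
    (hr : (Jᶜ).card = r) {s : ℝ} (hX : X ∈ sideEvent b (finSumEquivOfFinset hJ hr) s) :
    FaceIdx X J := by
  set e := finSumEquivOfFinset hJ hr with he
  set x : Fin (K + 1) → V := fun k => X (e (Sum.inl k)) with hx
  have hmemJ : ∀ k, e (Sum.inl k) ∈ J := by
    intro k
    rw [he, finSumEquivOfFinset_inl]
    exact Finset.orderEmbOfFin_mem J hJ k
  have hmemJc : ∀ k, e (Sum.inr k) ∉ J := by
    intro k
    rw [he, finSumEquivOfFinset_inr]
    have := Finset.orderEmbOfFin_mem Jᶜ hr k
    rwa [Finset.mem_compl] at this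
  set l : V →L[ℝ] ℝ := LinearMap.toContinuousLinearMap (s • hypFun b x) with hl
  have hlapp : ∀ v, l v = s * hypFun b x v := by
    intro v
    simp [hl]
  refine ⟨⟨e (Sum.inl 0), hmemJ 0⟩, l, l (x 0), ?_, ?_⟩
  · intro i hi
    obtain ⟨z, rfl⟩ := e.surjective i
    rcases z with k | k
    · have h1 : l (x k - x 0) = 0 := by rw [hlapp, hypFun_sub_eq_zero, mul_zero]
      rw [map_sub, sub_eq_zero] at h1
      exact h1
    · exact absurd hi (hmemJc k)
  · intro i hi
    obtain ⟨z, rfl⟩ := e.surjective i
    rcases z with k | k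
    · exact absurd (hmemJ k) hi
    · have h1 : s * hypFun b x (X (e (Sum.inr k)) - x 0) < 0 := hX k
      rw [← hlapp, map_sub] at h1
      linarith

open Classical in
/-- The union of the two one-sidedness events for the index set `J`. -/
noncomputable def sideSet {n K : ℕ} (b : Basis (Fin (K + 1)) ℝ V) (J : Finset (Fin n)) :
    Set (Fin n → V) :=
  if h : J.card = K + 1 then sideEvent b (finSumEquivOfFinset h rfl) 1 ∪
    sideEvent b (finSumEquivOfFinset h rfl) (-1) else ∅

theorem measurableSet_sideSet {n K : ℕ} (b : Basis (Fin (K + 1)) ℝ V) (J : Finset (Fin n)) :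
    MeasurableSet (sideSet b J) := by
  by_cases h : J.card = K + 1
  · simp only [sideSet, h, dif_pos]
    exact (measurableSet_sideEvent b _ _).union (measurableSet_sideEvent b _ _)
  · simp only [sideSet, h, dif_neg, not_false_eq_true]
    exact MeasurableSet.empty

theorem mem_sideSet_iff {n K : ℕ} (b : Basis (Fin (K + 1)) ℝ V) {J : Finset (Fin n)}
    {X : Fin n → V} (hX : GenPos X) (hn : K + 2 ≤ n) :
    X ∈ sideSet b J ↔ FaceIdx X J ∧ J.card = K + 1 := by
  by_cases h : J.card = K + 1
  · simp only [sideSet, h, dif_pos, and_true]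
    constructor
    · rintro (h1 | h1)
      · exact faceIdx_of_sideEvent b h rfl h1
      · exact faceIdx_of_sideEvent b h rfl h1
    · intro h1
      exact facet_sideEvent hX hn b h rfl h1
  · simp only [sideSet, h, dif_neg, not_false_eq_true, Set.mem_empty_iff_false, and_false]

open Classical in
theorem aemeasurable_faceCount {n K j : ℕ} (hn : K + 2 ≤ n) (hj : j ≤ K)
    (b : Basis (Fin (K + 1)) ℝ V) (μ : Measure V) [IsProbabilityMeasure μ]
    (hgp : ∀ᵐ X ∂(Measure.pi fun _ : Fin n => μ), GenPos X) :
    AEMeasurable (fun X : Fin n → V => faceCount (convexHull ℝ (Set.range X)) j)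
      (Measure.pi fun _ => μ) := by
  have hV : finrank ℝ V = K + 1 := by
    have := finrank_eq_card_basis b
    simpa using this
  let U : Finset (Fin n) → Set (Fin n → V) := fun I =>
    ⋃ J ∈ (Finset.univ : Finset (Finset (Fin n))).filter (fun J => I ⊆ J), sideSet b J
  have hUm : ∀ I, MeasurableSet (U I) := fun I =>
    Finset.measurableSet_biUnion _ fun J _ => measurableSet_sideSet b J
  refine ⟨fun X => ∑ I ∈ (Finset.univ : Finset (Fin n)).powersetCard (j + 1),
    (U I).indicator 1 X, ?_, ?_⟩
  · exact Finset.measurable_sum _ fun I _ => measurable_one.indicator (hUm I)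
  · filter_upwards [hgp] with X hX
    have hcard : finrank ℝ V + 1 ≤ Fintype.card (Fin n) := by
      rw [hV, Fintype.card_fin]; omega
    rw [hX.faceCount_eq hcard (by omega)]
    have key : ∀ I : Finset (Fin n), I.card = j + 1 → (X ∈ U I ↔ FaceIdx X I) := by
      intro I hI
      have hIne : I.Nonempty := by
        rw [← Finset.card_pos]; omega
      constructor
      · intro h
        simp only [U, Set.mem_iUnion] at h
        obtain ⟨J, hJ, hXJ⟩ := h
        have hIJ : I ⊆ J := by simpa using hJ
        obtain ⟨hf, hc⟩ := (mem_sideSet_iff b hX hn).1 hXJ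
        exact hX.faceIdx_subset hcard hf (by omega) hIJ hIne
      · intro h
        obtain ⟨J, hIJ, hJ, hJc⟩ := hX.exists_facet hcard h (by omega)
        simp only [U, Set.mem_iUnion]
        exact ⟨J, by simpa using hIJ, (mem_sideSet_iff b hX hn).2 ⟨hJ, by omega⟩⟩
    have hset : idxSet X (j + 1) =
        ((Finset.univ : Finset (Fin n)).powersetCard (j + 1)).filter (fun I => X ∈ U I) := by
      ext I
      simp only [idxSet, Finset.mem_filter, Finset.mem_univ, true_and, Finset.mem_powersetCard,
        Finset.subset_univ]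
      constructor
      · rintro ⟨h1, h2⟩
        exact ⟨h2, (key I h2).2 h1⟩
      · rintro ⟨h1, h2⟩
        exact ⟨(key I h1).1 h2, h1⟩
    rw [hset, Finset.card_filter]
    push_cast
    apply Finset.sum_congr rfl
    intro I _
    by_cases hi : X ∈ U I
    · simp [hi]
    · simp [hi]

open Classical in
theorem lintegral_faceCount_lt_top {n K j : ℕ} (hn : K + 2 ≤ n) (hj : j ≤ K)
    (hV : finrank ℝ V = K + 1) (μ : Measure V) [IsProbabilityMeasure μ]
    (hgp : ∀ᵐ X ∂(Measure.pi fun _ : Fin n => μ), GenPos X) :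
    ∫⁻ X : Fin n → V, faceCount (convexHull ℝ (Set.range X)) j ∂(Measure.pi fun _ => μ) ≤
      ((n.choose (j + 1) : ℕ) : ℝ≥0∞) := by
  have hpt : ∀ᵐ X ∂(Measure.pi fun _ : Fin n => μ),
      faceCount (convexHull ℝ (Set.range X)) j ≤ ((n.choose (j + 1) : ℕ) : ℝ≥0∞) := by
    filter_upwards [hgp] with X hX
    rw [hX.faceCount_eq (by rw [hV, Fintype.card_fin]; omega) (by omega)]
    have hsub : idxSet X (j + 1) ⊆ (Finset.univ : Finset (Fin n)).powersetCard (j + 1) := by
      intro J hJ
      simp only [idxSet, Finset.mem_filter, Finset.mem_univ, true_and] at hJ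
      rw [Finset.mem_powersetCard]
      exact ⟨Finset.subset_univ J, hJ.2⟩
    have := Finset.card_le_card hsub
    rw [Finset.card_powersetCard, Finset.card_univ, Fintype.card_fin] at this
    exact_mod_cast this
  refine (lintegral_mono_ae hpt).trans ?_
  simp

end

end Pool.Agent.Lib.MP_26f5cf_pr
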